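import Pool.Agent.XWar.VolC

/-!
# XWar.AeCv: few near coincidences for almost every point of a curve of polynomials

The curve `s ↦ fc s = x^k + g(x) + c_j(s) x^j + ... + c_0(s)`, differentiable coefficients, on an interval `[a, b]`
where the derivatives are bounded and `|c_j'| ≥ δ0 > 0`. The letters of the polynomial are divisible by a large
`D`, so that the derivatives of the differences of the values of two words are comparable on `[a, b]`
(`sep_GD`), and the measure of the set of near coincidences is compared with the one for the tangent at `a`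
(`vol_cmp`), for which `avgXC` gives the average.
-/

namespace XWar

open TWar MWg FWar YWar Finset MeasureTheory Filter Topology

/-- The polynomial with parameter `s`. -/
noncomputable def fc (k j : ℕ) (g : Polynomial ℝ) (c : ℕ → ℝ → ℝ) (s : ℝ) (x : ℕ) : ℝ :=
  (x : ℝ) ^ k + g.eval (x : ℝ) + lo (j + 1) (fun i => c i s) x

/-- The words. -/
noncomputable def XD (D k j q1 q2 r : ℕ) : Finset (ℕ × (List (ℕ × ℕ) × List (ℕ × ℕ))) :=
  mainI (XX r) ×ˢ (CT k q1 r ×ˢ GD D j q2 (XX r / 512))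

theorem good_lo {k : ℕ} {f : ℕ → ℝ} (hf : Good k f) (c : ℕ → ℝ) (n : ℕ) (hn : n ≤ k) :
    Good k (fun x : ℕ => f x + lo n c x) := by
  induction n with
  | zero =>
    have : (fun x : ℕ => f x + lo 0 c x) = f := by
      funext x
      simp [lo]
    rw [this]
    exact hf
  | succ n ih =>
    have h1 := good_add_pow (by omega : n < k) (ih (by omega)) (c n)
    convert h1 using 2 with x
    unfold lo
    rw [sum_range_succ]
    ring

theorem good_fc {k j : ℕ} (hk : 2 ≤ k) (hjk : j < k) {g : Polynomial ℝ} (hg : g.natDegree < k)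
    (c : ℕ → ℝ → ℝ) (s : ℝ) : Good k (fc k j g c s) :=
  good_lo (FinT_good0 hk hg) (fun i => c i s) (j + 1) (by omega)

private theorem AeCv_val {F F' : ℝ → ℕ → ℝ} {s : ℝ} (hF : ∀ x, HasDerivAt (fun t => F t x) (F' s x) s)
    (l : List (ℕ × ℕ)) :
    HasDerivAt (fun t => val (F t) (fun _ => 0) l) (val (F' s) (fun _ => 0) l) s := by
  induction l with
  | nil =>
    have e : (fun t : ℝ => val (F t) (fun _ => 0) []) = fun _ => (0 : ℝ) := by
      funext b
      exact val_nil _ _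
    rw [e, val_nil]
    exact hasDerivAt_const _ _
  | cons u l ih =>
    have e : (fun t : ℝ => val (F t) (fun _ => 0) (u :: l)) =
        fun t : ℝ => F t u.1 + 0 + val (F t) (fun _ => 0) l := by
      funext b
      exact val_cons _ _ _ _
    rw [e, val_cons]
    have h := HasDerivAt.fun_add ((hF u.1).add_const (0 : ℝ)) ih
    rw [add_zero]
    exact h

private theorem lo_abs' {n : ℕ} {c : ℕ → ℝ} {T P x : ℝ} (hT : 0 ≤ T) (hP : 1 ≤ P)
    (hc : ∀ i < n + 1, |c i| ≤ T) (hx : 0 ≤ x) (hx2 : x ≤ 16 * P) :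
    |lo (n + 1) c x| ≤ T * (n + 1) * 16 ^ n * P ^ n := by
  unfold lo
  have h1 : ∀ i ∈ Finset.range (n + 1), |c i * x ^ i| ≤ T * (16 ^ n * P ^ n) := by
    intro i hi
    have hi' := Finset.mem_range.1 hi
    rw [abs_mul, abs_of_nonneg (pow_nonneg hx i), ← mul_pow]
    refine mul_le_mul (hc i hi') ?_ (pow_nonneg hx i) hT
    exact (pow_le_pow_left₀ hx hx2 i).trans (pow_le_pow_right₀ (by linarith) (by omega))
  refine (Finset.abs_sum_le_sum_abs _ _).trans ((Finset.sum_le_sum h1).trans (le_of_eq ?_))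
  rw [Finset.sum_const, Finset.card_range, nsmul_eq_mul]
  push_cast
  ring

private theorem pow_inc {n : ℕ} (hn : 1 ≤ n) {c x y : ℝ} (hc : 0 ≤ c) (hcy : c ≤ y) (hxy : y ≤ x) :
    c ^ (n - 1) * (x - y) ≤ x ^ n - y ^ n := by
  obtain ⟨m, rfl⟩ : ∃ m, n = m + 1 := ⟨n - 1, by omega⟩
  rw [Nat.add_sub_cancel]
  have hy : 0 ≤ y := hc.trans hcy
  have hx : 0 ≤ x := hy.trans hxy
  have h1 : c ^ m ≤ y ^ m := pow_le_pow_left₀ hc hcy m
  have h2 : y ^ m ≤ x ^ m := pow_le_pow_left₀ hy hxy m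
  have h3 : x ^ (m + 1) - y ^ (m + 1) = x ^ m * (x - y) + (x ^ m - y ^ m) * y := by ring
  have h4 : 0 ≤ (x ^ m - y ^ m) * y := mul_nonneg (by linarith) hy
  have h5 : c ^ m * (x - y) ≤ x ^ m * (x - y) :=
    mul_le_mul_of_nonneg_right (h1.trans h2) (by linarith)
  linarith

theorem fam_lo {j : ℕ} (hj : 2 ≤ j) {c1 : ℕ → ℝ → ℝ} {I : Set ℝ} {T δ0 : ℝ} (hT : 0 ≤ T)
    (hδ0 : 0 < δ0) (hb : ∀ i < j + 1, ∀ s ∈ I, |c1 i s| ≤ T) (hlow : ∀ s ∈ I, δ0 ≤ |c1 j s|) :
    Fam j I (fun s x => lo (j + 1) (fun i => c1 i s) (x : ℝ)) := by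
  have hspl : ∀ (d : ℕ → ℝ) (x : ℝ), lo (j + 1) d x = lo j d x + d j * x ^ j := by
    intro d x
    unfold lo
    rw [sum_range_succ]
  refine ⟨⟨δ0 / 2, by positivity, max 1 (T * (j : ℝ) ^ 2 * 16 ^ j / (δ0 / 2)), ?_⟩,
    ⟨T * (((j + 1 : ℕ) : ℝ) * (((j + 1 : ℕ) : ℝ) - 1)) * 16 ^ (j - 1) + 1, ?_, 1, ?_⟩,
    ⟨T * (j + 1) * 16 ^ j + 1, by positivity, 1, ?_⟩⟩
  · -- lower bound
    have main : ∀ P, max 1 (T * (j : ℝ) ^ 2 * 16 ^ j / (δ0 / 2)) ≤ P → ∀ s ∈ I, ∀ u ∈ mainI P,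
        ∀ u' ∈ mainI P, (u' : ℝ) ≤ u → δ0 / 2 * (P ^ (j - 1) * |(u : ℝ) - u'|) ≤
        |lo (j + 1) (fun i => c1 i s) u - lo (j + 1) (fun i => c1 i s) u'| := by
      intro P hP s hs u hu u' hu' hle
      have hP1 : 1 ≤ P := (le_max_left _ _).trans hP
      have hP0 : 0 < P := by linarith
      have hPT := (le_max_right _ _).trans hP
      have hu1 := (mem_mainI hP0.le).1 hu
      have hu1' := (mem_mainI hP0.le).1 hu'
      have h1 := lo_small (n := j) (k := j) (by omega) le_rfl hT (by positivity : 0 < δ0 / 2) hP1 hPT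
        (fun i hi => hb i (by omega) s hs) (by linarith : (0 : ℝ) ≤ u') hle hu1.2
      have h2 := pow_inc (show 1 ≤ j by omega) hP0.le hu1'.1.le hle
      rw [hspl, hspl, abs_of_nonneg (show (0 : ℝ) ≤ (u : ℝ) - u' by linarith)]
      have e1 : lo j (fun i => c1 i s) u + c1 j s * (u : ℝ) ^ j -
          (lo j (fun i => c1 i s) u' + c1 j s * (u' : ℝ) ^ j) =
          c1 j s * ((u : ℝ) ^ j - (u' : ℝ) ^ j) +
            (lo j (fun i => c1 i s) u - lo j (fun i => c1 i s) u') := by ring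
      rw [e1]
      have h3 := abs_sub_abs_le_abs_sub (c1 j s * ((u : ℝ) ^ j - (u' : ℝ) ^ j))
        (-(lo j (fun i => c1 i s) u - lo j (fun i => c1 i s) u'))
      rw [sub_neg_eq_add, abs_neg, abs_mul] at h3
      have h4 : 0 ≤ P ^ (j - 1) * ((u : ℝ) - u') := mul_nonneg (by positivity) (by linarith)
      rw [abs_of_nonneg (show (0 : ℝ) ≤ (u : ℝ) ^ j - (u' : ℝ) ^ j by linarith)] at h3
      have h5 : δ0 * (P ^ (j - 1) * ((u : ℝ) - u')) ≤ |c1 j s| * ((u : ℝ) ^ j - (u' : ℝ) ^ j) :=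
        mul_le_mul (hlow s hs) h2 h4 (abs_nonneg _)
      linarith
    intro P hP s hs u hu u' hu'
    rcases le_total (u' : ℝ) u with h | h
    · exact main P hP s hs u hu u' hu' h
    · rw [abs_sub_comm, abs_sub_comm (lo _ _ _)]
      exact main P hP s hs u' hu' u hu h
  · have : (0 : ℝ) ≤ ((j + 1 : ℕ) : ℝ) - 1 := by push_cast; linarith [Nat.cast_nonneg (α := ℝ) j]
    positivity
  · have main : ∀ P : ℝ, 1 ≤ P → ∀ s ∈ I, ∀ u ∈ mainI P,
        ∀ u' ∈ mainI P, (u' : ℝ) ≤ u →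
        |lo (j + 1) (fun i => c1 i s) u - lo (j + 1) (fun i => c1 i s) u'| ≤
        (T * (((j + 1 : ℕ) : ℝ) * (((j + 1 : ℕ) : ℝ) - 1)) * 16 ^ (j - 1) + 1) *
          (P ^ (j - 1) * |(u : ℝ) - u'|) := by
      intro P hP1 s hs u hu u' hu' hle
      have hP0 : 0 < P := by linarith
      have hu1 := (mem_mainI hP0.le).1 hu
      have hu1' := (mem_mainI hP0.le).1 hu'
      have h1 := lo_inc (n := j + 1) hT (fun i hi => hb i hi s hs) (by linarith : (0 : ℝ) ≤ u') hle
        hu1.2 (by linarith)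
      have e0 : j + 1 - 2 = j - 1 := by omega
      rw [e0, mul_pow] at h1
      rw [abs_of_nonneg (show (0 : ℝ) ≤ (u : ℝ) - u' by linarith)]
      have h4 : 0 ≤ P ^ (j - 1) * ((u : ℝ) - u') := mul_nonneg (by positivity) (by linarith)
      linarith
    intro P hP s hs u hu u' hu'
    rcases le_total (u' : ℝ) u with h | h
    · exact main P hP s hs u hu u' hu' h
    · rw [abs_sub_comm, abs_sub_comm (u : ℝ)]
      exact main P hP s hs u' hu' u hu h
  · intro P hP s hs u hu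
    have hP0 : 0 < P := by linarith
    have hu1 := (mem_mainI hP0.le).1 hu
    have h1 := lo_abs' hT hP (fun i hi => hb i hi s hs) (by linarith : (0 : ℝ) ≤ u) hu1.2
    have h2 : 0 < P ^ j := by positivity
    show |lo (j + 1) (fun i => c1 i s) (u : ℝ)| ≤ _
    linarith

theorem card_XD {D k j : ℕ} (hD : 1 ≤ D) (q1 : ℕ) (hj : 2 ≤ j) (q2 : ℕ) : ∀ᶠ r : ℕ in atTop,
    ((XX4 k j q1 q2 r).card : ℝ) ≤ (16 * D) ^ q2 * ((XD D k j q1 q2 r).card : ℝ) := by
  obtain ⟨P0, hP0, h⟩ := card_GD hD hj q2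
  filter_upwards [XX_tendsto.eventually_ge_atTop (512 * P0)] with r hr
  have h1 := h (XX r / 512) (by rw [le_div_iff₀ (by norm_num)]; linarith)
  unfold XX4 WX XD GX
  rw [Finset.card_product, Finset.card_product, Finset.card_product, Finset.card_product]
  push_cast
  have h2 : (0 : ℝ) ≤ ((mainI (XX r)).card : ℝ) * ((CT k q1 r).card : ℝ) := by positivity
  have h3 := mul_le_mul_of_nonneg_left h1 h2
  linarith

theorem XD_sub {D k j q1 q2 r : ℕ} : XD D k j q1 q2 r ⊆ XX4 k j q1 q2 r := by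
  intro w hw
  unfold XD at hw
  unfold XX4 WX GX
  rw [Finset.mem_product, Finset.mem_product] at hw ⊢
  exact ⟨hw.1, hw.2.1, (mem_GD.1 hw.2.2).1⟩

theorem avgD {k j q1 q2 : ℕ} (hj : 2 ≤ j) (hjk : j < k) (hq : xb k q1 + yg j q2 ≤ (j : ℝ))
    (g : Polynomial ℝ) {c c1 : ℕ → ℝ → ℝ} (h1 : ∀ i < j + 1, ∀ s, HasDerivAt (c i) (c1 i s) s)
    {a b T δ0 : ℝ} (hab : a ≤ b) (hT : 0 ≤ T) (hδ0 : 0 < δ0)
    (hb : ∀ i < j + 1, ∀ s ∈ Set.Icc a b, |c1 i s| ≤ T)
    (hlow : ∀ s ∈ Set.Icc a b, δ0 ≤ |c1 j s|) : ∃ D : ℕ, 1 ≤ D ∧ ∀ M : ℝ, 1 ≤ M → ∀ δ : ℝ, 0 < δ →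
    ∀ᶠ r : ℕ in atTop,
      ∑ i ∈ XD D k j q1 q2 r ×ˢ XD D k j q1 q2 r, (volume {s | s ∈ Set.Icc a b ∧
        |aT k (fc k j g c s) i.1 - aT k (fc k j g c s) i.2| ≤ M}).toReal ≤
      (XX r) ^ δ * (((XD D k j q1 q2 r).card : ℝ) ^ 2 / (XX r) ^ k) := by
  obtain ⟨D0, cl, hcl, Cu, hCu, P0, hsep⟩ := sep_GD hj (fam_lo hj hT hδ0 hb hlow) q2
  refine ⟨max D0 1, le_max_right _ _, fun M hM δ hδ => ?_⟩
  obtain ⟨D, hD⟩ : ∃ D, D = max D0 1 := ⟨_, rfl⟩
  have hDD0 : D0 ≤ D := by rw [hD]; exact le_max_left _ _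
  have hD1 : 1 ≤ D := by rw [hD]; exact le_max_right _ _
  rw [← hD]
  have haI : a ∈ Set.Icc a b := ⟨le_rfl, hab⟩
  obtain ⟨l, hl⟩ : ∃ l, l = c1 j a := ⟨_, rfl⟩
  have hl0 : 0 < |l| := by
    have := hlow a haI
    rw [hl]
    linarith
  have hlne : l ≠ 0 := abs_pos.1 hl0
  -- the normalised derivative at `a`
  obtain ⟨ψ, hψ⟩ : ∃ ψ : ℕ → ℝ, ψ = fun x : ℕ => (x : ℝ) ^ j + lo j (fun i => c1 i a / l) x := ⟨_, rfl⟩
  have hψg : Good j ψ := by
    rw [hψ]
    exact good_lo (good_pow (by omega : 1 ≤ j)) _ j le_rfl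
  have hψl : ∀ x : ℕ, lo (j + 1) (fun i => c1 i a) (x : ℝ) = l * ψ x := by
    intro x
    rw [hψ]
    show lo (j + 1) (fun i => c1 i a) (x : ℝ) = l * ((x : ℝ) ^ j + lo j (fun i => c1 i a / l) x)
    unfold lo
    rw [sum_range_succ]
    show ∑ i ∈ Finset.range j, c1 i a * (x : ℝ) ^ i + c1 j a * (x : ℝ) ^ j =
      l * ((x : ℝ) ^ j + ∑ i ∈ Finset.range j, c1 i a / l * (x : ℝ) ^ i)
    rw [← hl, mul_add, mul_sum, add_comm]
    congr 1
    refine sum_congr rfl fun i _ => ?_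
    field_simp
  have hvall : ∀ w : List (ℕ × ℕ), val (fun x : ℕ => lo (j + 1) (fun i => c1 i a) (x : ℝ)) (fun _ => 0) w =
      l * val ψ (fun _ => 0) w := by
    intro w
    have e1 : (fun x : ℕ => lo (j + 1) (fun i => c1 i a) (x : ℝ)) = fun x : ℕ => l * ψ x := by
      funext x
      exact hψl x
    rw [e1, val_mul]
  obtain ⟨cm, hcm⟩ : ∃ cm, cm = min cl (cl / |l|) := ⟨_, rfl⟩
  obtain ⟨CM, hCM⟩ : ∃ CM, CM = max Cu (Cu / |l|) := ⟨_, rfl⟩
  have hcm0 : 0 < cm := by rw [hcm]; exact lt_min hcl (by positivity)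
  have hCM0 : 0 < CM := by rw [hCM]; exact lt_of_lt_of_le hCu (le_max_left _ _)
  obtain ⟨T', hT'⟩ : ∃ T', T' = 2 * M / cm + (b - a) * CM / cm + (b - a) + 1 := ⟨_, rfl⟩
  have hba : 0 ≤ b - a := by linarith
  have hT'1 : 1 ≤ T' := by
    rw [hT']
    have : 0 ≤ 2 * M / cm := by positivity
    have : 0 ≤ (b - a) * CM / cm := by positivity
    linarith
  obtain ⟨R, hR⟩ : ∃ R, R = CM / cm + 1 := ⟨_, rfl⟩
  have hR0 : 0 < R := by rw [hR]; positivity
  -- derivative of the difference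
  have hder : ∀ (i : (ℕ × (List (ℕ × ℕ) × List (ℕ × ℕ))) × (ℕ × (List (ℕ × ℕ) × List (ℕ × ℕ)))) (s : ℝ),
      HasDerivAt (fun s => aT k (fc k j g c s) i.1 - aT k (fc k j g c s) i.2)
        (val (fun x : ℕ => lo (j + 1) (fun i => c1 i s) (x : ℝ)) (fun _ => 0) i.1.2.2 -
          val (fun x : ℕ => lo (j + 1) (fun i => c1 i s) (x : ℝ)) (fun _ => 0) i.2.2.2) s := by
    intro i s
    have h2 : ∀ x : ℕ, HasDerivAt (fun s => fc k j g c s x)
        ((fun (s : ℝ) (x : ℕ) => lo (j + 1) (fun i => c1 i s) (x : ℝ)) s x) s := by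
      intro x
      unfold fc lo
      refine HasDerivAt.const_add _ ?_
      refine HasDerivAt.fun_sum fun i hi => ?_
      exact (h1 i (Finset.mem_range.1 hi) s).mul_const _
    unfold aT
    exact ((AeCv_val (F := fun s => fc k j g c s)
      (F' := fun (s : ℝ) (x : ℕ) => lo (j + 1) (fun i => c1 i s) (x : ℝ)) h2 i.1.2.2).const_add _).sub
      ((AeCv_val (F := fun s => fc k j g c s)
      (F' := fun (s : ℝ) (x : ℕ) => lo (j + 1) (fun i => c1 i s) (x : ℝ)) h2 i.2.2.2).const_add _)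
  obtain ⟨E, hE⟩ : ∃ E : ℝ, E = R * ((16 * D) ^ q2) ^ 2 := ⟨_, rfl⟩
  have hE0 : 0 < E := by
    rw [hE]
    have : (0 : ℝ) < D := by exact_mod_cast hD1
    positivity
  have hEev : ∀ᶠ r : ℕ in atTop, E ≤ (XX r) ^ (δ / 2) :=
    ((tendsto_rpow_atTop (by positivity : 0 < δ / 2)).comp XX_tendsto).eventually_ge_atTop _
  filter_upwards [avgXC hj hjk hq hψg (fc k j g c a) hT'1 hM (by positivity : 0 < δ / 2),
    card_XD hD1 q1 hj q2, hEev, XX_tendsto.eventually_ge_atTop (512 * P0)] with r hav hcard hEr hr2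
  have h512 : P0 ≤ XX r / 512 := by
    rw [le_div_iff₀ (by norm_num)]
    linarith
  have hP0 : 0 < XX r := XX_pos r
  -- each pair
  have hpt : ∀ i ∈ XD D k j q1 q2 r ×ˢ XD D k j q1 q2 r, (volume {s | s ∈ Set.Icc a b ∧
        |aT k (fc k j g c s) i.1 - aT k (fc k j g c s) i.2| ≤ M}).toReal ≤
      R * (volume {t | t ∈ Set.Icc (-T') T' ∧
        |(aT k (fc k j g c a) i.1 + t * bC ψ i.1) - (aT k (fc k j g c a) i.2 + t * bC ψ i.2)| ≤ M}).toReal := by
    intro i hi
    obtain ⟨hi1, hi2⟩ := Finset.mem_product.1 hi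
    have hg1 : i.1.2.2 ∈ GD D j q2 (XX r / 512) := by
      unfold XD at hi1
      exact (Finset.mem_product.1 (Finset.mem_product.1 hi1).2).2
    have hg2 : i.2.2.2 ∈ GD D j q2 (XX r / 512) := by
      unfold XD at hi2
      exact (Finset.mem_product.1 (Finset.mem_product.1 hi2).2).2
    have eset : {t : ℝ | t ∈ Set.Icc (-T') T' ∧
        |(aT k (fc k j g c a) i.1 + t * bC ψ i.1) - (aT k (fc k j g c a) i.2 + t * bC ψ i.2)| ≤ M} =
        {t : ℝ | t ∈ Set.Icc (-T') T' ∧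
        |(aT k (fc k j g c a) i.1 - aT k (fc k j g c a) i.2) + t * (bC ψ i.1 - bC ψ i.2)| ≤ M} := by
      ext t
      simp only [Set.mem_ofPred_eq]
      have : (aT k (fc k j g c a) i.1 + t * bC ψ i.1) - (aT k (fc k j g c a) i.2 + t * bC ψ i.2) =
        (aT k (fc k j g c a) i.1 - aT k (fc k j g c a) i.2) + t * (bC ψ i.1 - bC ψ i.2) := by ring
      rw [this]
    rw [eset]
    by_cases hne : i.1.2.2 = i.2.2.2
    · -- the difference is constant
      have hb0 : bC ψ i.1 - bC ψ i.2 = 0 := by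
        unfold bC
        rw [hne, sub_self]
      have hconst : ∀ s, aT k (fc k j g c s) i.1 - aT k (fc k j g c s) i.2 =
          aT k (fc k j g c a) i.1 - aT k (fc k j g c a) i.2 := by
        intro s
        unfold aT
        rw [hne]
        ring
      have e1 : {s | s ∈ Set.Icc a b ∧
        |aT k (fc k j g c s) i.1 - aT k (fc k j g c s) i.2| ≤ M} =
        {s | s ∈ Set.Icc a b ∧ |aT k (fc k j g c a) i.1 - aT k (fc k j g c a) i.2| ≤ M} := by
        ext s
        simp only [Set.mem_ofPred_eq]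
        rw [hconst]
      rw [e1, hb0]
      have hv := vol_const (α := aT k (fc k j g c a) i.1 - aT k (fc k j g c a) i.2) (M := M)
        (T := T') hab (by
          rw [hT']
          have : 0 ≤ 2 * M / cm := by positivity
          have : 0 ≤ (b - a) * CM / cm := by positivity
          linarith)
      refine hv.trans ?_
      have h2 : 1 ≤ R := by
        rw [hR]
        have : 0 ≤ CM / cm := by positivity
        linarith
      exact le_mul_of_one_le_left ENNReal.toReal_nonneg h2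
    · obtain ⟨B, hB, hBs⟩ := hsep D hDD0 (XX r / 512) h512 _ hg1 _ hg2 hne
      have hB0 : 0 < B := by linarith
      have hβ : (val (fun x : ℕ => lo (j + 1) (fun i => c1 i a) (x : ℝ)) (fun _ => 0) i.1.2.2 -
          val (fun x : ℕ => lo (j + 1) (fun i => c1 i a) (x : ℝ)) (fun _ => 0) i.2.2.2) =
          l * (bC ψ i.1 - bC ψ i.2) := by
        rw [hvall, hvall]
        unfold bC
        ring
      obtain ⟨h5, h6⟩ := hBs a haI
      rw [hβ, abs_mul] at h5 h6
      have h7 : cm * B ≤ |bC ψ i.1 - bC ψ i.2| := by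
        have h8 : cm * B ≤ cl / |l| * B := by
          apply mul_le_mul_of_nonneg_right _ hB0.le
          rw [hcm]
          exact min_le_right _ _
        have h9 : cl / |l| * B ≤ |bC ψ i.1 - bC ψ i.2| := by
          rw [div_mul_eq_mul_div, div_le_iff₀ hl0]
          linarith
        exact h8.trans h9
      have h8 : |bC ψ i.1 - bC ψ i.2| ≤ CM * B := by
        have h9 : Cu / |l| * B ≤ CM * B := by
          apply mul_le_mul_of_nonneg_right _ hB0.le
          rw [hCM]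
          exact le_max_right _ _
        have h10 : |bC ψ i.1 - bC ψ i.2| ≤ Cu / |l| * B := by
          rw [div_mul_eq_mul_div, le_div_iff₀ hl0]
          linarith
        exact h10.trans h9
      have hv := vol_cmp (G := fun s => aT k (fc k j g c s) i.1 - aT k (fc k j g c s) i.2)
        (M := M) (c := cm) (C := CM) (B := B) (T := T') (β := bC ψ i.1 - bC ψ i.2)
        hab (by linarith) hcm0 hCM0 hB (fun s _ => hder i s)
        (fun s hs => by
          obtain ⟨h11, h12⟩ := hBs s hs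
          constructor
          · refine le_trans ?_ h11
            apply mul_le_mul_of_nonneg_right _ hB0.le
            rw [hcm]
            exact min_le_left _ _
          · refine h12.trans ?_
            apply mul_le_mul_of_nonneg_right _ hB0.le
            rw [hCM]
            exact le_max_left _ _) h7 h8 (by rw [hT']; linarith)
      refine hv.trans ?_
      apply mul_le_mul_of_nonneg_right _ ENNReal.toReal_nonneg
      rw [hR]
      linarith
  refine (Finset.sum_le_sum hpt).trans ?_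
  rw [← Finset.mul_sum]
  have hsum : ∑ i ∈ XD D k j q1 q2 r ×ˢ XD D k j q1 q2 r, (volume {t | t ∈ Set.Icc (-T') T' ∧
        |(aT k (fc k j g c a) i.1 + t * bC ψ i.1) - (aT k (fc k j g c a) i.2 + t * bC ψ i.2)| ≤ M}).toReal ≤
      ∑ i ∈ XX4 k j q1 q2 r ×ˢ XX4 k j q1 q2 r, (volume {t | t ∈ Set.Icc (-T') T' ∧
        |(aT k (fc k j g c a) i.1 + t * bC ψ i.1) - (aT k (fc k j g c a) i.2 + t * bC ψ i.2)| ≤ M}).toReal :=
    Finset.sum_le_sum_of_subset_of_nonneg (Finset.product_subset_product XD_sub XD_sub)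
      fun _ _ _ => ENNReal.toReal_nonneg
  have h5 := mul_le_mul_of_nonneg_left (hsum.trans hav) hR0.le
  refine h5.trans ?_
  obtain ⟨n, hn⟩ : ∃ n : ℝ, n = ((XD D k j q1 q2 r).card : ℝ) := ⟨_, rfl⟩
  rw [← hn] at hcard ⊢
  have hn0 : 0 ≤ n := by rw [hn]; exact Nat.cast_nonneg _
  have h6 : ((XX4 k j q1 q2 r).card : ℝ) ^ 2 ≤ ((16 * D) ^ q2) ^ 2 * n ^ 2 := by
    rw [← mul_pow]
    exact pow_le_pow_left₀ (Nat.cast_nonneg _) hcard 2
  have hXδ : (XX r) ^ δ = (XX r) ^ (δ / 2) * (XX r) ^ (δ / 2) := by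
    rw [← Real.rpow_add hP0]
    congr 1
    ring
  have hX0 : 0 ≤ (XX r) ^ (δ / 2) := Real.rpow_nonneg hP0.le _
  have hXk : 0 < (XX r) ^ k := by positivity
  calc R * ((XX r) ^ (δ / 2) * (((XX4 k j q1 q2 r).card : ℝ) ^ 2 / (XX r) ^ k))
      ≤ R * ((XX r) ^ (δ / 2) * ((((16 * D) ^ q2) ^ 2 * n ^ 2) / (XX r) ^ k)) := by
        apply mul_le_mul_of_nonneg_left _ hR0.le
        apply mul_le_mul_of_nonneg_left _ hX0
        exact div_le_div_of_nonneg_right h6 hXk.le
    _ = E * (XX r) ^ (δ / 2) * (n ^ 2 / (XX r) ^ k) := by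
        rw [hE]
        ring
    _ ≤ (XX r) ^ (δ / 2) * (XX r) ^ (δ / 2) * (n ^ 2 / (XX r) ^ k) := by
        apply mul_le_mul_of_nonneg_right _ (by positivity)
        exact mul_le_mul_of_nonneg_right hEr hX0
    _ = _ := by rw [hXδ]

theorem card_XD_pos {D k j : ℕ} (hD : 1 ≤ D) (q1 q2 : ℕ) (hj : 2 ≤ j) (hjk : j < k) :
    ∀ᶠ r : ℕ in atTop, 0 < ((XD D k j q1 q2 r).card : ℝ) := by
  filter_upwards [totX_ev q1 q2 hj hjk, card_XD (k := k) hD q1 hj q2] with r hr hc
  have h1 : 0 < ((XX4 k j q1 q2 r).card : ℝ) := by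
    unfold XX4 WX
    rw [Finset.card_product, Finset.card_product]
    push_cast
    exact mul_pos hr.1 (mul_pos hr.2.1 hr.2.2)
  by_contra hcon
  have h2 : ((XD D k j q1 q2 r).card : ℝ) = 0 := by
    have : (0 : ℝ) ≤ ((XD D k j q1 q2 r).card : ℝ) := Nat.cast_nonneg _
    linarith
  rw [h2, mul_zero] at hc
  linarith

theorem aeCv {k j q1 q2 : ℕ} (hj : 2 ≤ j) (hjk : j < k) (hq : xb k q1 + yg j q2 ≤ (j : ℝ))
    (g : Polynomial ℝ) {c c1 : ℕ → ℝ → ℝ} (h1 : ∀ i < j + 1, ∀ s, HasDerivAt (c i) (c1 i s) s)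
    {a b T δ0 : ℝ} (hab : a ≤ b) (hT : 0 ≤ T) (hδ0 : 0 < δ0)
    (hb : ∀ i < j + 1, ∀ s ∈ Set.Icc a b, |c1 i s| ≤ T)
    (hlow : ∀ s ∈ Set.Icc a b, δ0 ≤ |c1 j s|) {ε : ℝ} (hε : 0 < ε) :
    ∃ D : ℕ, 1 ≤ D ∧ ∀ᵐ s : ℝ, s ∈ Set.Icc a b → ∀ M : ℝ, ∀ᶠ r : ℕ in atTop,
      pairs (XD D k j q1 q2 r) (fun p =>
        |aT k (fc k j g c s) p.1 - aT k (fc k j g c s) p.2| ≤ M) ≤
      (XX r) ^ ε * ((XD D k j q1 q2 r).card : ℝ) ^ 2 / (XX r) ^ k := by
  obtain ⟨D, hD, hav⟩ := avgD hj hjk hq g h1 hab hT hδ0 hb hlow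
  refine ⟨D, hD, ?_⟩
  have h2 : ∀ n : ℕ, ∀ᵐ s : ℝ, s ∈ Set.Icc a b → ∀ᶠ r : ℕ in atTop,
      cn (XD D k j q1 q2 r ×ˢ XD D k j q1 q2 r) (fun i =>
        |aT k (fc k j g c s) i.1 - aT k (fc k j g c s) i.2| ≤ (n : ℝ) + 1) ≤
      (XX r) ^ (2 * (ε / 2)) * (((XD D k j q1 q2 r).card : ℝ) ^ 2 / (XX r) ^ k) := by
    intro n
    have hn : (0 : ℝ) ≤ n := Nat.cast_nonneg n
    refine ae_of_avg (S := fun r => XD D k j q1 q2 r ×ˢ XD D k j q1 q2 r)
      (G := fun i s => aT k (fc k j g c s) i.1 - aT k (fc k j g c s) i.2)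
      (by linarith) ?_ ?_ (hav ((n : ℝ) + 1) (by linarith) (ε / 2) (by linarith))
    · filter_upwards [card_XD_pos hD q1 q2 hj hjk] with r hr
      have hP0 : 0 < XX r := XX_pos r
      positivity
    · intro r i _ s _
      have h3 : Continuous fun s => aT k (fc k j g c s) i.1 - aT k (fc k j g c s) i.2 := by
        have hc : ∀ i < j + 1, Continuous (c i) := fun i hi =>
          continuous_iff_continuousAt.2 fun s => (h1 i hi s).continuousAt
        have hfc : ∀ x : ℕ, Continuous fun s => fc k j g c s x := by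
          intro x
          unfold fc lo
          refine continuous_const.add (continuous_finsetSum _ fun i hi => ?_)
          exact (hc i (Finset.mem_range.1 hi)).mul continuous_const
        have hval : ∀ l : List (ℕ × ℕ), Continuous fun s => val (fc k j g c s) (fun _ => 0) l := by
          intro l
          induction l with
          | nil =>
            have e : (fun s : ℝ => val (fc k j g c s) (fun _ => 0) []) = fun _ => (0 : ℝ) := by
              funext b
              exact val_nil _ _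
            rw [e]
            exact continuous_const
          | cons u l ih =>
            have e : (fun s : ℝ => val (fc k j g c s) (fun _ => 0) (u :: l)) =
                fun s : ℝ => fc k j g c s u.1 + 0 + val (fc k j g c s) (fun _ => 0) l := by
              funext b
              exact val_cons _ _ _ _
            rw [e]
            exact ((hfc u.1).add continuous_const).add ih
        unfold aT
        exact (continuous_const.add (hval _)).sub (continuous_const.add (hval _))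
      exact h3.continuousAt.continuousWithinAt
  rw [← ae_all_iff] at h2
  filter_upwards [h2] with s hs hsI M
  obtain ⟨n, hn⟩ := exists_nat_ge M
  filter_upwards [hs n hsI] with r hr
  rw [pairs_eq_cn]
  refine le_trans (cn_mono fun w _ hw => hw.trans (by linarith)) (hr.trans (le_of_eq ?_))
  rw [show 2 * (ε / 2) = ε by ring, ← mul_div_assoc]

end XWar
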