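import Pool.Agent.XWar.AeCv
import Pool.Agent.XWar.AvgE
import Pool.Agent.FWar.DimC

/-!
# XWar.AeE: few near coincidences on a curve of functions, degree `j ≤ k`

Copies of `avgD` (`Pool/Agent/XWar/AeCv.lean`) and `dimX` (`Pool/Agent/XWar/DimX.lean`) for a general family of
functions `F s` whose derivative in `s` is a polynomial of degree `j ≤ k` with nonvanishing leading coefficient.
-/

namespace XWar

open TWar MWg FWar YWar Finset MeasureTheory Filter Topology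

private theorem AeE_val {F F' : ℝ → ℕ → ℝ} {s : ℝ} (hF : ∀ x, HasDerivAt (fun t => F t x) (F' s x) s)
    (l : List (ℕ × ℕ)) :
    HasDerivAt (fun t => val (F t) (fun _ => 0) l) (val (F' s) (fun _ => 0) l) s := by
  induction l with
  | nil =>
    have e : (fun t : ℝ => val (F t) (fun _ => 0) []) = fun _ => (0 : ℝ) := by
      funext b
      exact val_nil _ _
    rw [e, val_nil]
    exact hasDerivAt_const _ _
  | cons u l ih =>
    have e : (fun t : ℝ => val (F t) (fun _ => 0) (u :: l)) =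
        fun t : ℝ => F t u.1 + 0 + val (F t) (fun _ => 0) l := by
      funext b
      exact val_cons _ _ _ _
    rw [e, val_cons]
    have h := HasDerivAt.fun_add ((hF u.1).add_const (0 : ℝ)) ih
    rw [add_zero]
    exact h

theorem avgE {k j q1 q2 : ℕ} (hj : 2 ≤ j) (hjk : j ≤ k) (hq : xb k q1 + yg j q2 ≤ (j : ℝ))
    {F : ℝ → ℕ → ℝ} {c1 : ℕ → ℝ → ℝ}
    (h1 : ∀ (x : ℕ) (s : ℝ), HasDerivAt (fun s => F s x) (lo (j + 1) (fun i => c1 i s) (x : ℝ)) s)
    {a b T δ0 : ℝ} (hab : a ≤ b) (hT : 0 ≤ T) (hδ0 : 0 < δ0)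
    (hb : ∀ i < j + 1, ∀ s ∈ Set.Icc a b, |c1 i s| ≤ T)
    (hlow : ∀ s ∈ Set.Icc a b, δ0 ≤ |c1 j s|) : ∃ D : ℕ, 1 ≤ D ∧ ∀ M : ℝ, 1 ≤ M → ∀ δ : ℝ, 0 < δ →
    ∀ᶠ r : ℕ in atTop,
      ∑ i ∈ XD D k j q1 q2 r ×ˢ XD D k j q1 q2 r, (volume {s | s ∈ Set.Icc a b ∧
        |aT k (F s) i.1 - aT k (F s) i.2| ≤ M}).toReal ≤
      (XX r) ^ δ * (((XD D k j q1 q2 r).card : ℝ) ^ 2 / (XX r) ^ k) := by
  obtain ⟨D0, cl, hcl, Cu, hCu, P0, hsep⟩ := sep_GD hj (fam_lo hj hT hδ0 hb hlow) q2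
  refine ⟨max D0 1, le_max_right _ _, fun M hM δ hδ => ?_⟩
  obtain ⟨D, hD⟩ : ∃ D, D = max D0 1 := ⟨_, rfl⟩
  have hDD0 : D0 ≤ D := by rw [hD]; exact le_max_left _ _
  have hD1 : 1 ≤ D := by rw [hD]; exact le_max_right _ _
  rw [← hD]
  have haI : a ∈ Set.Icc a b := ⟨le_rfl, hab⟩
  obtain ⟨l, hl⟩ : ∃ l, l = c1 j a := ⟨_, rfl⟩
  have hl0 : 0 < |l| := by
    have := hlow a haI
    rw [hl]
    linarith
  have hlne : l ≠ 0 := abs_pos.1 hl0
  -- the normalised derivative at `a`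
  obtain ⟨ψ, hψ⟩ : ∃ ψ : ℕ → ℝ, ψ = fun x : ℕ => (x : ℝ) ^ j + lo j (fun i => c1 i a / l) x := ⟨_, rfl⟩
  have hψg : Good j ψ := by
    rw [hψ]
    exact good_lo (good_pow (by omega : 1 ≤ j)) _ j le_rfl
  have hψl : ∀ x : ℕ, lo (j + 1) (fun i => c1 i a) (x : ℝ) = l * ψ x := by
    intro x
    rw [hψ]
    show lo (j + 1) (fun i => c1 i a) (x : ℝ) = l * ((x : ℝ) ^ j + lo j (fun i => c1 i a / l) x)
    unfold lo
    rw [sum_range_succ]
    show ∑ i ∈ Finset.range j, c1 i a * (x : ℝ) ^ i + c1 j a * (x : ℝ) ^ j =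
      l * ((x : ℝ) ^ j + ∑ i ∈ Finset.range j, c1 i a / l * (x : ℝ) ^ i)
    rw [← hl, mul_add, mul_sum, add_comm]
    congr 1
    refine sum_congr rfl fun i _ => ?_
    field_simp
  have hvall : ∀ w : List (ℕ × ℕ), val (fun x : ℕ => lo (j + 1) (fun i => c1 i a) (x : ℝ)) (fun _ => 0) w =
      l * val ψ (fun _ => 0) w := by
    intro w
    have e1 : (fun x : ℕ => lo (j + 1) (fun i => c1 i a) (x : ℝ)) = fun x : ℕ => l * ψ x := by
      funext x
      exact hψl x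
    rw [e1, val_mul]
  obtain ⟨cm, hcm⟩ : ∃ cm, cm = min cl (cl / |l|) := ⟨_, rfl⟩
  obtain ⟨CM, hCM⟩ : ∃ CM, CM = max Cu (Cu / |l|) := ⟨_, rfl⟩
  have hcm0 : 0 < cm := by rw [hcm]; exact lt_min hcl (by positivity)
  have hCM0 : 0 < CM := by rw [hCM]; exact lt_of_lt_of_le hCu (le_max_left _ _)
  obtain ⟨T', hT'⟩ : ∃ T', T' = 2 * M / cm + (b - a) * CM / cm + (b - a) + 1 := ⟨_, rfl⟩
  have hba : 0 ≤ b - a := by linarith
  have hT'1 : 1 ≤ T' := by
    rw [hT']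
    have : 0 ≤ 2 * M / cm := by positivity
    have : 0 ≤ (b - a) * CM / cm := by positivity
    linarith
  obtain ⟨R, hR⟩ : ∃ R, R = CM / cm + 1 := ⟨_, rfl⟩
  have hR0 : 0 < R := by rw [hR]; positivity
  -- derivative of the difference
  have hder : ∀ (i : (ℕ × (List (ℕ × ℕ) × List (ℕ × ℕ))) × (ℕ × (List (ℕ × ℕ) × List (ℕ × ℕ)))) (s : ℝ),
      HasDerivAt (fun s => aT k (F s) i.1 - aT k (F s) i.2)
        (val (fun x : ℕ => lo (j + 1) (fun i => c1 i s) (x : ℝ)) (fun _ => 0) i.1.2.2 -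
          val (fun x : ℕ => lo (j + 1) (fun i => c1 i s) (x : ℝ)) (fun _ => 0) i.2.2.2) s := by
    intro i s
    have h2 : ∀ x : ℕ, HasDerivAt (fun s => F s x)
        ((fun (s : ℝ) (x : ℕ) => lo (j + 1) (fun i => c1 i s) (x : ℝ)) s x) s := fun x => h1 x s
    unfold aT
    exact ((AeE_val (F := F)
      (F' := fun (s : ℝ) (x : ℕ) => lo (j + 1) (fun i => c1 i s) (x : ℝ)) h2 i.1.2.2).const_add _).sub
      ((AeE_val (F := F)
      (F' := fun (s : ℝ) (x : ℕ) => lo (j + 1) (fun i => c1 i s) (x : ℝ)) h2 i.2.2.2).const_add _)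
  obtain ⟨E, hE⟩ : ∃ E : ℝ, E = R * ((16 * D) ^ q2) ^ 2 := ⟨_, rfl⟩
  have hE0 : 0 < E := by
    rw [hE]
    have : (0 : ℝ) < D := by exact_mod_cast hD1
    positivity
  have hEev : ∀ᶠ r : ℕ in atTop, E ≤ (XX r) ^ (δ / 2) :=
    ((tendsto_rpow_atTop (by positivity : 0 < δ / 2)).comp XX_tendsto).eventually_ge_atTop _
  filter_upwards [avgXE hj hjk hq hψg (F a) hT'1 hM (by positivity : 0 < δ / 2),
    card_XD hD1 q1 hj q2, hEev, XX_tendsto.eventually_ge_atTop (512 * P0)] with r hav hcard hEr hr2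
  have h512 : P0 ≤ XX r / 512 := by
    rw [le_div_iff₀ (by norm_num)]
    linarith
  have hP0 : 0 < XX r := XX_pos r
  -- each pair
  have hpt : ∀ i ∈ XD D k j q1 q2 r ×ˢ XD D k j q1 q2 r, (volume {s | s ∈ Set.Icc a b ∧
        |aT k (F s) i.1 - aT k (F s) i.2| ≤ M}).toReal ≤
      R * (volume {t | t ∈ Set.Icc (-T') T' ∧
        |(aT k (F a) i.1 + t * bC ψ i.1) - (aT k (F a) i.2 + t * bC ψ i.2)| ≤ M}).toReal := by
    intro i hi
    obtain ⟨hi1, hi2⟩ := Finset.mem_product.1 hi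
    have hg1 : i.1.2.2 ∈ GD D j q2 (XX r / 512) := by
      unfold XD at hi1
      exact (Finset.mem_product.1 (Finset.mem_product.1 hi1).2).2
    have hg2 : i.2.2.2 ∈ GD D j q2 (XX r / 512) := by
      unfold XD at hi2
      exact (Finset.mem_product.1 (Finset.mem_product.1 hi2).2).2
    have eset : {t : ℝ | t ∈ Set.Icc (-T') T' ∧
        |(aT k (F a) i.1 + t * bC ψ i.1) - (aT k (F a) i.2 + t * bC ψ i.2)| ≤ M} =
        {t : ℝ | t ∈ Set.Icc (-T') T' ∧
        |(aT k (F a) i.1 - aT k (F a) i.2) + t * (bC ψ i.1 - bC ψ i.2)| ≤ M} := by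
      ext t
      simp only [Set.mem_ofPred_eq]
      have : (aT k (F a) i.1 + t * bC ψ i.1) - (aT k (F a) i.2 + t * bC ψ i.2) =
        (aT k (F a) i.1 - aT k (F a) i.2) + t * (bC ψ i.1 - bC ψ i.2) := by ring
      rw [this]
    rw [eset]
    by_cases hne : i.1.2.2 = i.2.2.2
    · -- the difference is constant
      have hb0 : bC ψ i.1 - bC ψ i.2 = 0 := by
        unfold bC
        rw [hne, sub_self]
      have hconst : ∀ s, aT k (F s) i.1 - aT k (F s) i.2 =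
          aT k (F a) i.1 - aT k (F a) i.2 := by
        intro s
        unfold aT
        rw [hne]
        ring
      have e1 : {s | s ∈ Set.Icc a b ∧
        |aT k (F s) i.1 - aT k (F s) i.2| ≤ M} =
        {s | s ∈ Set.Icc a b ∧ |aT k (F a) i.1 - aT k (F a) i.2| ≤ M} := by
        ext s
        simp only [Set.mem_ofPred_eq]
        rw [hconst]
      rw [e1, hb0]
      have hv := vol_const (α := aT k (F a) i.1 - aT k (F a) i.2) (M := M)
        (T := T') hab (by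
          rw [hT']
          have : 0 ≤ 2 * M / cm := by positivity
          have : 0 ≤ (b - a) * CM / cm := by positivity
          linarith)
      refine hv.trans ?_
      have h2 : 1 ≤ R := by
        rw [hR]
        have : 0 ≤ CM / cm := by positivity
        linarith
      exact le_mul_of_one_le_left ENNReal.toReal_nonneg h2
    · obtain ⟨B, hB, hBs⟩ := hsep D hDD0 (XX r / 512) h512 _ hg1 _ hg2 hne
      have hB0 : 0 < B := by linarith
      have hβ : (val (fun x : ℕ => lo (j + 1) (fun i => c1 i a) (x : ℝ)) (fun _ => 0) i.1.2.2 -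
          val (fun x : ℕ => lo (j + 1) (fun i => c1 i a) (x : ℝ)) (fun _ => 0) i.2.2.2) =
          l * (bC ψ i.1 - bC ψ i.2) := by
        rw [hvall, hvall]
        unfold bC
        ring
      obtain ⟨h5, h6⟩ := hBs a haI
      rw [hβ, abs_mul] at h5 h6
      have h7 : cm * B ≤ |bC ψ i.1 - bC ψ i.2| := by
        have h8 : cm * B ≤ cl / |l| * B := by
          apply mul_le_mul_of_nonneg_right _ hB0.le
          rw [hcm]
          exact min_le_right _ _
        have h9 : cl / |l| * B ≤ |bC ψ i.1 - bC ψ i.2| := by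
          rw [div_mul_eq_mul_div, div_le_iff₀ hl0]
          linarith
        exact h8.trans h9
      have h8 : |bC ψ i.1 - bC ψ i.2| ≤ CM * B := by
        have h9 : Cu / |l| * B ≤ CM * B := by
          apply mul_le_mul_of_nonneg_right _ hB0.le
          rw [hCM]
          exact le_max_right _ _
        have h10 : |bC ψ i.1 - bC ψ i.2| ≤ Cu / |l| * B := by
          rw [div_mul_eq_mul_div, le_div_iff₀ hl0]
          linarith
        exact h10.trans h9
      have hv := vol_cmp (G := fun s => aT k (F s) i.1 - aT k (F s) i.2)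
        (M := M) (c := cm) (C := CM) (B := B) (T := T') (β := bC ψ i.1 - bC ψ i.2)
        hab (by linarith) hcm0 hCM0 hB (fun s _ => hder i s)
        (fun s hs => by
          obtain ⟨h11, h12⟩ := hBs s hs
          constructor
          · refine le_trans ?_ h11
            apply mul_le_mul_of_nonneg_right _ hB0.le
            rw [hcm]
            exact min_le_left _ _
          · refine h12.trans ?_
            apply mul_le_mul_of_nonneg_right _ hB0.le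
            rw [hCM]
            exact le_max_left _ _) h7 h8 (by rw [hT']; linarith)
      refine hv.trans ?_
      apply mul_le_mul_of_nonneg_right _ ENNReal.toReal_nonneg
      rw [hR]
      linarith
  refine (Finset.sum_le_sum hpt).trans ?_
  rw [← Finset.mul_sum]
  have hsum : ∑ i ∈ XD D k j q1 q2 r ×ˢ XD D k j q1 q2 r, (volume {t | t ∈ Set.Icc (-T') T' ∧
        |(aT k (F a) i.1 + t * bC ψ i.1) - (aT k (F a) i.2 + t * bC ψ i.2)| ≤ M}).toReal ≤
      ∑ i ∈ XX4 k j q1 q2 r ×ˢ XX4 k j q1 q2 r, (volume {t | t ∈ Set.Icc (-T') T' ∧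
        |(aT k (F a) i.1 + t * bC ψ i.1) - (aT k (F a) i.2 + t * bC ψ i.2)| ≤ M}).toReal :=
    Finset.sum_le_sum_of_subset_of_nonneg (Finset.product_subset_product XD_sub XD_sub)
      fun _ _ _ => ENNReal.toReal_nonneg
  have h5 := mul_le_mul_of_nonneg_left (hsum.trans hav) hR0.le
  refine h5.trans ?_
  obtain ⟨n, hn⟩ : ∃ n : ℝ, n = ((XD D k j q1 q2 r).card : ℝ) := ⟨_, rfl⟩
  rw [← hn] at hcard ⊢
  have hn0 : 0 ≤ n := by rw [hn]; exact Nat.cast_nonneg _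
  have h6 : ((XX4 k j q1 q2 r).card : ℝ) ^ 2 ≤ ((16 * D) ^ q2) ^ 2 * n ^ 2 := by
    rw [← mul_pow]
    exact pow_le_pow_left₀ (Nat.cast_nonneg _) hcard 2
  have hXδ : (XX r) ^ δ = (XX r) ^ (δ / 2) * (XX r) ^ (δ / 2) := by
    rw [← Real.rpow_add hP0]
    congr 1
    ring
  have hX0 : 0 ≤ (XX r) ^ (δ / 2) := Real.rpow_nonneg hP0.le _
  have hXk : 0 < (XX r) ^ k := by positivity
  calc R * ((XX r) ^ (δ / 2) * (((XX4 k j q1 q2 r).card : ℝ) ^ 2 / (XX r) ^ k))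
      ≤ R * ((XX r) ^ (δ / 2) * ((((16 * D) ^ q2) ^ 2 * n ^ 2) / (XX r) ^ k)) := by
        apply mul_le_mul_of_nonneg_left _ hR0.le
        apply mul_le_mul_of_nonneg_left _ hX0
        exact div_le_div_of_nonneg_right h6 hXk.le
    _ = E * (XX r) ^ (δ / 2) * (n ^ 2 / (XX r) ^ k) := by
        rw [hE]
        ring
    _ ≤ (XX r) ^ (δ / 2) * (XX r) ^ (δ / 2) * (n ^ 2 / (XX r) ^ k) := by
        apply mul_le_mul_of_nonneg_right _ (by positivity)
        exact mul_le_mul_of_nonneg_right hEr hX0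
    _ = _ := by rw [hXδ]

theorem totE_ev {k j : ℕ} (q1 q2 : ℕ) (hj : 2 ≤ j) (hjk : j ≤ k) : ∀ᶠ r : ℕ in atTop,
    0 < ((mainI (XX r)).card : ℝ) ∧ 0 < ((CT k q1 r).card : ℝ) ∧ 0 < ((GX j q2 r).card : ℝ) := by
  obtain ⟨P1, h1⟩ := tot_pos (n := k) (J := J0) (by omega) ⟨0, fun P _ => ⟨0, by simp [J0]⟩⟩ q1
  obtain ⟨P2, h2⟩ := tot_pos (n := j) (J := J0) (by omega) ⟨0, fun P _ => ⟨0, by simp [J0]⟩⟩ q2
  filter_upwards [((nxt_tendsto (by omega : 2 ≤ k)).comp XX_tendsto).eventually_ge_atTop P1,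
    XX_tendsto.eventually_ge_atTop (512 * P2)] with r hr1 hr2
  refine ⟨?_, h1 _ hr1, h2 _ ?_⟩
  · have := card_mainI_ge (XX_ge_one r)
    have := XX_pos r
    linarith
  · rw [le_div_iff₀ (by norm_num)]
    linarith

theorem card_XE_pos {D k j : ℕ} (hD : 1 ≤ D) (q1 q2 : ℕ) (hj : 2 ≤ j) (hjk : j ≤ k) :
    ∀ᶠ r : ℕ in atTop, 0 < ((XD D k j q1 q2 r).card : ℝ) := by
  filter_upwards [totE_ev q1 q2 hj hjk, card_XD (k := k) hD q1 hj q2] with r hr hc
  have h1 : 0 < ((XX4 k j q1 q2 r).card : ℝ) := by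
    unfold XX4 WX
    rw [Finset.card_product, Finset.card_product]
    push_cast
    exact mul_pos hr.1 (mul_pos hr.2.1 hr.2.2)
  by_contra hcon
  have h2 : ((XD D k j q1 q2 r).card : ℝ) = 0 := by
    have : (0 : ℝ) ≤ ((XD D k j q1 q2 r).card : ℝ) := Nat.cast_nonneg _
    linarith
  rw [h2, mul_zero] at hc
  linarith

/-- mean value inequality -/
private theorem DimE_mv {g g' : ℝ → ℝ} {a b L : ℝ}
    (hg : ∀ x, HasDerivAt g (g' x) x) (hb : ∀ x ∈ Set.Icc a b, |g' x| ≤ L) :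
    ∀ x ∈ Set.Icc a b, ∀ y ∈ Set.Icc a b, |g x - g y| ≤ L * |x - y| := by
  intro x hx y hy
  have h := Convex.norm_image_sub_le_of_norm_hasDerivWithin_le (f := g) (f' := g')
    (s := Set.Icc a b) (C := L) (x := y) (y := x)
    (fun z _ => (hg z).hasDerivWithinAt) (fun z hz => by
      rw [Real.norm_eq_abs]
      exact hb z hz) (convex_Icc a b) hy hx
  rwa [Real.norm_eq_abs, Real.norm_eq_abs] at h

private theorem DimE_der {k j : ℕ} {F : ℝ → ℕ → ℝ} {c1 : ℕ → ℝ → ℝ}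
    (h1 : ∀ (x : ℕ) (s : ℝ), HasDerivAt (fun s => F s x) (lo (j + 1) (fun i => c1 i s) (x : ℝ)) s)
    (i : (ℕ × (List (ℕ × ℕ) × List (ℕ × ℕ))) × (ℕ × (List (ℕ × ℕ) × List (ℕ × ℕ)))) (s : ℝ) :
    HasDerivAt (fun s => aT k (F s) i.1 - aT k (F s) i.2)
      (val (fun x : ℕ => lo (j + 1) (fun i => c1 i s) (x : ℝ)) (fun _ => 0) i.1.2.2 -
        val (fun x : ℕ => lo (j + 1) (fun i => c1 i s) (x : ℝ)) (fun _ => 0) i.2.2.2) s := by
  have h2 : ∀ x : ℕ, HasDerivAt (fun s => F s x)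
      ((fun (s : ℝ) (x : ℕ) => lo (j + 1) (fun i => c1 i s) (x : ℝ)) s x) s := fun x => h1 x s
  unfold aT
  exact ((AeE_val (F := F)
    (F' := fun (s : ℝ) (x : ℕ) => lo (j + 1) (fun i => c1 i s) (x : ℝ)) h2 i.1.2.2).const_add _).sub
    ((AeE_val (F := F)
    (F' := fun (s : ℝ) (x : ℕ) => lo (j + 1) (fun i => c1 i s) (x : ℝ)) h2 i.2.2.2).const_add _)

theorem dimE {k j q1 q2 : ℕ} (hj : 2 ≤ j) (hjk : j ≤ k) (hq : xb k q1 + yg j q2 ≤ (j : ℝ))
    {F : ℝ → ℕ → ℝ} {c1 : ℕ → ℝ → ℝ}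
    (h1 : ∀ (x : ℕ) (s : ℝ), HasDerivAt (fun s => F s x) (lo (j + 1) (fun i => c1 i s) (x : ℝ)) s)
    {a b T δ0 : ℝ} (hab : a ≤ b) (hT : 0 ≤ T) (hδ0 : 0 < δ0)
    (hb : ∀ i < j + 1, ∀ s ∈ Set.Icc a b, |c1 i s| ≤ T)
    (hlow : ∀ s ∈ Set.Icc a b, δ0 ≤ |c1 j s|) {ε : ℝ} (hε : 0 < ε) (hε1 : ε ≤ 1) :
    ∃ D : ℕ, 1 ≤ D ∧ dimH {s : ℝ | s ∈ Set.Icc a b ∧ ∃ M : ℝ, ∃ᶠ r : ℕ in atTop,
      (XX r) ^ ε * ((XD D k j q1 q2 r).card : ℝ) ^ 2 / (XX r) ^ k <
      pairs (XD D k j q1 q2 r) (fun p =>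
        |aT k (F s) p.1 - aT k (F s) p.2| ≤ M)} ≤
      ENNReal.ofReal (1 - ε / (4 * (k + 1))) := by
  have hkR : (2 : ℝ) ≤ k := by exact_mod_cast (by omega : 2 ≤ k)
  obtain ⟨D, hD, hav⟩ := avgE hj hjk hq h1 hab hT hδ0 hb hlow
  obtain ⟨Cv, hCv, Pv, hval⟩ := fam_val hj (fam_lo hj hT hδ0 hb hlow) q2
  refine ⟨D, hD, ?_⟩
  obtain ⟨E, hE⟩ : ∃ E : ℕ → Set ℝ, E = fun n : ℕ =>
      {s : ℝ | s ∈ Set.Icc a b ∧ ∃ᶠ r : ℕ in atTop,
      (XX r) ^ (2 * (ε / 2)) * (((XD D k j q1 q2 r).card : ℝ) ^ 2 / (XX r) ^ k) <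
      cn (XD D k j q1 q2 r ×ˢ XD D k j q1 q2 r) (fun i =>
        |aT k (F s) i.1 - aT k (F s) i.2| ≤ (n : ℝ))} := ⟨_, rfl⟩
  have hE1 : ∀ n : ℕ, dimH (E n) ≤ ENNReal.ofReal (1 - ε / (4 * (k + 1))) := by
    intro n
    have hn : (0 : ℝ) ≤ n := Nat.cast_nonneg n
    have h3 := dim_of_avg
      (S := fun r => XD D k j q1 q2 r ×ˢ XD D k j q1 q2 r)
      (G := fun i s => aT k (F s) i.1 - aT k (F s) i.2)
      (a := a) (b := b) (M := (n : ℝ)) (δ := ε / 2) (Λ := ((k + 1 : ℕ) : ℝ))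
      (Y := fun r => ((XD D k j q1 q2 r).card : ℝ) ^ 2 / (XX r) ^ k)
      hab (by linarith) (by push_cast; linarith)
      (by
        filter_upwards [card_XE_pos hD q1 q2 hj hjk] with r hr
        have hP0 : 0 < XX r := XX_pos r
        positivity)
      (by
        intro r i _ x _
        exact (DimE_der h1 i x).continuousAt.continuousWithinAt)
      (by
        filter_upwards [XX_tendsto.eventually_ge_atTop (512 * Pv),
          XX_tendsto.eventually_ge_atTop (2 * Cv)] with r hr1 hr2 i hi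
        have hP0 := XX_pos r
        have hP1 : 1 ≤ XX r := XX_ge_one r
        rw [Real.rpow_natCast]
        refine DimE_mv (fun x => DimE_der h1 i x) ?_
        intro s hs
        obtain ⟨hi1, hi2⟩ := Finset.mem_product.1 hi
        have hg1 : i.1.2.2 ∈ chain j J0 q2 (XX r / 512) := by
          unfold XD at hi1
          exact (mem_GD.1 (Finset.mem_product.1 (Finset.mem_product.1 hi1).2).2).1
        have hg2 : i.2.2.2 ∈ chain j J0 q2 (XX r / 512) := by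
          unfold XD at hi2
          exact (mem_GD.1 (Finset.mem_product.1 (Finset.mem_product.1 hi2).2).2).1
        have h512 : Pv ≤ XX r / 512 := by
          rw [le_div_iff₀ (by norm_num)]
          linarith
        have h3 := hval (XX r / 512) h512 s hs _ hg1
        have h4 := hval (XX r / 512) h512 s hs _ hg2
        have h5 : (XX r / 512) ^ j ≤ (XX r) ^ k := by
          have h6 : (XX r / 512) ^ j ≤ (XX r) ^ j :=
            pow_le_pow_left₀ (by positivity) (div_le_self hP0.le (by norm_num)) j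
          exact h6.trans (pow_le_pow_right₀ hP1 (by omega))
        have h6 := mul_le_mul_of_nonneg_left h5 hCv.le
        have h7 : (XX r) ^ (k + 1) = XX r * (XX r) ^ k := pow_succ' _ _
        have h8 : 2 * Cv * (XX r) ^ k ≤ XX r * (XX r) ^ k :=
          mul_le_mul_of_nonneg_right hr2 (by positivity)
        have h9 := abs_sub (val (fun x : ℕ => lo (j + 1) (fun i => c1 i s) (x : ℝ)) (fun _ => 0) i.1.2.2)
          (val (fun x : ℕ => lo (j + 1) (fun i => c1 i s) (x : ℝ)) (fun _ => 0) i.2.2.2)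
        rw [h7]
        linarith)
      (hav ((n : ℝ) + 1) (by linarith) (ε / 2) (by linarith))
    have e1 : 1 - ε / 2 / (2 * ((k + 1 : ℕ) : ℝ)) = 1 - ε / (4 * (k + 1)) := by
      have : (k : ℝ) + 1 ≠ 0 := by linarith
      push_cast
      field_simp
      ring
    rw [e1] at h3
    rw [hE]
    exact h3
  have hE2 : {s : ℝ | s ∈ Set.Icc a b ∧ ∃ M : ℝ, ∃ᶠ r : ℕ in atTop,
      (XX r) ^ ε * ((XD D k j q1 q2 r).card : ℝ) ^ 2 / (XX r) ^ k <
      pairs (XD D k j q1 q2 r) (fun p =>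
        |aT k (F s) p.1 - aT k (F s) p.2| ≤ M)} ⊆ ⋃ n, E n := by
    rintro t ⟨ht, M, hM⟩
    obtain ⟨n, hn⟩ := exists_nat_ge M
    rw [Set.mem_iUnion]
    refine ⟨n, ?_⟩
    rw [hE]
    refine ⟨ht, ?_⟩
    refine hM.mono fun r hr => ?_
    rw [show 2 * (ε / 2) = ε by ring, ← mul_div_assoc]
    refine hr.trans_le ?_
    rw [pairs_eq_cn]
    exact cn_mono fun w _ hw => hw.trans hn
  refine (dimH_mono hE2).trans ?_
  rw [dimH_iUnion]
  exact iSup_le hE1

end XWar
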