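import Pool.Agent.XWar.AvgS
import Pool.Agent.TWar.AeT
import Pool.Agent.FWar.CountK

/-!
# XWar.AeS: few near coincidences for almost every `t`, all the coefficients of `x, ..., x^(n+1)` random

The words are `(u, (c, g))`: `u` and the chain `c` are plain letters, `g` consists of `n + 1` letters of the
polynomial of the order `P` (`FWar.Wk`).

PROOF. `count_S`: `lemA` for the plain chains and `countC` for the letters of the polynomial (exponents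
`1, ..., n + 1`). `avgS`: `avg_multi` with `2^I` of the order `P^(n+1)`, as `P^(xb k q1) ≤ P^(n+1)`. `aeS`:
`ae_of_avg_pi`.
-/

namespace XWar

open TWar MWg FWar Finset MeasureTheory Filter Topology

/-- The words without the first letter. -/
noncomputable def WS (k n q1 r : ℕ) : Finset (List (ℕ × ℕ) × (Fin (n + 1) → ℕ)) :=
  CT k q1 r ×ˢ Wk n (XX r / 512)

/-- The words. -/
noncomputable def XS (k n q1 r : ℕ) : Finset (ℕ × (List (ℕ × ℕ) × (Fin (n + 1) → ℕ))) :=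
  mainI (XX r) ×ˢ WS k n q1 r

/-- The part of the value of a word which does not depend on `t`. -/
noncomputable def aS (k : ℕ) {n : ℕ} (f0 : ℕ → ℝ)
    (w : ℕ × (List (ℕ × ℕ) × (Fin (n + 1) → ℕ))) : ℝ :=
  (w.1 : ℝ) ^ k + val (fun x => (x : ℝ) ^ k) (fun _ => 0) w.2.1 + ∑ i, f0 (w.2.2 i)

/-- The coefficients of the value of a word. -/
noncomputable def bS {n : ℕ} (w : ℕ × (List (ℕ × ℕ) × (Fin (n + 1) → ℕ))) (l : Fin (n + 1)) : ℝ :=
  pws (n + 1 - (l : ℕ)) w.2.2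

theorem count_S {k n : ℕ} (q1 : ℕ) (hk : 2 ≤ k) (f0 : ℕ → ℝ) :
    ∃ C : ℝ, 0 < C ∧ ∀ᶠ r : ℕ in atTop, ∀ (y : ℝ) (β : Fin (n + 1) → ℝ) (x : ℝ), 1 ≤ x →
      cn (XS k n q1 r) (fun w => |aS k f0 w - y| ≤ x ∧ ∀ l, |bS w l - β l| ≤ x) ≤
        C * ((XS k n q1 r).card : ℝ) / (XX r) ^ (k + (n + 1)) * (x + (XX r) ^ (xb k q1)) * x := by
  obtain ⟨C1, hC1, P1, hP1, hA1⟩ := lemA (by omega : 2 ≤ k) (good_pow (by omega : 1 ≤ k))
    (side_J0 k) (q1 + 1)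
  obtain ⟨C2, hC2, hA2⟩ := countC n
  obtain ⟨c, hc, P2, hP2, hcard⟩ := card_Wk_ge n
  obtain ⟨D1, hD1, hn1⟩ := nxt_iter_pow_le (n := k) (by omega) (q1 + 1)
  refine ⟨C1 * (1 + D1) * C2 * 512 ^ (n + 1) / c, by positivity, ?_⟩
  filter_upwards [XX_tendsto.eventually_ge_atTop P1, XX_tendsto.eventually_ge_atTop (512 * P2)]
    with r hr1 hr2 y β x hx
  have hP0 : 0 < XX r := XX_pos r
  have hP1' : 1 ≤ XX r := XX_ge_one r
  have h512 : P2 ≤ XX r / 512 := by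
    rw [le_div_iff₀ (by norm_num)]
    linarith
  have hR1 : 1 ≤ XX r / 512 := hP2.trans h512
  obtain ⟨t1, ht1⟩ : ∃ t1, t1 = ((nxt k)^[q1 + 1] (XX r)) ^ k := ⟨_, rfl⟩
  have ht10 : 0 ≤ t1 := by
    rw [ht1]
    have := nxt_iter_ge_one (n := k) (by omega) (q1 + 1) hP1'
    positivity
  obtain ⟨s1, hs1⟩ : ∃ s1, s1 = (XX r) ^ (xb k q1) := ⟨_, rfl⟩
  have hs10 : 0 ≤ s1 := by rw [hs1]; exact Real.rpow_nonneg hP0.le _
  have hts1 : t1 ≤ D1 * s1 := by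
    rw [ht1, hs1]
    exact hn1 (XX r) hP1'
  rw [← hs1]
  -- the plain part
  have hA : ∀ y x : ℝ, 0 ≤ x → cn (mainI (XX r) ×ˢ CT k q1 r) (fun p : ℕ × List (ℕ × ℕ) =>
      |(p.1 : ℝ) ^ k + val (fun x => (x : ℝ) ^ k) (fun _ => 0) p.2 - y| ≤ x) ≤
      C1 * ((mainI (XX r) ×ˢ CT k q1 r).card : ℝ) * ((1 + D1) * (x + s1)) / (XX r) ^ k := by
    intro y x hx
    refine (cn_UC_le k q1 r y x).trans ?_
    have h1 : cnt k J0 (q1 + 1) (XX r)
        (fun w => |val (fun x => (x : ℝ) ^ k) (fun _ => 0) w - y| ≤ x) ≤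
        cnt k J0 (q1 + 1) (XX r)
        (fun w => |val (fun x => (x : ℝ) ^ k) (fun _ => 0) w - y| ≤ x + t1) :=
      cnt_mono fun w _ hw => hw.trans (by linarith)
    refine h1.trans ?_
    refine (hA1 (XX r) hr1 y (x + t1) (by rw [← ht1]; linarith)).trans ?_
    rw [card_UC]
    apply div_le_div_of_nonneg_right _ (by positivity)
    apply mul_le_mul_of_nonneg_left _ (mul_nonneg hC1.le (tot_nonneg _ _ _ _))
    nlinarith
  -- the other part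
  have hB : cn (Wk n (XX r / 512)) (fun g => ∀ l : Fin (n + 1),
      |pws (n + 1 - (l : ℕ)) g - β l| ≤ x) ≤ C2 * x := by
    refine le_trans (cn_mono fun g _ hg => ?_) (hA2 (XX r / 512) hR1 x hx
      (fun j => if h : n + 1 - j < n + 1 then β ⟨n + 1 - j, h⟩ else 0))
    intro j hj
    rw [Finset.mem_Icc] at hj
    have h1 : n + 1 - j < n + 1 := by omega
    rw [dif_pos h1]
    have h2 := hg ⟨n + 1 - j, h1⟩
    have h3 : n + 1 - (n + 1 - j) = j := by omega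
    simp only [h3] at h2
    exact h2
  -- together
  have h1 := cn_assoc (mainI (XX r)) (CT k q1 r) (Wk n (XX r / 512))
    (fun w => |aS k f0 w - y| ≤ x ∧ ∀ l, |bS w l - β l| ≤ x)
  have h2 := cn_prod_le (mainI (XX r) ×ˢ CT k q1 r) (Wk n (XX r / 512))
    (fun p g => |(p.1 : ℝ) ^ k + val (fun x => (x : ℝ) ^ k) (fun _ => 0) p.2 -
      (y - ∑ i, f0 (g i))| ≤ x)
    (fun g => ∀ l : Fin (n + 1), |pws (n + 1 - (l : ℕ)) g - β l| ≤ x)
    (K1 := C1 * ((mainI (XX r) ×ˢ CT k q1 r).card : ℝ) * ((1 + D1) * (x + s1)) / (XX r) ^ k)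
    (by positivity) (fun g _ => hA _ x (by linarith)) hB
  have h3 : cn ((mainI (XX r) ×ˢ CT k q1 r) ×ˢ Wk n (XX r / 512))
      (fun p => |aS k f0 (p.1.1, (p.1.2, p.2)) - y| ≤ x ∧
        ∀ l, |bS (p.1.1, (p.1.2, p.2)) l - β l| ≤ x) ≤
      cn ((mainI (XX r) ×ˢ CT k q1 r) ×ˢ Wk n (XX r / 512))
      (fun p => (∀ l : Fin (n + 1), |pws (n + 1 - (l : ℕ)) p.2 - β l| ≤ x) ∧
        |(p.1.1 : ℝ) ^ k + val (fun x => (x : ℝ) ^ k) (fun _ => 0) p.1.2 -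
      (y - ∑ i, f0 (p.2 i))| ≤ x) := by
    refine cn_mono fun p _ hp => ⟨hp.2, ?_⟩
    refine le_trans (le_of_eq ?_) hp.1
    unfold aS
    congr 1
    ring
  refine (h1.trans (h3.trans h2)).trans ?_
  have hcw := hcard (XX r / 512) h512
  obtain ⟨U, hU⟩ : ∃ U : ℝ, U = ((mainI (XX r) ×ˢ CT k q1 r).card : ℝ) := ⟨_, rfl⟩
  obtain ⟨G, hG⟩ : ∃ G : ℝ, G = ((Wk n (XX r / 512)).card : ℝ) := ⟨_, rfl⟩
  have e2 : ((XS k n q1 r).card : ℝ) = U * G := by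
    rw [hU, hG]
    unfold XS WS
    rw [Finset.card_product, Finset.card_product, Finset.card_product]
    push_cast
    ring
  have hU0 : 0 ≤ U := by rw [hU]; positivity
  rw [e2, ← hU]
  rw [← hG, div_pow] at hcw
  have e3 : (XX r) ^ (n + 1) ≤ 512 ^ (n + 1) / c * G := by
    rw [div_mul_eq_mul_div, le_div_iff₀ hc]
    have h4 : c * ((XX r) ^ (n + 1) / 512 ^ (n + 1)) * 512 ^ (n + 1) ≤ G * 512 ^ (n + 1) :=
      mul_le_mul_of_nonneg_right hcw (by positivity)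
    have h5 : c * ((XX r) ^ (n + 1) / 512 ^ (n + 1)) * 512 ^ (n + 1) = (XX r) ^ (n + 1) * c := by
      field_simp
    linarith
  have hPn : 0 < (XX r) ^ (n + 1) := by positivity
  have e4 : C2 * x * (C1 * U * ((1 + D1) * (x + s1)) / (XX r) ^ k) =
      C1 * (1 + D1) * C2 * U * (x + s1) * x / (XX r) ^ (k + (n + 1)) * (XX r) ^ (n + 1) := by
    rw [pow_add]
    field_simp
  have e5 : C1 * (1 + D1) * C2 * 512 ^ (n + 1) / c * (U * G) / (XX r) ^ (k + (n + 1)) *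
      (x + s1) * x = C1 * (1 + D1) * C2 * U * (x + s1) * x / (XX r) ^ (k + (n + 1)) *
        (512 ^ (n + 1) / c * G) := by
    field_simp
  rw [e4, e5]
  exact mul_le_mul_of_nonneg_left e3 (by positivity)

private theorem AeS_XX_rpow (r : ℕ) (δ : ℝ) : (XX r) ^ δ = ((2 : ℝ) ^ δ) ^ r := by
  unfold XX
  rw [← Real.rpow_natCast, ← Real.rpow_natCast, ← Real.rpow_mul (by norm_num),
    ← Real.rpow_mul (by norm_num), mul_comm]

private theorem AeS_lin_le (C : ℝ) (hC : 0 < C) {δ : ℝ} (hδ : 0 < δ) :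
    ∀ᶠ r : ℕ in atTop, C * ((r : ℝ) + 1) ≤ (XX r) ^ δ := by
  have hb : (1 : ℝ) < (2 : ℝ) ^ δ := Real.one_lt_rpow (by norm_num) hδ
  have h1 := tendsto_pow_const_div_const_pow_of_one_lt 1 hb
  have h2 : ∀ᶠ n : ℕ in atTop, (n : ℝ) ^ 1 / ((2 : ℝ) ^ δ) ^ n < 1 / (2 * C) :=
    h1.eventually_lt_const (by positivity)
  filter_upwards [h2, eventually_ge_atTop 1] with r hr hr1
  rw [AeS_XX_rpow]
  have hr2 : (1 : ℝ) ≤ r := by exact_mod_cast hr1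
  have hp : 0 < ((2 : ℝ) ^ δ) ^ r := by positivity
  rw [pow_one, div_lt_div_iff₀ hp (by positivity)] at hr
  nlinarith

private theorem AeS_pws {n r : ℕ} (hr : 512 ≤ XX r) {x : Fin (n + 1) → ℕ}
    (hx : x ∈ Wk n (XX r / 512)) {j : ℕ} (hj : j ≤ n + 1) :
    0 ≤ pws j x ∧ pws j x ≤ (2 : ℝ) ^ (r * (n + 1) + (n + 1)) := by
  unfold pws
  refine ⟨Finset.sum_nonneg fun i _ => by positivity, ?_⟩
  have hP : 1 ≤ XX r / 512 := by
    rw [le_div_iff₀ (by norm_num)]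
    linarith
  have hP1 := XX_ge_one r
  have h1 : ∀ i ∈ (Finset.univ : Finset (Fin (n + 1))), (x i : ℝ) ^ j ≤ (XX r) ^ (n + 1) := by
    intro i _
    have h2 := (Wk_le hP hx i).2
    calc (x i : ℝ) ^ j ≤ (XX r) ^ j := by
          apply pow_le_pow_left₀ (Nat.cast_nonneg _)
          linarith
      _ ≤ (XX r) ^ (n + 1) := pow_le_pow_right₀ hP1 hj
  refine (Finset.sum_le_sum h1).trans ?_
  rw [Finset.sum_const, Finset.card_univ, Fintype.card_fin, nsmul_eq_mul]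
  have h3 : ((n + 1 : ℕ) : ℝ) ≤ 2 ^ (n + 1) := by
    exact_mod_cast (Nat.lt_two_pow_self (n := n + 1)).le
  have h4 : (XX r) ^ (n + 1) = (2 : ℝ) ^ (r * (n + 1)) := by
    unfold XX
    rw [← pow_mul]
  rw [h4, pow_add, mul_comm]
  exact mul_le_mul_of_nonneg_left h3 (by positivity)

theorem totS_ev {k : ℕ} (n q1 : ℕ) (hk : 2 ≤ k) : ∀ᶠ r : ℕ in atTop,
    0 < ((mainI (XX r)).card : ℝ) ∧ 0 < ((CT k q1 r).card : ℝ) ∧
      0 < ((Wk n (XX r / 512)).card : ℝ) := by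
  obtain ⟨P1, h1⟩ := tot_pos (n := k) (J := J0) (by omega) ⟨0, fun P _ => ⟨0, by simp [J0]⟩⟩ q1
  obtain ⟨c, hc, P2, hP2, hcard⟩ := card_Wk_ge n
  filter_upwards [((nxt_tendsto (by omega : 2 ≤ k)).comp XX_tendsto).eventually_ge_atTop P1,
    XX_tendsto.eventually_ge_atTop (512 * P2)] with r hr1 hr2
  have hP := XX_pos r
  refine ⟨?_, h1 _ hr1, ?_⟩
  · have := card_mainI_ge (XX_ge_one r)
    linarith
  · have h2 := hcard (XX r / 512) (by rw [le_div_iff₀ (by norm_num)]; linarith)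
    exact lt_of_lt_of_le (by positivity) h2

theorem avgS {k n q1 : ℕ} (hk : 2 ≤ k) (hq : xb k q1 ≤ ((n + 1 : ℕ) : ℝ)) (f0 : ℕ → ℝ)
    {T M : ℝ} (hT : 1 ≤ T) (hM : 1 ≤ M) {δ : ℝ} (hδ : 0 < δ) :
    ∀ᶠ r : ℕ in atTop,
      ∑ p ∈ XS k n q1 r ×ˢ XS k n q1 r, (volume {c : Fin (n + 1) → ℝ | (∀ l, |c l| ≤ T) ∧
        |(aS k f0 p.1 - aS k f0 p.2) + ∑ l, (bS p.1 l - bS p.2 l) * c l| ≤ M}).toReal ≤
      (XX r) ^ δ * (((XS k n q1 r).card : ℝ) ^ 2 / (XX r) ^ k) := by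
  obtain ⟨C, hC, hcount⟩ := count_S (n := n) q1 hk f0
  obtain ⟨Q, hQ⟩ : ∃ Q : ℝ, Q = M + ((n + 1 : ℕ) : ℝ) * T + 1 := ⟨_, rfl⟩
  obtain ⟨V, hV⟩ : ∃ V : ℝ, V = (2 * T) ^ (n + 1) * (1 + 2 * M) := ⟨_, rfl⟩
  have hQ0 : 0 < Q := by rw [hQ]; positivity
  have hV0 : 0 < V := by rw [hV]; positivity
  obtain ⟨Z, hZ⟩ : ∃ Z : ℝ, Z = C * V * (2 * Q) * (Q * 2 ^ (n + 3) + 2 * (n + 2)) := ⟨_, rfl⟩
  have hZ0 : 0 < Z := by rw [hZ]; positivity
  filter_upwards [hcount, AeS_lin_le Z hZ0 hδ, XX_tendsto.eventually_ge_atTop 512]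
    with r hr hlin hr2
  have hP0 : 0 < XX r := XX_pos r
  have hP1 : 1 ≤ XX r := XX_ge_one r
  obtain ⟨m, hm⟩ : ∃ m : ℝ, m = ((XS k n q1 r).card : ℝ) := ⟨_, rfl⟩
  have hm0 : 0 ≤ m := by rw [hm]; exact Nat.cast_nonneg _
  obtain ⟨s1, hs1⟩ : ∃ s1, s1 = (XX r) ^ (xb k q1) := ⟨_, rfl⟩
  have hs10 : 0 ≤ s1 := by rw [hs1]; exact Real.rpow_nonneg hP0.le _
  have hs1P : s1 ≤ (XX r) ^ (n + 1) := by
    rw [hs1, ← Real.rpow_natCast (XX r) (n + 1)]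
    exact Real.rpow_le_rpow_of_exponent_le hP1 hq
  rw [← hs1, ← hm] at hr
  have hXn : (XX r) ^ (n + 1) = 2 ^ (r * (n + 1)) := by
    unfold XX
    rw [← pow_mul]
  have key := avg_multi (X := XS k n q1 r) (a := aS k f0) (b := bS) (T := T) (M := M)
    (K := C * m / (XX r) ^ (k + (n + 1))) (τ := s1) (I := r * (n + 1) + (n + 1))
    (by omega) hT hM (by positivity) hs10 hr
    (by
      intro w hw w' hw' l
      have h1 : ∀ w ∈ XS k n q1 r, 0 ≤ bS w l ∧ bS w l ≤ 2 ^ (r * (n + 1) + (n + 1)) := by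
        intro w hw
        unfold XS WS at hw
        exact AeS_pws hr2 (Finset.mem_product.1 (Finset.mem_product.1 hw).2).2 (by omega)
      have h2 := h1 w hw
      have h3 := h1 w' hw'
      rw [abs_le]
      constructor <;> linarith [h2.1, h2.2, h3.1, h3.2])
  rw [← hm, ← hQ, ← hV] at key
  rw [← hm]
  refine key.trans ?_
  have hr0 : (0 : ℝ) ≤ r := Nat.cast_nonneg r
  have hn0 : (0 : ℝ) ≤ n := Nat.cast_nonneg n
  have hI : ((r * (n + 1) + (n + 1) : ℕ) : ℝ) + 1 ≤ 2 * (n + 2) * ((r : ℝ) + 1) := by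
    push_cast
    nlinarith [mul_nonneg hr0 hn0]
  have hbr : Q * 2 ^ (r * (n + 1) + (n + 1) + 2) + (((r * (n + 1) + (n + 1) : ℕ) : ℝ) + 1) * s1 ≤
      (Q * 2 ^ (n + 3) + 2 * (n + 2)) * ((r : ℝ) + 1) * (XX r) ^ (n + 1) := by
    obtain ⟨R, hR⟩ : ∃ R, R = (XX r) ^ (n + 1) := ⟨_, rfl⟩
    have hR0 : 0 ≤ R := by rw [hR]; positivity
    have e0 : (2 : ℝ) ^ (r * (n + 1) + (n + 1) + 2) = R * 2 ^ (n + 3) := by
      rw [hR, hXn, ← pow_add]
      congr 1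
    rw [e0, ← hR]
    rw [← hR] at hs1P
    have e1 : (((r * (n + 1) + (n + 1) : ℕ) : ℝ) + 1) * s1 ≤ 2 * (n + 2) * ((r : ℝ) + 1) * R :=
      mul_le_mul hI hs1P hs10 (by positivity)
    have e2 : Q * (R * 2 ^ (n + 3)) ≤ Q * 2 ^ (n + 3) * ((r : ℝ) + 1) * R := by
      have : 0 ≤ Q * (R * 2 ^ (n + 3)) * r := by positivity
      nlinarith
    nlinarith
  have hc2 : 0 ≤ V * (C * m / (XX r) ^ (k + (n + 1))) * (2 * Q) := by positivity
  have h5 := mul_le_mul_of_nonneg_left (mul_le_mul_of_nonneg_left hbr hc2) hm0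
  refine h5.trans ?_
  have e4 : m * (V * (C * m / (XX r) ^ (k + (n + 1))) * (2 * Q) *
      ((Q * 2 ^ (n + 3) + 2 * (n + 2)) * ((r : ℝ) + 1) * (XX r) ^ (n + 1))) =
      Z * ((r : ℝ) + 1) * (m ^ 2 / (XX r) ^ k) := by
    rw [pow_add, hZ]
    field_simp
  rw [e4]
  exact mul_le_mul_of_nonneg_right hlin (by positivity)

theorem aeS {k n q1 : ℕ} (hk : 2 ≤ k) (hq : xb k q1 ≤ ((n + 1 : ℕ) : ℝ)) (f0 : ℕ → ℝ)
    {ε : ℝ} (hε : 0 < ε) :
    ∀ᵐ c : Fin (n + 1) → ℝ, ∀ M : ℝ, ∀ᶠ r : ℕ in atTop,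
      pairs (XS k n q1 r) (fun p =>
        |(aS k f0 p.1 + ∑ l, bS p.1 l * c l) - (aS k f0 p.2 + ∑ l, bS p.2 l * c l)| ≤ M) ≤
      (XX r) ^ ε * ((XS k n q1 r).card : ℝ) ^ 2 / (XX r) ^ k := by
  have h1 : ∀ m : ℕ, ∀ᵐ c : Fin (n + 1) → ℝ, (∀ l, |c l| ≤ (m : ℝ) + 1) →
      ∀ᶠ r : ℕ in atTop,
        cn (XS k n q1 r ×ˢ XS k n q1 r) (fun p =>
          |(aS k f0 p.1 - aS k f0 p.2) + ∑ l, (bS p.1 l - bS p.2 l) * c l| ≤ (m : ℝ) + 1) ≤
        (XX r) ^ (2 * (ε / 2)) * (((XS k n q1 r).card : ℝ) ^ 2 / (XX r) ^ k) := by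
    intro m
    have hm : (0 : ℝ) ≤ m := Nat.cast_nonneg m
    refine ae_of_avg_pi (S := fun r => XS k n q1 r ×ˢ XS k n q1 r)
      (G := fun p c => (aS k f0 p.1 - aS k f0 p.2) + ∑ l, (bS p.1 l - bS p.2 l) * c l)
      (T := (m : ℝ) + 1) (M := (m : ℝ) + 1)
      (Y := fun r => ((XS k n q1 r).card : ℝ) ^ 2 / (XX r) ^ k)
      (by linarith) ?_ ?_ (avgS hk hq f0 (by linarith) (by linarith) (by linarith))
    · filter_upwards [totS_ev n q1 hk] with r hr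
      have hP0 : 0 < XX r := XX_pos r
      have : 0 < ((XS k n q1 r).card : ℝ) := by
        unfold XS WS
        rw [Finset.card_product, Finset.card_product]
        push_cast
        exact mul_pos hr.1 (mul_pos hr.2.1 hr.2.2)
      positivity
    · intro p
      fun_prop
  have h2 := ae_all_iff.2 h1
  filter_upwards [h2] with c hcc M
  obtain ⟨B, hB⟩ : ∃ B : ℝ, ∀ l, |c l| ≤ B := by
    refine ⟨∑ l, |c l|, fun l => ?_⟩
    exact Finset.single_le_sum (f := fun l => |c l|) (fun i _ => abs_nonneg _) (Finset.mem_univ l)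
  obtain ⟨m, hm⟩ := exists_nat_ge (max B M)
  have hm1 : B ≤ m := (le_max_left _ _).trans hm
  have hm2 : M ≤ m := (le_max_right _ _).trans hm
  filter_upwards [hcc m (fun l => by linarith [hB l])] with r hr
  rw [pairs_eq_cn]
  refine (cn_mono fun w _ hw => ?_).trans (hr.trans (le_of_eq ?_))
  · have e1 : (aS k f0 w.1 - aS k f0 w.2) + ∑ l, (bS w.1 l - bS w.2 l) * c l =
        (aS k f0 w.1 + ∑ l, bS w.1 l * c l) - (aS k f0 w.2 + ∑ l, bS w.2 l * c l) := by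
      have : ∑ l, (bS w.1 l - bS w.2 l) * c l = ∑ l, bS w.1 l * c l - ∑ l, bS w.2 l * c l := by
        rw [← Finset.sum_sub_distrib]
        exact Finset.sum_congr rfl fun l _ => by ring
      rw [this]
      ring
    rw [e1]
    exact hw.trans (by linarith)
  · rw [show 2 * (ε / 2) = ε by ring, ← mul_div_assoc]

end XWar
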