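import Pool.Agent.FWar.Slab
import Pool.Agent.FWar.MixB
import Pool.Agent.TWar.Avg

/-!
# XWar.AvgS: the mean number of near coincidences, several random coefficients

`avg_multi`: a finite set `X` of words with values `a w + ∑ l, b w l * c l`, `c ∈ [-T, T]^s`. If every box
condition `|a w - y| ≤ x`, `|b w l - β l| ≤ x` (`x ≥ 1`) has at most `K (x + τ) x` solutions, the mean number of
pairs with values at distance `≤ M` is `≪ |X| K (2^I + (I + 1) τ)`, where `|b w l - b w' l| ≤ 2^I`.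

PROOF. For a pair put `D = max |b w l - b w' l|`. If `2^i ≤ D < 2^(i+1)` (or `D < 1`, `i = 0`) the volume is
`≪ 2^(-i)` (`slab`) and, if it is positive, `|a w - a w'| ≪ 2^i`.
-/

namespace XWar

open TWar MWg FWar Finset MeasureTheory Filter Topology

private theorem AvgS_cube (k : ℕ) {T : ℝ} (hT : 0 ≤ T) :
    volume {c : Fin k → ℝ | ∀ l, |c l| ≤ T} = ENNReal.ofReal ((2 * T) ^ k) := by
  have h1 : {c : Fin k → ℝ | ∀ l, |c l| ≤ T} = Metric.closedBall 0 T := by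
    ext c
    simp [pi_norm_le_iff_of_nonneg hT]
  rw [h1, Real.volume_pi_closedBall _ hT, Fintype.card_fin]

private theorem AvgS_mono {k : ℕ} {A B : Set (Fin k → ℝ)} {T : ℝ} (hT : 0 ≤ T) (hAB : A ⊆ B)
    (hB : B ⊆ {c : Fin k → ℝ | ∀ l, |c l| ≤ T}) : (volume A).toReal ≤ (volume B).toReal := by
  refine ENNReal.toReal_mono ?_ (measure_mono hAB)
  refine ((measure_mono hB).trans_lt ?_).ne
  rw [AvgS_cube k hT]
  exact ENNReal.ofReal_lt_top

private theorem AvgS_pair {s I : ℕ} {T M : ℝ} (hs : 1 ≤ s) (hT : 1 ≤ T) (hM : 1 ≤ M) (a : ℝ)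
    (b : Fin s → ℝ) (hbI : ∀ l, |b l| ≤ 2 ^ I) :
    ∃ i < I + 1,
      (volume {c : Fin s → ℝ | (∀ l, |c l| ≤ T) ∧ |a + ∑ l, b l * c l| ≤ M}).toReal ≤
        (2 * T) ^ s * (1 + 2 * M) / 2 ^ i ∧
      (0 < (volume {c : Fin s → ℝ | (∀ l, |c l| ≤ T) ∧ |a + ∑ l, b l * c l| ≤ M}).toReal →
        |a| ≤ (M + s * T + 1) * 2 ^ (i + 1) ∧ ∀ l, |b l| ≤ (M + s * T + 1) * 2 ^ (i + 1)) := by
  have hne : (Finset.univ : Finset (Fin s)).Nonempty := ⟨⟨0, hs⟩, Finset.mem_univ _⟩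
  obtain ⟨l0, -, hl0⟩ := Finset.exists_max_image (Finset.univ : Finset (Fin s))
    (fun l => |b l|) hne
  obtain ⟨D, hD⟩ : ∃ D : ℝ, D = |b l0| := ⟨_, rfl⟩
  have hD0 : 0 ≤ D := by rw [hD]; exact abs_nonneg _
  have hbD : ∀ l, |b l| ≤ D := fun l => by rw [hD]; exact hl0 l (Finset.mem_univ _)
  have hs0 : (0 : ℝ) ≤ s := Nat.cast_nonneg s
  have hsT : 0 ≤ (s : ℝ) * T := by positivity
  -- if the set has positive volume, `|a| ≤ M + s T D`
  have hkey : 0 < (volume {c : Fin s → ℝ | (∀ l, |c l| ≤ T) ∧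
      |a + ∑ l, b l * c l| ≤ M}).toReal → |a| ≤ M + s * T * D := by
    intro hpos
    have hne : ({c : Fin s → ℝ | (∀ l, |c l| ≤ T) ∧
        |a + ∑ l, b l * c l| ≤ M}).Nonempty := by
      rw [Set.nonempty_iff_ne_empty]
      intro h0
      rw [h0, measure_empty] at hpos
      simp at hpos
    obtain ⟨c, hc1, hc2⟩ := hne
    have h1 : |∑ l, b l * c l| ≤ s * T * D := by
      refine (Finset.abs_sum_le_sum_abs _ _).trans ?_
      have h2 : ∀ l ∈ (Finset.univ : Finset (Fin s)), |b l * c l| ≤ D * T := by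
        intro l _
        rw [abs_mul]
        exact mul_le_mul (hbD l) (hc1 l) (abs_nonneg _) hD0
      refine (Finset.sum_le_sum h2).trans (le_of_eq ?_)
      rw [Finset.sum_const, Finset.card_univ, Fintype.card_fin, nsmul_eq_mul]
      ring
    have h3 : a = (a + ∑ l, b l * c l) - ∑ l, b l * c l := by ring
    rw [h3]
    refine (abs_sub _ _).trans ?_
    linarith
  have hlev : ∀ i : ℕ, D ≤ 2 ^ (i + 1) →
      (0 < (volume {c : Fin s → ℝ | (∀ l, |c l| ≤ T) ∧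
      |a + ∑ l, b l * c l| ≤ M}).toReal →
        |a| ≤ (M + s * T + 1) * 2 ^ (i + 1) ∧ ∀ l, |b l| ≤ (M + s * T + 1) * 2 ^ (i + 1)) := by
    intro i hi hpos
    have h2i : (1 : ℝ) ≤ 2 ^ (i + 1) := one_le_pow₀ (by norm_num)
    refine ⟨?_, fun l => ?_⟩
    · refine (hkey hpos).trans ?_
      have h3 : (s : ℝ) * T * D ≤ (s : ℝ) * T * 2 ^ (i + 1) :=
        mul_le_mul_of_nonneg_left hi hsT
      nlinarith
    · refine (hbD l).trans ?_
      nlinarith
  rcases lt_or_ge D 1 with hD1 | hD1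
  · refine ⟨0, by omega, ?_, hlev 0 (by norm_num; linarith)⟩
    have h1 : (volume {c : Fin s → ℝ | (∀ l, |c l| ≤ T) ∧
        |a + ∑ l, b l * c l| ≤ M}).toReal ≤
        (volume {c : Fin s → ℝ | ∀ l, |c l| ≤ T}).toReal :=
      AvgS_mono (T := T) (by linarith) (fun c hc => hc.1) (fun c hc => hc)
    refine h1.trans ?_
    rw [AvgS_cube _ (by linarith), ENNReal.toReal_ofReal (by positivity), pow_zero, div_one]
    have h2 : (0 : ℝ) ≤ (2 * T) ^ s := by positivity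
    nlinarith
  · obtain ⟨i, hi1, hi2⟩ := exists_nat_pow_near hD1 (show (1 : ℝ) < 2 by norm_num)
    refine ⟨i, ?_, ?_, hlev i hi2.le⟩
    · have h1 : D ≤ 2 ^ I := by
        rw [hD]
        exact hbI l0
      have h2 : (2 : ℝ) ^ i ≤ 2 ^ I := hi1.trans h1
      have h3 := (pow_le_pow_iff_right₀ (show (1 : ℝ) < 2 by norm_num)).1 h2
      omega
    · have hb0 : b l0 ≠ 0 := by
        intro h
        rw [h, abs_zero] at hD
        linarith
      have h1 := slab b a T M l0 (by linarith) (by linarith) hb0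
      refine h1.trans ?_
      rw [← hD]
      have h2 : 2 * M / D ≤ 2 * M / 2 ^ i :=
        div_le_div_of_nonneg_left (by linarith) (by positivity) hi1
      have h3 : (2 * T) ^ (s - 1) ≤ (2 * T) ^ s := pow_le_pow_right₀ (by linarith) (by omega)
      calc 2 * M / D * (2 * T) ^ (s - 1) ≤ 2 * M / 2 ^ i * (2 * T) ^ s :=
            mul_le_mul h2 h3 (by positivity) (by positivity)
        _ = (2 * T) ^ s * (2 * M) / 2 ^ i := by ring
        _ ≤ _ := by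
            refine div_le_div_of_nonneg_right ?_ (by positivity)
            exact mul_le_mul_of_nonneg_left (by linarith) (by positivity)

private theorem AvgS_geo (I : ℕ) : ∑ i ∈ Finset.range (I + 1), (2 : ℝ) ^ (i + 1) ≤ 2 ^ (I + 2) := by
  have h : ∀ J : ℕ, ∑ i ∈ Finset.range J, (2 : ℝ) ^ (i + 1) = 2 ^ (J + 1) - 2 := by
    intro J
    induction J with
    | zero => norm_num
    | succ J ih =>
      rw [Finset.sum_range_succ, ih]
      ring
  rw [h]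
  norm_num

theorem avg_multi {ι : Type*} {X : Finset ι} {a : ι → ℝ} {s : ℕ} {b : ι → Fin s → ℝ}
    {T M K τ : ℝ} {I : ℕ} (hs : 1 ≤ s) (hT : 1 ≤ T) (hM : 1 ≤ M) (hK : 0 ≤ K) (hτ : 0 ≤ τ)
    (hcount : ∀ (y : ℝ) (β : Fin s → ℝ) (x : ℝ), 1 ≤ x →
      cn X (fun w => |a w - y| ≤ x ∧ ∀ l, |b w l - β l| ≤ x) ≤ K * (x + τ) * x)
    (hb : ∀ w ∈ X, ∀ w' ∈ X, ∀ l, |b w l - b w' l| ≤ 2 ^ I) :
    ∑ p ∈ X ×ˢ X, (volume {c : Fin s → ℝ | (∀ l, |c l| ≤ T) ∧
      |(a p.1 - a p.2) + ∑ l, (b p.1 l - b p.2 l) * c l| ≤ M}).toReal ≤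
      (X.card : ℝ) * ((2 * T) ^ s * (1 + 2 * M) * K * (2 * (M + s * T + 1)) *
        ((M + s * T + 1) * 2 ^ (I + 2) + (I + 1) * τ)) := by
  classical
  obtain ⟨Q, hQ⟩ : ∃ Q : ℝ, Q = M + s * T + 1 := ⟨_, rfl⟩
  obtain ⟨V, hV⟩ : ∃ V : ℝ, V = (2 * T) ^ s * (1 + 2 * M) := ⟨_, rfl⟩
  have hsT : 0 ≤ (s : ℝ) * T := by positivity
  have hQ1 : 1 ≤ Q := by rw [hQ]; linarith
  have hV0 : 0 ≤ V := by rw [hV]; positivity
  rw [← hV, ← hQ]
  have hpt : ∀ p ∈ X ×ˢ X, (volume {c : Fin s → ℝ | (∀ l, |c l| ≤ T) ∧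
      |(a p.1 - a p.2) + ∑ l, (b p.1 l - b p.2 l) * c l| ≤ M}).toReal ≤
      ∑ i ∈ Finset.range (I + 1), V / 2 ^ i *
        (if (|a p.2 - a p.1| ≤ Q * 2 ^ (i + 1) ∧ ∀ l, |b p.2 l - b p.1 l| ≤ Q * 2 ^ (i + 1))
          then 1 else 0) := by
    intro p hp
    rw [Finset.mem_product] at hp
    obtain ⟨i, hi, h1, h2⟩ := AvgS_pair hs hT hM (a p.1 - a p.2) (fun l => b p.1 l - b p.2 l)
      (hb p.1 hp.1 p.2 hp.2)
    have hnn : ∀ i' ∈ Finset.range (I + 1), 0 ≤ V / 2 ^ i' *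
        (if (|a p.2 - a p.1| ≤ Q * 2 ^ (i' + 1) ∧ ∀ l, |b p.2 l - b p.1 l| ≤ Q * 2 ^ (i' + 1))
          then (1 : ℝ) else 0) := by
      intro i' _
      split_ifs
      · positivity
      · simp
    rcases (ENNReal.toReal_nonneg (a := volume {c : Fin s → ℝ | (∀ l, |c l| ≤ T) ∧
      |(a p.1 - a p.2) + ∑ l, (b p.1 l - b p.2 l) * c l| ≤ M})).eq_or_lt with h3 | h3
    · rw [← h3]
      exact Finset.sum_nonneg hnn
    · obtain ⟨h4, h5⟩ := h2 h3
      rw [← hQ] at h4 h5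
      rw [← hV] at h1
      refine h1.trans ?_
      have h6 := Finset.single_le_sum hnn (Finset.mem_range.2 hi)
      rw [if_pos ⟨by rw [abs_sub_comm]; exact h4, fun l => by rw [abs_sub_comm]; exact h5 l⟩,
        mul_one] at h6
      exact h6
  refine (Finset.sum_le_sum hpt).trans ?_
  rw [Finset.sum_comm]
  have hlev : ∀ i ∈ Finset.range (I + 1),
      ∑ p ∈ X ×ˢ X, V / 2 ^ i *
        (if (|a p.2 - a p.1| ≤ Q * 2 ^ (i + 1) ∧ ∀ l, |b p.2 l - b p.1 l| ≤ Q * 2 ^ (i + 1))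
          then (1 : ℝ) else 0) ≤
        (X.card : ℝ) * (V * K * (2 * Q)) * (Q * 2 ^ (i + 1) + τ) := by
    intro i _
    rw [← Finset.mul_sum]
    have h2i : (1 : ℝ) ≤ 2 ^ (i + 1) := one_le_pow₀ (by norm_num)
    have h1 : ∑ p ∈ X ×ˢ X,
        (if (|a p.2 - a p.1| ≤ Q * 2 ^ (i + 1) ∧ ∀ l, |b p.2 l - b p.1 l| ≤ Q * 2 ^ (i + 1))
          then (1 : ℝ) else 0) ≤
        (X.card : ℝ) * (K * (Q * 2 ^ (i + 1) + τ) * (Q * 2 ^ (i + 1))) := by
      have h2 := pairs_le_of (W := X)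
        (R := fun w w' => |a w' - a w| ≤ Q * 2 ^ (i + 1) ∧
          ∀ l, |b w' l - b w l| ≤ Q * 2 ^ (i + 1))
        (B := K * (Q * 2 ^ (i + 1) + τ) * (Q * 2 ^ (i + 1))) (fun w _ =>
          hcount (a w) (fun l => b w l) (Q * 2 ^ (i + 1)) (by nlinarith))
      refine le_trans (le_of_eq ?_) h2
      rw [pairs, Finset.card_filter, Nat.cast_sum]
      refine Finset.sum_congr rfl fun p _ => ?_
      by_cases hp : |a p.2 - a p.1| ≤ Q * 2 ^ (i + 1) ∧ ∀ l, |b p.2 l - b p.1 l| ≤ Q * 2 ^ (i + 1)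
      · rw [if_pos hp, if_pos hp, Nat.cast_one]
      · rw [if_neg hp, if_neg hp, Nat.cast_zero]
    calc V / 2 ^ i * _ ≤ V / 2 ^ i *
          ((X.card : ℝ) * (K * (Q * 2 ^ (i + 1) + τ) * (Q * 2 ^ (i + 1)))) :=
          mul_le_mul_of_nonneg_left h1 (by positivity)
      _ = _ := by
          rw [pow_succ]
          field_simp
  refine (Finset.sum_le_sum hlev).trans ?_
  rw [← Finset.mul_sum, Finset.sum_add_distrib, Finset.sum_const, Finset.card_range, nsmul_eq_mul,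
    ← Finset.mul_sum, mul_assoc]
  refine mul_le_mul_of_nonneg_left ?_ (Nat.cast_nonneg _)
  refine mul_le_mul_of_nonneg_left ?_ (by positivity)
  have h3 := mul_le_mul_of_nonneg_left (AvgS_geo I) (show 0 ≤ Q by linarith)
  push_cast
  linarith

end XWar
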