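import Pool.Agent.XWar.AeCv
import Pool.Agent.FWar.DimC

/-!
# XWar.DimX: dimension of the set of points of a curve with many near coincidences

As `Pool/Agent/XWar/AeCv.lean`, with the Hausdorff dimension of the exceptional set in place of its measure.
-/

namespace XWar

open TWar MWg FWar YWar Finset MeasureTheory Filter Topology

private theorem DimX_val {F F' : ℝ → ℕ → ℝ} {s : ℝ} (hF : ∀ x, HasDerivAt (fun t => F t x) (F' s x) s)
    (l : List (ℕ × ℕ)) :
    HasDerivAt (fun t => val (F t) (fun _ => 0) l) (val (F' s) (fun _ => 0) l) s := by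
  induction l with
  | nil =>
    have e : (fun t : ℝ => val (F t) (fun _ => 0) []) = fun _ => (0 : ℝ) := by
      funext b
      exact val_nil _ _
    rw [e, val_nil]
    exact hasDerivAt_const _ _
  | cons u l ih =>
    have e : (fun t : ℝ => val (F t) (fun _ => 0) (u :: l)) =
        fun t : ℝ => F t u.1 + 0 + val (F t) (fun _ => 0) l := by
      funext b
      exact val_cons _ _ _ _
    rw [e, val_cons]
    have h := HasDerivAt.fun_add ((hF u.1).add_const (0 : ℝ)) ih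
    rw [add_zero]
    exact h

/-- mean value inequality -/
private theorem DimX_mv {g g' : ℝ → ℝ} {a b L : ℝ}
    (hg : ∀ x, HasDerivAt g (g' x) x) (hb : ∀ x ∈ Set.Icc a b, |g' x| ≤ L) :
    ∀ x ∈ Set.Icc a b, ∀ y ∈ Set.Icc a b, |g x - g y| ≤ L * |x - y| := by
  intro x hx y hy
  have h := Convex.norm_image_sub_le_of_norm_hasDerivWithin_le (f := g) (f' := g')
    (s := Set.Icc a b) (C := L) (x := y) (y := x)
    (fun z _ => (hg z).hasDerivWithinAt) (fun z hz => by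
      rw [Real.norm_eq_abs]
      exact hb z hz) (convex_Icc a b) hy hx
  rwa [Real.norm_eq_abs, Real.norm_eq_abs] at h

private theorem DimX_der {k j : ℕ} {g : Polynomial ℝ} {c c1 : ℕ → ℝ → ℝ}
    (h1 : ∀ i < j + 1, ∀ s, HasDerivAt (c i) (c1 i s) s)
    (i : (ℕ × (List (ℕ × ℕ) × List (ℕ × ℕ))) × (ℕ × (List (ℕ × ℕ) × List (ℕ × ℕ)))) (s : ℝ) :
    HasDerivAt (fun s => aT k (fc k j g c s) i.1 - aT k (fc k j g c s) i.2)
      (val (fun x : ℕ => lo (j + 1) (fun i => c1 i s) (x : ℝ)) (fun _ => 0) i.1.2.2 -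
        val (fun x : ℕ => lo (j + 1) (fun i => c1 i s) (x : ℝ)) (fun _ => 0) i.2.2.2) s := by
  have h2 : ∀ x : ℕ, HasDerivAt (fun s => fc k j g c s x)
      ((fun (s : ℝ) (x : ℕ) => lo (j + 1) (fun i => c1 i s) (x : ℝ)) s x) s := by
    intro x
    unfold fc lo
    refine HasDerivAt.const_add _ ?_
    refine HasDerivAt.fun_sum fun i hi => ?_
    exact (h1 i (Finset.mem_range.1 hi) s).mul_const _
  unfold aT
  exact ((DimX_val (F := fun s => fc k j g c s)
    (F' := fun (s : ℝ) (x : ℕ) => lo (j + 1) (fun i => c1 i s) (x : ℝ)) h2 i.1.2.2).const_add _).sub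
    ((DimX_val (F := fun s => fc k j g c s)
    (F' := fun (s : ℝ) (x : ℕ) => lo (j + 1) (fun i => c1 i s) (x : ℝ)) h2 i.2.2.2).const_add _)

theorem dimX {k j q1 q2 : ℕ} (hj : 2 ≤ j) (hjk : j < k) (hq : xb k q1 + yg j q2 ≤ (j : ℝ))
    (g : Polynomial ℝ) {c c1 : ℕ → ℝ → ℝ} (h1 : ∀ i < j + 1, ∀ s, HasDerivAt (c i) (c1 i s) s)
    {a b T δ0 : ℝ} (hab : a ≤ b) (hT : 0 ≤ T) (hδ0 : 0 < δ0)
    (hb : ∀ i < j + 1, ∀ s ∈ Set.Icc a b, |c1 i s| ≤ T)
    (hlow : ∀ s ∈ Set.Icc a b, δ0 ≤ |c1 j s|) {ε : ℝ} (hε : 0 < ε) (hε1 : ε ≤ 1) :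
    ∃ D : ℕ, 1 ≤ D ∧ dimH {s : ℝ | s ∈ Set.Icc a b ∧ ∃ M : ℝ, ∃ᶠ r : ℕ in atTop,
      (XX r) ^ ε * ((XD D k j q1 q2 r).card : ℝ) ^ 2 / (XX r) ^ k <
      pairs (XD D k j q1 q2 r) (fun p =>
        |aT k (fc k j g c s) p.1 - aT k (fc k j g c s) p.2| ≤ M)} ≤
      ENNReal.ofReal (1 - ε / (4 * k)) := by
  have hkR : (3 : ℝ) ≤ k := by exact_mod_cast (by omega : 3 ≤ k)
  obtain ⟨D, hD, hav⟩ := avgD hj hjk hq g h1 hab hT hδ0 hb hlow
  obtain ⟨Cv, hCv, Pv, hval⟩ := fam_val hj (fam_lo hj hT hδ0 hb hlow) q2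
  refine ⟨D, hD, ?_⟩
  obtain ⟨E, hE⟩ : ∃ E : ℕ → Set ℝ, E = fun n : ℕ =>
      {s : ℝ | s ∈ Set.Icc a b ∧ ∃ᶠ r : ℕ in atTop,
      (XX r) ^ (2 * (ε / 2)) * (((XD D k j q1 q2 r).card : ℝ) ^ 2 / (XX r) ^ k) <
      cn (XD D k j q1 q2 r ×ˢ XD D k j q1 q2 r) (fun i =>
        |aT k (fc k j g c s) i.1 - aT k (fc k j g c s) i.2| ≤ (n : ℝ))} := ⟨_, rfl⟩
  have hE1 : ∀ n : ℕ, dimH (E n) ≤ ENNReal.ofReal (1 - ε / (4 * k)) := by
    intro n
    have hn : (0 : ℝ) ≤ n := Nat.cast_nonneg n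
    have h3 := dim_of_avg
      (S := fun r => XD D k j q1 q2 r ×ˢ XD D k j q1 q2 r)
      (G := fun i s => aT k (fc k j g c s) i.1 - aT k (fc k j g c s) i.2)
      (a := a) (b := b) (M := (n : ℝ)) (δ := ε / 2) (Λ := (k : ℝ))
      (Y := fun r => ((XD D k j q1 q2 r).card : ℝ) ^ 2 / (XX r) ^ k)
      hab (by linarith) (by linarith)
      (by
        filter_upwards [card_XD_pos hD q1 q2 hj hjk] with r hr
        have hP0 : 0 < XX r := XX_pos r
        positivity)
      (by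
        intro r i _ x _
        exact (DimX_der h1 i x).continuousAt.continuousWithinAt)
      (by
        filter_upwards [XX_tendsto.eventually_ge_atTop (512 * Pv),
          XX_tendsto.eventually_ge_atTop (2 * Cv)] with r hr1 hr2 i hi
        have hP0 := XX_pos r
        have hP1 : 1 ≤ XX r := XX_ge_one r
        rw [Real.rpow_natCast]
        refine DimX_mv (fun x => DimX_der h1 i x) ?_
        intro s hs
        obtain ⟨hi1, hi2⟩ := Finset.mem_product.1 hi
        have hg1 : i.1.2.2 ∈ chain j J0 q2 (XX r / 512) := by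
          unfold XD at hi1
          exact (mem_GD.1 (Finset.mem_product.1 (Finset.mem_product.1 hi1).2).2).1
        have hg2 : i.2.2.2 ∈ chain j J0 q2 (XX r / 512) := by
          unfold XD at hi2
          exact (mem_GD.1 (Finset.mem_product.1 (Finset.mem_product.1 hi2).2).2).1
        have h512 : Pv ≤ XX r / 512 := by
          rw [le_div_iff₀ (by norm_num)]
          linarith
        have h3 := hval (XX r / 512) h512 s hs _ hg1
        have h4 := hval (XX r / 512) h512 s hs _ hg2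
        have h5 : (XX r / 512) ^ j ≤ (XX r) ^ (k - 1) := by
          have h6 : (XX r / 512) ^ j ≤ (XX r) ^ j :=
            pow_le_pow_left₀ (by positivity) (div_le_self hP0.le (by norm_num)) j
          exact h6.trans (pow_le_pow_right₀ hP1 (by omega))
        have h6 := mul_le_mul_of_nonneg_left h5 hCv.le
        have h7 : (XX r) ^ k = XX r * (XX r) ^ (k - 1) := by
          rw [← pow_succ']
          congr 1
          omega
        have h8 : 2 * Cv * (XX r) ^ (k - 1) ≤ XX r * (XX r) ^ (k - 1) :=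
          mul_le_mul_of_nonneg_right hr2 (by positivity)
        have h9 := abs_sub (val (fun x : ℕ => lo (j + 1) (fun i => c1 i s) (x : ℝ)) (fun _ => 0) i.1.2.2)
          (val (fun x : ℕ => lo (j + 1) (fun i => c1 i s) (x : ℝ)) (fun _ => 0) i.2.2.2)
        rw [h7]
        linarith)
      (hav ((n : ℝ) + 1) (by linarith) (ε / 2) (by linarith))
    have e1 : 1 - ε / 2 / (2 * (k : ℝ)) = 1 - ε / (4 * k) := by
      have : (k : ℝ) ≠ 0 := by linarith
      field_simp
      ring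
    rw [e1] at h3
    rw [hE]
    exact h3
  have hE2 : {s : ℝ | s ∈ Set.Icc a b ∧ ∃ M : ℝ, ∃ᶠ r : ℕ in atTop,
      (XX r) ^ ε * ((XD D k j q1 q2 r).card : ℝ) ^ 2 / (XX r) ^ k <
      pairs (XD D k j q1 q2 r) (fun p =>
        |aT k (fc k j g c s) p.1 - aT k (fc k j g c s) p.2| ≤ M)} ⊆ ⋃ n, E n := by
    rintro t ⟨ht, M, hM⟩
    obtain ⟨n, hn⟩ := exists_nat_ge M
    rw [Set.mem_iUnion]
    refine ⟨n, ?_⟩
    rw [hE]
    refine ⟨ht, ?_⟩
    refine hM.mono fun r hr => ?_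
    rw [show 2 * (ε / 2) = ε by ring, ← mul_div_assoc]
    refine hr.trans_le ?_
    rw [pairs_eq_cn]
    exact cn_mono fun w _ hw => hw.trans hn
  refine (dimH_mono hE2).trans ?_
  rw [dimH_iUnion]
  exact iSup_le hE1

end XWar
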