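import Pool.Agent.XWar.AvgC
import Pool.Agent.YWar.PairC

/-!
# XWar.DivC: chains of letters divisible by `D`

`GD D j q P`: the chains of `chain j J0 q P` all of whose letters are divisible by `D`: a positive proportion
of all chains (`card_GD`), and the values of two different ones are well separated, the separation being the
same up to constants for all functions of a family (`sep_GD`).
-/

namespace XWar

open TWar MWg FWar YWar Finset MeasureTheory Filter Topology

/-- Chains of letters divisible by `D`. -/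
noncomputable def GD (D j q : ℕ) (P : ℝ) : Finset (List (ℕ × ℕ)) :=
  open Classical in (chain j J0 q P).filter (fun g => ∀ p ∈ g, D ∣ p.1)

theorem mem_GD {D j q : ℕ} {P : ℝ} {g : List (ℕ × ℕ)} :
    g ∈ GD D j q P ↔ g ∈ chain j J0 q P ∧ ∀ p ∈ g, D ∣ p.1 := by
  classical
  unfold GD
  rw [Finset.mem_filter]

theorem mem_GD_succ {D j q : ℕ} {P : ℝ} {g : List (ℕ × ℕ)} :
    g ∈ GD D j (q + 1) P ↔ ∃ u ∈ mainI P, D ∣ u ∧ ∃ h ∈ GD D j q (nxt j P), g = (u, 0) :: h := by
  rw [mem_GD, mem_chain_succ]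
  constructor
  · rintro ⟨⟨u, hu, v, hv, h, hh, rfl⟩, hd⟩
    have hv0 : v = 0 := by simpa [J0] using hv
    subst hv0
    refine ⟨u, hu, hd (u, 0) (by simp), h, ?_, rfl⟩
    rw [mem_GD]
    exact ⟨hh, fun p hp => hd p (by simp [hp])⟩
  · rintro ⟨u, hu, hdu, h, hh, rfl⟩
    rw [mem_GD] at hh
    refine ⟨⟨u, hu, 0, by simp [J0], h, hh.1, rfl⟩, ?_⟩
    intro p hp
    rcases List.mem_cons.1 hp with rfl | hp
    · exact hdu
    · exact hh.2 p hp

private theorem card_div {D : ℕ} (hD : 1 ≤ D) {P : ℝ} (hP : (D : ℝ) ≤ P) :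
    ((mainI P).card : ℝ) ≤ 16 * D * (((mainI P).filter (fun u => D ∣ u)).card : ℝ) := by
  have hD0 : (1 : ℝ) ≤ D := by exact_mod_cast hD
  have hP1 : 1 ≤ P := hD0.trans hP
  have hP0 : 0 < P := by linarith
  -- multiples `D m`, `P < D m ≤ 16 P`
  have h1 : ((Finset.Ioc ⌊P / D⌋₊ ⌊16 * P / D⌋₊).card : ℝ) ≤
      (((mainI P).filter (fun u => D ∣ u)).card : ℝ) := by
    refine Nat.cast_le.2 (Finset.card_le_card_of_injOn (fun m => D * m) ?_ ?_)
    · intro m hm
      rw [Finset.mem_coe, Finset.mem_Ioc, Nat.floor_lt (by positivity),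
        Nat.le_floor_iff (by positivity)] at hm
      rw [Finset.mem_coe, Finset.mem_filter, mem_mainI hP0.le]
      obtain ⟨h2, h3⟩ := hm
      rw [div_lt_iff₀ (by linarith)] at h2
      rw [le_div_iff₀ (by linarith)] at h3
      push_cast
      exact ⟨⟨by linarith, by linarith⟩, dvd_mul_right _ _⟩
    · intro m _ m' _ h
      exact Nat.eq_of_mul_eq_mul_left hD h
  have h2 : P / D ≤ ((Finset.Ioc ⌊P / D⌋₊ ⌊16 * P / D⌋₊).card : ℝ) := by
    have h4 : P / D ≤ 16 * P / D := by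
      apply div_le_div_of_nonneg_right _ (by linarith)
      linarith
    rw [Nat.card_Ioc, Nat.cast_sub (Nat.floor_le_floor h4)]
    have h5 := Nat.lt_floor_add_one (16 * P / D)
    have h6 := Nat.floor_le (show (0 : ℝ) ≤ P / D by positivity)
    have h7 : 1 ≤ P / D := by
      rw [le_div_iff₀ (by linarith)]
      linarith
    have h8 : 16 * P / D = 16 * (P / D) := by ring
    rw [h8] at h5 ⊢
    linarith
  have h3 := card_mainI_le hP1
  have h4 : P ≤ D * (((mainI P).filter (fun u => D ∣ u)).card : ℝ) := by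
    have := h2.trans h1
    rw [div_le_iff₀ (by linarith)] at this
    linarith
  linarith

theorem card_GD {D j : ℕ} (hD : 1 ≤ D) (hj : 2 ≤ j) (q : ℕ) : ∃ P0 : ℝ, 1 ≤ P0 ∧ ∀ P, P0 ≤ P →
    ((chain j J0 q P).card : ℝ) ≤ (16 * D) ^ q * ((GD D j q P).card : ℝ) := by
  classical
  induction q with
  | zero =>
    refine ⟨1, le_rfl, fun P hP => ?_⟩
    have : chain j J0 0 P ⊆ GD D j 0 P := by
      intro g hg
      rw [mem_GD]
      refine ⟨hg, fun p hp => ?_⟩
      rw [mem_chain_zero] at hg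
      rw [hg] at hp
      exact absurd hp (by simp)
    have h := Finset.card_le_card this
    rw [pow_zero, one_mul]
    exact_mod_cast h
  | succ q ih =>
    obtain ⟨P0, hP0, ih⟩ := ih
    obtain ⟨P1, h1⟩ := eventually_atTop.1 ((nxt_tendsto hj).eventually_ge_atTop P0)
    refine ⟨max (max 1 P1) D, (le_max_left _ _).trans (le_max_left _ _), fun P hP => ?_⟩
    have hPP1 : P1 ≤ P := ((le_max_right _ _).trans (le_max_left _ _)).trans hP
    have hPD : (D : ℝ) ≤ P := (le_max_right _ _).trans hP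
    have h2 := ih (nxt j P) (h1 P hPP1)
    have h3 := card_div hD hPD
    have h4 : ((chain j J0 (q + 1) P).card : ℝ) ≤
        ((mainI P).card : ℝ) * ((chain j J0 q (nxt j P)).card : ℝ) := by
      have h5 : chain j J0 (q + 1) P ⊆
          ((mainI P) ×ˢ chain j J0 q (nxt j P)).image (fun p => (p.1, 0) :: p.2) := by
        intro g hg
        obtain ⟨u, hu, v, hv, h, hh, rfl⟩ := mem_chain_succ.1 hg
        have hv0 : v = 0 := by simpa [J0] using hv
        subst hv0
        rw [Finset.mem_image]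
        exact ⟨(u, h), Finset.mem_product.2 ⟨hu, hh⟩, rfl⟩
      have h6 := (Finset.card_le_card h5).trans Finset.card_image_le
      rw [Finset.card_product] at h6
      exact_mod_cast h6
    have h5 : (((mainI P).filter (fun u => D ∣ u)).card : ℝ) * ((GD D j q (nxt j P)).card : ℝ) ≤
        ((GD D j (q + 1) P).card : ℝ) := by
      rw [← Nat.cast_mul, ← Finset.card_product]
      refine Nat.cast_le.2 (Finset.card_le_card_of_injOn (fun p => (p.1, 0) :: p.2) ?_ ?_)
      · rintro ⟨u, h⟩ hp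
        rw [Finset.mem_coe, Finset.mem_product, Finset.mem_filter] at hp
        rw [Finset.mem_coe, mem_GD_succ]
        exact ⟨u, hp.1.1, hp.1.2, h, hp.2, rfl⟩
      · rintro ⟨u, h⟩ _ ⟨u', h'⟩ _ he
        simp only [List.cons.injEq, Prod.mk.injEq, and_true] at he
        rw [he.1, he.2]
    have h6 : (0 : ℝ) ≤ ((GD D j q (nxt j P)).card : ℝ) := Nat.cast_nonneg _
    have h7 : (0 : ℝ) ≤ ((mainI P).card : ℝ) := Nat.cast_nonneg _
    calc ((chain j J0 (q + 1) P).card : ℝ)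
        ≤ ((mainI P).card : ℝ) * ((chain j J0 q (nxt j P)).card : ℝ) := h4
      _ ≤ ((mainI P).card : ℝ) * ((16 * D) ^ q * ((GD D j q (nxt j P)).card : ℝ)) :=
          mul_le_mul_of_nonneg_left h2 h7
      _ ≤ (16 * D * (((mainI P).filter (fun u => D ∣ u)).card : ℝ)) *
          ((16 * D) ^ q * ((GD D j q (nxt j P)).card : ℝ)) :=
          mul_le_mul_of_nonneg_right h3 (by positivity)
      _ = (16 * D) ^ (q + 1) * ((((mainI P).filter (fun u => D ∣ u)).card : ℝ) *
          ((GD D j q (nxt j P)).card : ℝ)) := by ring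
      _ ≤ _ := mul_le_mul_of_nonneg_left h5 (by positivity)

/-- Uniform bounds for a family of functions `ψ s`, `s ∈ I`. -/
structure Fam (j : ℕ) (I : Set ℝ) (ψ : ℝ → ℕ → ℝ) : Prop where
  low : ∃ c : ℝ, 0 < c ∧ ∃ P0 : ℝ, ∀ P, P0 ≤ P → ∀ s ∈ I, ∀ u ∈ mainI P, ∀ u' ∈ mainI P,
    c * (P ^ (j - 1) * |(u : ℝ) - u'|) ≤ |ψ s u - ψ s u'|
  up : ∃ C : ℝ, 0 < C ∧ ∃ P0 : ℝ, ∀ P, P0 ≤ P → ∀ s ∈ I, ∀ u ∈ mainI P, ∀ u' ∈ mainI P,
    |ψ s u - ψ s u'| ≤ C * (P ^ (j - 1) * |(u : ℝ) - u'|)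
  bd : ∃ C : ℝ, 0 < C ∧ ∃ P0 : ℝ, ∀ P, P0 ≤ P → ∀ s ∈ I, ∀ u ∈ mainI P, |ψ s u| ≤ C * P ^ j

theorem fam_val {j : ℕ} (hj : 2 ≤ j) {I : Set ℝ} {ψ : ℝ → ℕ → ℝ} (h : Fam j I ψ) (q : ℕ) :
    ∃ C : ℝ, 0 < C ∧ ∃ P0 : ℝ, ∀ P, P0 ≤ P → ∀ s ∈ I, ∀ g ∈ chain j J0 q P,
      |val (ψ s) (fun _ => 0) g| ≤ C * P ^ j := by
  induction q with
  | zero =>
    refine ⟨1, one_pos, 1, fun P hP s _ g hg => ?_⟩
    rw [mem_chain_zero] at hg
    rw [hg, val_nil, abs_zero]
    positivity
  | succ q ih =>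
    obtain ⟨C, hC, P0, ih⟩ := ih
    obtain ⟨C1, hC1, P1, h1⟩ := h.bd
    obtain ⟨P2, h2⟩ := eventually_atTop.1 ((nxt_tendsto hj).eventually_ge_atTop P0)
    refine ⟨C1 + C * ((j : ℝ) * 16 ^ j), by positivity, max 1 (max P1 P2), fun P hP s hs g hg => ?_⟩
    have hP1 : 1 ≤ P := (le_max_left _ _).trans hP
    have hPP1 : P1 ≤ P := ((le_max_left _ _).trans (le_max_right _ _)).trans hP
    have hPP2 : P2 ≤ P := ((le_max_right _ _).trans (le_max_right _ _)).trans hP
    obtain ⟨u, hu, v, hv, g', hg', rfl⟩ := mem_chain_succ.1 hg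
    rw [val_cons]
    have h3 := h1 P hPP1 s hs u hu
    have h4 := ih (nxt j P) (h2 P hPP2) s hs g' hg'
    rw [nxt_pow (by omega) (by linarith)] at h4
    have h5 : P ^ (j - 1) ≤ P ^ j := pow_le_pow_right₀ hP1 (by omega)
    have h6 : C * ((j : ℝ) * 16 ^ j * P ^ (j - 1)) ≤ C * ((j : ℝ) * 16 ^ j) * P ^ j := by
      have h7 := mul_le_mul_of_nonneg_left h5 (by positivity : 0 ≤ C * ((j : ℝ) * 16 ^ j))
      calc C * ((j : ℝ) * 16 ^ j * P ^ (j - 1)) = C * ((j : ℝ) * 16 ^ j) * P ^ (j - 1) := by ring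
        _ ≤ _ := h7
    have h7 := abs_add_le (ψ s u + 0) (val (ψ s) (fun _ => 0) g')
    rw [add_zero] at h7 ⊢
    linarith

theorem sep_GD {j : ℕ} (hj : 2 ≤ j) {I : Set ℝ} {ψ : ℝ → ℕ → ℝ} (h : Fam j I ψ) (q : ℕ) :
    ∃ D0 : ℕ, ∃ c : ℝ, 0 < c ∧ ∃ C : ℝ, 0 < C ∧ ∃ P0 : ℝ, ∀ D : ℕ, D0 ≤ D → ∀ P, P0 ≤ P →
      ∀ g ∈ GD D j q P, ∀ g' ∈ GD D j q P, g ≠ g' → ∃ B : ℝ, 1 ≤ B ∧ ∀ s ∈ I,
        c * B ≤ |val (ψ s) (fun _ => 0) g - val (ψ s) (fun _ => 0) g'| ∧
        |val (ψ s) (fun _ => 0) g - val (ψ s) (fun _ => 0) g'| ≤ C * B := by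
  induction q with
  | zero =>
    refine ⟨0, 1, one_pos, 1, one_pos, 0, fun D _ P _ g hg g' hg' hne => ?_⟩
    rw [mem_GD, mem_chain_zero] at hg hg'
    exact absurd (hg.1.trans hg'.1.symm) hne
  | succ q ih =>
    obtain ⟨D0, c, hc, C, hC, P0, ih⟩ := ih
    obtain ⟨cl, hcl, P1, hlow⟩ := h.low
    obtain ⟨Cu, hCu, P2, hup⟩ := h.up
    obtain ⟨Cv, hCv, P3, hval⟩ := fam_val hj h q
    obtain ⟨P4, h4⟩ := eventually_atTop.1 ((nxt_tendsto hj).eventually_ge_atTop (max P0 P3))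
    obtain ⟨K, hK⟩ : ∃ K : ℝ, K = 2 * Cv * ((j : ℝ) * 16 ^ j) := ⟨_, rfl⟩
    have hj0 : (0 : ℝ) < j := by exact_mod_cast (by omega : 0 < j)
    have hK0 : 0 < K := by rw [hK]; positivity
    obtain ⟨D1, hD1⟩ := exists_nat_ge (2 * K / cl)
    refine ⟨max (max D0 D1) 1, min c (cl / 2), lt_min hc (by positivity), max C (Cu + K),
      lt_of_lt_of_le hC (le_max_left _ _), max (max 1 P1) (max P2 P4), fun D hD P hP g hg g' hg' hne => ?_⟩
    have hP1 : 1 ≤ P := ((le_max_left _ _).trans (le_max_left _ _)).trans hP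
    have hPP1 : P1 ≤ P := ((le_max_right _ _).trans (le_max_left _ _)).trans hP
    have hPP2 : P2 ≤ P := ((le_max_left _ _).trans (le_max_right _ _)).trans hP
    have hPP4 : P4 ≤ P := ((le_max_right _ _).trans (le_max_right _ _)).trans hP
    have hDD0 : D0 ≤ D := ((le_max_left _ _).trans (le_max_left _ _)).trans hD
    have hDD1 : D1 ≤ D := ((le_max_right _ _).trans (le_max_left _ _)).trans hD
    have hDone : 1 ≤ D := (le_max_right _ _).trans hD
    have hnx := h4 P hPP4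
    have hnx0 : P0 ≤ nxt j P := (le_max_left _ _).trans hnx
    have hnx3 : P3 ≤ nxt j P := (le_max_right _ _).trans hnx
    obtain ⟨u, hu, hDu, k, hk, rfl⟩ := mem_GD_succ.1 hg
    obtain ⟨u', hu', hDu', k', hk', rfl⟩ := mem_GD_succ.1 hg'
    by_cases huu : u = u'
    · subst huu
      have hkk : k ≠ k' := fun h => hne (by rw [h])
      obtain ⟨B, hB, hBs⟩ := ih D hDD0 (nxt j P) hnx0 k hk k' hk' hkk
      refine ⟨B, hB, fun s hs => ?_⟩
      rw [val_cons, val_cons]
      have e1 : ψ s u + 0 + val (ψ s) (fun _ => 0) k - (ψ s u + 0 + val (ψ s) (fun _ => 0) k') =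
        val (ψ s) (fun _ => 0) k - val (ψ s) (fun _ => 0) k' := by ring
      rw [e1]
      obtain ⟨h5, h6⟩ := hBs s hs
      constructor
      · exact (mul_le_mul_of_nonneg_right (min_le_left _ _) (by linarith)).trans h5
      · exact h6.trans (mul_le_mul_of_nonneg_right (le_max_left _ _) (by linarith))
    · -- different first letters
      have hdiv : (D : ℝ) ≤ |(u : ℝ) - u'| := by
        obtain ⟨a, rfl⟩ := hDu
        obtain ⟨b, rfl⟩ := hDu'
        have hab : a ≠ b := fun h => huu (by rw [h])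
        have h5 : (1 : ℝ) ≤ |(a : ℝ) - b| := by
          have h6 : (1 : ℤ) ≤ |(a : ℤ) - b| := by
            apply Int.one_le_abs
            intro h7
            apply hab
            omega
          have h7 : ((1 : ℤ) : ℝ) ≤ ((|(a : ℤ) - b| : ℤ) : ℝ) := by exact_mod_cast h6
          push_cast at h7
          exact h7
        push_cast
        rw [← mul_sub, abs_mul, Nat.abs_cast]
        have h6 : (0 : ℝ) ≤ D := Nat.cast_nonneg D
        nlinarith
      have hDone' : (1 : ℝ) ≤ D := by exact_mod_cast hDone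
      have hDD1' : 2 * K / cl ≤ D := hD1.trans (by exact_mod_cast hDD1)
      have hPj : 1 ≤ P ^ (j - 1) := one_le_pow₀ hP1
      refine ⟨P ^ (j - 1) * |(u : ℝ) - u'|, ?_, fun s hs => ?_⟩
      · nlinarith
      · rw [val_cons, val_cons]
        have v1 := hval (nxt j P) hnx3 s hs k (mem_GD.1 hk).1
        have v2 := hval (nxt j P) hnx3 s hs k' (mem_GD.1 hk').1
        rw [nxt_pow (by omega) (by linarith)] at v1 v2
        have h5 := hlow P hPP1 s hs u hu u' hu'
        have h6 := hup P hPP2 s hs u hu u' hu'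
        obtain ⟨B, hB⟩ : ∃ B, B = P ^ (j - 1) * |(u : ℝ) - u'| := ⟨_, rfl⟩
        rw [← hB] at h5 h6 ⊢
        have h7 : K * P ^ (j - 1) ≤ cl / 2 * B := by
          rw [div_le_iff₀ hcl] at hDD1'
          have h8 : 2 * K ≤ |(u : ℝ) - u'| * cl := hDD1'.trans (mul_le_mul_of_nonneg_right hdiv hcl.le)
          have h9 := mul_le_mul_of_nonneg_right h8 (by linarith : 0 ≤ P ^ (j - 1))
          rw [hB]
          linarith
        have h8 : K * P ^ (j - 1) ≤ K * B := by
          apply mul_le_mul_of_nonneg_left _ hK0.le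
          rw [hB]
          have := hDone'.trans hdiv
          nlinarith
        have h9 : |val (ψ s) (fun _ => 0) k - val (ψ s) (fun _ => 0) k'| ≤ K * P ^ (j - 1) := by
          have h10 := abs_sub (val (ψ s) (fun _ => 0) k) (val (ψ s) (fun _ => 0) k')
          rw [hK]
          linarith
        have e1 : ψ s u + 0 + val (ψ s) (fun _ => 0) k - (ψ s u' + 0 + val (ψ s) (fun _ => 0) k') =
          (ψ s u - ψ s u') + (val (ψ s) (fun _ => 0) k - val (ψ s) (fun _ => 0) k') := by ring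
        rw [e1]
        have hB0 : 0 ≤ B := by rw [hB]; positivity
        constructor
        · have h10 := abs_sub_abs_le_abs_sub (ψ s u - ψ s u')
            (-(val (ψ s) (fun _ => 0) k - val (ψ s) (fun _ => 0) k'))
          rw [sub_neg_eq_add, abs_neg] at h10
          have h11 : min c (cl / 2) * B ≤ cl / 2 * B :=
            mul_le_mul_of_nonneg_right (min_le_right _ _) hB0
          linarith
        · have h10 := abs_add_le (ψ s u - ψ s u')
            (val (ψ s) (fun _ => 0) k - val (ψ s) (fun _ => 0) k')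
          have h11 : (Cu + K) * B ≤ max C (Cu + K) * B :=
            mul_le_mul_of_nonneg_right (le_max_right _ _) hB0
          linarith

end XWar
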