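import Pool.Agent.XWar.AeCv
import Pool.Agent.YWar.FinCv

/-!
# XWar.FinC: plain powers and values of a polynomial on a curve of polynomials

As `Pool/Agent/XWar/FinX.lean`, for almost every point of a curve `s ↦ fc k j g c s`, the letters of the
polynomial being divisible by a large `D`.
-/

namespace XWar

open TWar MWg FWar YWar Finset MeasureTheory Filter Topology

private theorem FinC_grow {k : ℕ} (hk : 2 ≤ k) {α : ℝ} (hα : 0 < α) {h : ℕ → ℝ} (hh : Good k h) :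
    Grow k α (fun x => α * h x) := by
  refine ⟨hα, ?_, ?_⟩
  · have h1 := (good_lim (by omega : 1 ≤ k) hh).const_mul α
    rw [mul_one] at h1
    refine h1.congr fun x => ?_
    rw [Real.rpow_natCast, mul_div_assoc]
  · obtain ⟨x0, hx0⟩ := good_step hk hh
    refine ⟨α * (2 * k * 2 ^ (k - 1)), ?_⟩
    filter_upwards [eventually_ge_atTop x0, eventually_ge_atTop 1] with x hx hx1
    obtain ⟨h1, h2⟩ := hx0 x (x + 1) hx (Nat.le_succ x)
    have hx1' : (1 : ℝ) ≤ x := by exact_mod_cast hx1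
    have e1 : (((x + 1 : ℕ) : ℝ) - x) = 1 := by push_cast; ring
    rw [e1, mul_one] at h1 h2
    have e2 : (x : ℝ) ^ ((k : ℝ) - 1) = (x : ℝ) ^ (k - 1) := by
      rw [← Real.rpow_natCast, Nat.cast_sub (by omega : 1 ≤ k), Nat.cast_one]
    have h3 : (((x + 1 : ℕ) : ℝ)) ^ (k - 1) ≤ (2 * (x : ℝ)) ^ (k - 1) := by
      apply pow_le_pow_left₀ (by positivity)
      push_cast
      linarith
    rw [mul_pow] at h3
    have h4 : (0 : ℝ) ≤ (x : ℝ) ^ (k - 1) := by positivity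
    refine ⟨?_, ?_⟩
    · rw [← mul_sub]
      exact mul_nonneg hα.le (by linarith)
    · rw [← mul_sub, e2, mul_assoc α]
      apply mul_le_mul_of_nonneg_left _ hα.le
      calc h (x + 1) - h x ≤ 2 * k * ((x + 1 : ℕ) : ℝ) ^ (k - 1) := h2
        _ ≤ 2 * k * (2 ^ (k - 1) * (x : ℝ) ^ (k - 1)) :=
            mul_le_mul_of_nonneg_left h3 (by positivity)
        _ = 2 * k * 2 ^ (k - 1) * (x : ℝ) ^ (k - 1) := by ring

/-- The integer sums for one function `f`. -/
theorem mixC_fixed {D k j q1 q2 : ℕ} (hD : 1 ≤ D) (hj : 2 ≤ j) (hjk : j < k) {σ : ℝ} (hσ : 0 < σ)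
    (hW : ∀ (α : ℝ) (g : Polynomial ℝ), 0 < α → g.natDegree < k → Dioph (g.coeff j / α) →
      ∀ᶠ r : ℕ in atTop, ∀ θ : ℝ, (XX r) ^ ((1 : ℝ) / 4 - k) ≤ |θ| → |θ| ≤ (XX r) ^ σ →
      ‖∑ z ∈ J1 (XX r), Pool.PolyMax.e (θ * (α * (z : ℝ) ^ k + g.eval (z : ℝ)))‖ ≤ (XX r) ^ (1 - σ))
    {G : Polynomial ℝ} (hG : G.natDegree < k) (hDio : Dioph (G.coeff j)) {f : ℕ → ℝ}
    (hf : ∀ x : ℕ, f x = (x : ℝ) ^ k + G.eval (x : ℝ))
    (htA : ∀ M : ℝ, ∀ᶠ r : ℕ in atTop,
      pairs (XD D k j q1 q2 r) (fun p => |aT k f p.1 - aT k f p.2| ≤ M) ≤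
      (XX r) ^ (σ / 8) * ((XD D k j q1 q2 r).card : ℝ) ^ 2 / (XX r) ^ k) :
    ∀ A : ℕ, 1 ≤ A → MixL k A f (2 * (q1 + 1)) (2 * q2 + 1) := by
  intro A hA1
  have hA0 : (0 : ℝ) < A := by
    have : 0 < A := hA1
    exact_mod_cast this
  have hh' : Good k f := by
    have e : f = fun x : ℕ => (x : ℝ) ^ k + G.eval (x : ℝ) := by
      funext x
      exact hf x
    rw [e]
    exact FinT_good0 (by omega : 2 ≤ k) hG
  obtain ⟨R0, hR0, hsz⟩ := sizeGX hj hjk hh' q2
  have key := floor_basisT (κ := (k : ℝ)) (α := (A : ℝ)) (σ := σ)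
    (F := fun x : ℕ => (A : ℝ) * (x : ℝ) ^ k) (f := fun x : ℕ => (A : ℝ) * f x) (d := q2)
    (W := fun r => CT k q1 r ×ˢ GD D j q2 (XX r / 512))
    (sv := fun w => iv A k w.1 + fv (fun x => (A : ℝ) * f x) w.2)
    (rv := fun w => (A : ℝ) * val (fun x => (x : ℝ) ^ k) (fun _ => 0) w.1 +
      val (fun x => (A : ℝ) * f x) (fun _ => 0) w.2)
    (by have : (3 : ℝ) ≤ k := by exact_mod_cast (by omega : 3 ≤ k)
        linarith) hσ
    (FinC_grow (by omega) hA0 (good_pow (by omega : 1 ≤ k))) (FinC_grow (by omega) hA0 hh')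
    ?_ ?_ ?_ ?_ ?_
  · obtain ⟨N0, hN0⟩ := key
    refine ⟨N0, fun N hN => ?_⟩
    obtain ⟨r, u, hu, w, hw, u', hu', w', hw', z, hz, heq⟩ := hN0 N hN
    have hP := XX_pos r
    have hw1 := Finset.mem_product.1 hw
    have hw1' := Finset.mem_product.1 hw'
    have hwc := (mem_GD.1 hw1.2).1
    have hwc' := (mem_GD.1 hw1'.2).1
    have q3 : ∀ x ∈ mainI (XX r), 1 ≤ x := by
      intro x hx
      have h1 := ((mem_mainI hP.le).1 hx).1
      have h2 : (0 : ℝ) < (x : ℝ) := by linarith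
      have : 0 < x := by exact_mod_cast h2
      omega
    refine ⟨(u :: w.1.map Prod.fst) ++ (u' :: w'.1.map Prod.fst),
      w.2.map Prod.fst ++ (w'.2.map Prod.fst ++ [z]), ?_, ?_, ?_, ?_, ?_⟩
    · have l1 := chain_length hw1.1
      have l2 := chain_length hw1'.1
      simp only [List.length_append, List.length_cons, List.length_map]
      rw [l1, l2]
      ring
    · have l1 := chain_length hwc
      have l2 := chain_length hwc'
      simp only [List.length_append, List.length_cons, List.length_map, List.length_nil]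
      rw [l1, l2]
      ring
    · intro n hn
      simp only [List.mem_append, List.mem_cons, List.mem_map] at hn
      rcases hn with (rfl | ⟨p, hp, rfl⟩) | (rfl | ⟨p, hp, rfl⟩)
      · exact q3 _ hu
      · exact chain_fst_pos hw1.1 p hp
      · exact q3 _ hu'
      · exact chain_fst_pos hw1'.1 p hp
    · intro n hn
      simp only [List.mem_append, List.mem_cons, List.mem_map, List.not_mem_nil, or_false] at hn
      rcases hn with ⟨p, hp, rfl⟩ | (⟨p, hp, rfl⟩ | rfl)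
      · exact chain_fst_pos hwc p hp
      · exact chain_fst_pos hwc' p hp
      · have h1 := ((mem_J1 hP.le).1 hz).1
        have h2 : (0 : ℝ) < (n : ℝ) := by linarith
        have : 0 < n := by exact_mod_cast h2
        omega
    · rw [← heq]
      have e1 : ∀ x : ℕ, ⌊(A : ℝ) * (x : ℝ) ^ k⌋ = (A : ℤ) * (x : ℤ) ^ k := by
        intro x
        have : (A : ℝ) * (x : ℝ) ^ k = (((A : ℤ) * (x : ℤ) ^ k : ℤ) : ℝ) := by push_cast; rfl
        rw [this, Int.floor_intCast]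
      rw [e1, e1, List.map_append, List.map_cons, List.map_cons, List.sum_append, List.sum_cons,
        List.sum_cons, iv_map, iv_map]
      have e2 : fs (fun x => (A : ℝ) * f x)
          (w.2.map Prod.fst ++ (w'.2.map Prod.fst ++ [z])) =
          fv (fun x => (A : ℝ) * f x) w.2 + (fv (fun x => (A : ℝ) * f x) w'.2 +
            ⌊(A : ℝ) * f z⌋) := by
        rw [← fv_map, ← fv_map]
        simp [fs]
      rw [e2]
      ring
  · -- Weyl
    obtain ⟨g', hg'⟩ : ∃ g' : Polynomial ℝ, g' = Polynomial.C (A : ℝ) * G := ⟨_, rfl⟩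
    have hd' : g'.natDegree < k := by
      rw [hg']
      exact lt_of_le_of_lt (Polynomial.natDegree_C_mul_le _ _) hG
    have hc' : g'.coeff j / (A : ℝ) = G.coeff j := by
      rw [hg', Polynomial.coeff_C_mul]
      field_simp
    have h1 := hW A g' hA0 hd' (by rw [hc']; exact hDio)
    filter_upwards [h1] with r hr θ hθ1 hθ2
    have h2 := hr θ hθ1 hθ2
    refine le_trans (le_of_eq ?_) h2
    congr 1
    refine sum_congr rfl fun z _ => ?_
    congr 2
    rw [hg', hf, Polynomial.eval_mul, Polynomial.eval_C]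
    ring
  · -- values
    intro r w hw
    have hw1 := Finset.mem_product.1 hw
    have h1 := fv_val (fun x => (A : ℝ) * f x) w.2
    have l1 := chain_length (mem_GD.1 hw1.2).1
    rw [l1] at h1
    push_cast
    rw [iv_val]
    constructor
    · linarith [h1.1]
    · linarith [h1.2]
  · -- nonempty
    filter_upwards [card_XD_pos hD q1 q2 hj hjk] with r hr
    have h1 : 0 < (XD D k j q1 q2 r).card := by exact_mod_cast hr
    rw [Finset.card_pos] at h1
    obtain ⟨w, hw⟩ := h1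
    unfold XD at hw
    exact ⟨w.2, (Finset.mem_product.1 hw).2⟩
  · -- sizes
    filter_upwards [sizeC (by omega : 3 ≤ k) q1, XX_tendsto.eventually_ge_atTop (512 * R0)] with r hr1 hr2 w hw
    have hP := XX_pos r
    have hw1 := Finset.mem_product.1 hw
    have h1 := hr1 w.1 hw1.1
    have h2 := hsz (XX r / 512) (by rw [le_div_iff₀ (by norm_num)]; linarith) w.2 (mem_GD.1 hw1.2).1
    have h3 : 2 * (16 * (XX r / 512)) ^ k ≤ (XX r) ^ k / 16 := by
      have e1 : 16 * (XX r / 512) = XX r / 32 := by ring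
      rw [e1, div_pow]
      have e2 : (XX r) ^ k / 32 ^ k ≤ (XX r) ^ k / 32 := by
        apply div_le_div_of_nonneg_left (by positivity) (by norm_num)
        exact le_self_pow₀ (by norm_num) (by omega)
      linarith
    rw [val_mul, Real.rpow_natCast, ← mul_add, abs_mul, abs_of_pos hA0, mul_div_assoc]
    apply mul_le_mul_of_nonneg_left _ hA0.le
    have h4 := abs_add_le (val (fun x => (x : ℝ) ^ k) (fun _ => 0) w.1)
      (val f (fun _ => 0) w.2)
    have h5 : 0 ≤ (XX r) ^ k := by positivity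
    linarith
  · -- coincidences
    have h1 := htA (((q2 : ℝ) + 1) / A)
    filter_upwards [h1] with r hr
    rw [Real.rpow_natCast]
    refine le_trans (pairs_mono _ ?_) hr
    intro w _ w' _ hww
    dsimp only at hww ⊢
    have e1 : ∀ w : ℕ × (List (ℕ × ℕ) × List (ℕ × ℕ)), (A : ℝ) * (w.1 : ℝ) ^ k +
        ((A : ℝ) * val (fun x => (x : ℝ) ^ k) (fun _ => 0) w.2.1 +
          val (fun x => (A : ℝ) * f x) (fun _ => 0) w.2.2) =
        A * aT k f w := by
      intro w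
      rw [val_mul]
      unfold aT
      ring
    rw [e1 w, e1 w', ← mul_sub, abs_mul, abs_of_pos hA0] at hww
    rwa [le_div_iff₀' hA0]

private theorem FinC_anti {f f' : ℝ → ℝ} {a b δ0 : ℝ} (hδ0 : 0 < δ0)
    (hf : ∀ t, HasDerivAt f (f' t) t) (hlow : ∀ t ∈ Set.Icc a b, δ0 ≤ |f' t|) :
    ∀ x ∈ Set.Icc a b, ∀ y ∈ Set.Icc a b, δ0 * |x - y| ≤ |f x - f y| := by
  have hlt : ∀ x ∈ Set.Icc a b, ∀ y ∈ Set.Icc a b, x < y → δ0 * |x - y| ≤ |f x - f y| := by
    intro x hx y hy hxy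
    obtain ⟨z, hz, hz2⟩ := exists_hasDerivAt_eq_slope f f' hxy
      (fun t _ => (hf t).continuousAt.continuousWithinAt) (fun t _ => hf t)
    have h1 := hlow z ⟨by linarith [hx.1, hz.1], by linarith [hy.2, hz.2]⟩
    have h2 : f y - f x = f' z * (y - x) := by
      rw [hz2]
      field_simp [(by linarith : y - x ≠ 0)]
    rw [abs_sub_comm (f x), h2, abs_mul, abs_sub_comm x]
    exact mul_le_mul_of_nonneg_right h1 (abs_nonneg _)
  intro x hx y hy
  rcases lt_trichotomy x y with h | h | h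
  · exact hlt x hx y hy h
  · rw [h]
    simp
  · rw [abs_sub_comm, abs_sub_comm (f x)]
    exact hlt y hy x hx h

private theorem FinC_dioph {f f' : ℝ → ℝ} {a b δ0 : ℝ} (hδ0 : 0 < δ0)
    (hf : ∀ t, HasDerivAt f (f' t) t) (hlow : ∀ t ∈ Set.Icc a b, δ0 ≤ |f' t|) :
    dimH {t : ℝ | t ∈ Set.Icc a b ∧ ¬ Dioph (f t)} ≤ ENNReal.ofReal (3 / 4) := by
  have h0 : dimH {y : ℝ | ¬ Dioph y} ≤ ENNReal.ofReal (3 / 4) := by
    have h := dim_dioph_affine (b := 0) (c := 1) one_ne_zero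
    simpa using h
  have hanti := FinC_anti hδ0 hf hlow
  obtain ⟨F, hF⟩ : ∃ F : Set.Icc a b → ℝ, F = fun t : Set.Icc a b => f t.1 := ⟨_, rfl⟩
  have hA : AntilipschitzWith (⟨1 / δ0, by positivity⟩ : NNReal) F := by
    refine AntilipschitzWith.of_le_mul_dist fun x y => ?_
    rw [hF]
    show dist (x : ℝ) (y : ℝ) ≤ (1 / δ0) * dist (f x) (f y)
    rw [Real.dist_eq, Real.dist_eq]
    have := hanti x x.2 y y.2
    rw [one_div, ← div_eq_inv_mul, le_div_iff₀ hδ0]
    linarith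
  have himg : {t : ℝ | t ∈ Set.Icc a b ∧ ¬ Dioph (f t)} =
      Subtype.val '' (F ⁻¹' {y : ℝ | ¬ Dioph y}) := by
    ext t
    constructor
    · rintro ⟨ht, h⟩
      exact ⟨⟨t, ht⟩, by rw [hF]; exact h, rfl⟩
    · rintro ⟨⟨s, hs⟩, h, rfl⟩
      rw [hF] at h
      exact ⟨hs, h⟩
  rw [himg, isometry_subtype_coe.dimH_image]
  exact (hA.dimH_preimage_le _).trans h0

private theorem FinC_ae {f f' : ℝ → ℝ} {a b δ0 : ℝ} (hδ0 : 0 < δ0)
    (hf : ∀ t, HasDerivAt f (f' t) t) (hlow : ∀ t ∈ Set.Icc a b, δ0 ≤ |f' t|) :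
    ∀ᵐ t : ℝ, t ∈ Set.Icc a b → Dioph (f t) := by
  have h1 := FinC_dioph hδ0 hf hlow
  have h2 : dimH {t : ℝ | t ∈ Set.Icc a b ∧ ¬ Dioph (f t)} < ((1 : NNReal) : ENNReal) := by
    refine lt_of_le_of_lt h1 ?_
    rw [ENNReal.coe_one, ← ENNReal.ofReal_one]
    exact (ENNReal.ofReal_lt_ofReal_iff one_pos).2 (by norm_num)
  have h3 := measure_zero_of_dimH_lt (μ := (volume : Measure ℝ)) (d := 1)
    (by
      rw [NNReal.coe_one, hausdorffMeasure_real]) h2
  rw [ae_iff]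
  have e : {t : ℝ | ¬ (t ∈ Set.Icc a b → Dioph (f t))} =
      {t : ℝ | t ∈ Set.Icc a b ∧ ¬ Dioph (f t)} := by
    ext t
    simp only [Set.mem_ofPred_eq, Classical.not_imp]
  rw [e]
  exact h3

/-- The polynomial at `s`. -/
noncomputable def GP (j : ℕ) (g : Polynomial ℝ) (c : ℕ → ℝ → ℝ) (s : ℝ) : Polynomial ℝ :=
  g + ∑ i ∈ Finset.range (j + 1), Polynomial.C (c i s) * Polynomial.X ^ i

theorem GP_deg {k j : ℕ} (hjk : j < k) {g : Polynomial ℝ} (hg : g.natDegree < k) (c : ℕ → ℝ → ℝ)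
    (s : ℝ) : (GP j g c s).natDegree < k := by
  unfold GP
  refine lt_of_le_of_lt (Polynomial.natDegree_add_le _ _) (max_lt hg ?_)
  have : (∑ i ∈ Finset.range (j + 1), Polynomial.C (c i s) * Polynomial.X ^ i).natDegree ≤ j := by
    apply Polynomial.natDegree_sum_le_of_forall_le
    intro i hi
    refine (Polynomial.natDegree_C_mul_X_pow_le _ _).trans ?_
    have := Finset.mem_range.1 hi
    omega
  omega

theorem GP_coeff (j : ℕ) (g : Polynomial ℝ) (c : ℕ → ℝ → ℝ) (s : ℝ) :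
    (GP j g c s).coeff j = g.coeff j + c j s := by
  unfold GP
  rw [Polynomial.coeff_add, Polynomial.finsetSum_coeff]
  simp only [Polynomial.coeff_C_mul_X_pow]
  rw [Finset.sum_ite_eq (range (j + 1)) j (fun i => c i s)]
  rw [if_pos (Finset.mem_range.2 (by omega))]

theorem GP_eval (k j : ℕ) (g : Polynomial ℝ) (c : ℕ → ℝ → ℝ) (s : ℝ) (x : ℕ) :
    fc k j g c s x = (x : ℝ) ^ k + (GP j g c s).eval (x : ℝ) := by
  unfold fc GP lo
  rw [Polynomial.eval_add, Polynomial.eval_finsetSum, add_assoc]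
  congr 2
  refine sum_congr rfl fun i _ => ?_
  rw [Polynomial.eval_mul, Polynomial.eval_C, Polynomial.eval_pow, Polynomial.eval_X]

theorem floor_mixC {k j q1 q2 : ℕ} (hj : 2 ≤ j) (hjk : j < k) (hq : xb k q1 + yg j q2 ≤ (j : ℝ))
    {g : Polynomial ℝ} (hg : g.natDegree < k)
    {c c1 : ℕ → ℝ → ℝ} (h1 : ∀ i < j + 1, ∀ s, HasDerivAt (c i) (c1 i s) s)
    {a b T δ0 : ℝ} (hab : a ≤ b) (hT : 0 ≤ T) (hδ0 : 0 < δ0)
    (hb : ∀ i < j + 1, ∀ s ∈ Set.Icc a b, |c1 i s| ≤ T)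
    (hlow : ∀ s ∈ Set.Icc a b, δ0 ≤ |c1 j s|) :
    ∀ᵐ s : ℝ, s ∈ Set.Icc a b → ∀ A : ℕ, 1 ≤ A →
      MixL k A (fc k j g c s) (2 * (q1 + 1)) (2 * q2 + 1) := by
  obtain ⟨σ, hσ, hW⟩ := weylG (by omega : 1 ≤ j) hjk
  obtain ⟨D, hD, hA⟩ := aeCv hj hjk hq g h1 hab hT hδ0 hb hlow (ε := σ / 8) (by linarith)
  have hDio := FinC_ae (f := fun s => g.coeff j + c j s) (f' := c1 j) hδ0
    (fun t => (h1 j (by omega) t).const_add _) hlow
  filter_upwards [hA, hDio] with s hs1 hs2 hs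
  have h2 := hs2 hs
  exact mixC_fixed hD hj hjk hσ hW (GP_deg hjk hg c s)
    (by rw [GP_coeff]; exact h2) (GP_eval k j g c s) (hs1 hs)

end XWar
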