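import Pool.Agent.FWar.Defs
import Pool.Agent.MWg.Tools
import Pool.Agent.PolyMax.InvWeyl

/-!
# XWar.WeylE: exponential sums, one letter with a plain power and one with a generic leading coefficient

If `|θ|` is not very small, the sums `∑ e(θ A z^k)` and `∑ e(θ A G(z))` are not both large, if the coefficient
of `x^k` in `G` is badly approximable in the sense of `Dioph`.
-/

namespace XWar

open MWg FWar Finset Filter Topology
open Pool.PolyMax (e dz)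

/-- the sum over `J1` as a difference of initial sums. -/
private theorem wg_sum (s : ℕ) (f : ℕ → ℂ) :
    ∑ z ∈ J1 (XX (s + 3)), f z =
      ∑ n ∈ range (2 ^ (s + 1) + 1), f n - ∑ n ∈ range (2 ^ s + 1), f n := by
  have h8 : XX (s + 3) / 8 = ((2 ^ s : ℕ) : ℝ) := by
    unfold XX
    push_cast
    rw [pow_add]
    norm_num
  have h4 : XX (s + 3) / 4 = ((2 ^ (s + 1) : ℕ) : ℝ) := by
    unfold XX
    push_cast
    rw [pow_add, pow_add]
    norm_num
    ring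
  unfold J1
  rw [h8, h4, Nat.floor_natCast, Nat.floor_natCast]
  have h1 : Finset.Ioc (2 ^ s) (2 ^ (s + 1)) = Finset.Ico (2 ^ s + 1) (2 ^ (s + 1) + 1) := by
    ext z
    simp only [Finset.mem_Ioc, Finset.mem_Ico]
    omega
  rw [h1, Finset.sum_Ico_eq_sub]
  have : 2 ^ s ≤ 2 ^ (s + 1) := Nat.pow_le_pow_right (by norm_num) (by omega)
  omega

/-- A large sum: the leading coefficient is close to a rational number. -/
theorem big_coef {k : ℕ} (hk : 1 ≤ k) : ∃ K σ : ℝ, 1 ≤ K ∧ 0 < σ ∧ σ ≤ 1 / 16 ∧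
    ∀ᶠ r : ℕ in atTop, ∀ G : Polynomial ℝ, G.natDegree ≤ k →
      (XX r) ^ (1 - σ) < ‖∑ z ∈ J1 (XX r), e (G.eval (z : ℝ))‖ →
      ∃ (q : ℕ) (m : ℤ), 1 ≤ q ∧ (q : ℝ) ≤ K * (XX r) ^ ((1 : ℝ) / 8) ∧
        |(q : ℝ) * G.coeff k - m| ≤ K * (XX r) ^ ((1 : ℝ) / 8) / (XX r) ^ k := by
  obtain ⟨C, hC1, hC⟩ := Pool.PolyMax.inverse_weyl k
  have hCr : (1 : ℝ) ≤ C := by exact_mod_cast hC1
  have h8k : (1 : ℝ) ≤ 8 ^ k := one_le_pow₀ (by norm_num)
  refine ⟨C * 8 ^ k, 1 / (16 * ((C : ℝ) + 1)), by nlinarith, by positivity, ?_, ?_⟩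
  · apply one_div_le_one_div_of_le (by norm_num)
    nlinarith
  set σ : ℝ := 1 / (16 * ((C : ℝ) + 1)) with hσ
  have hσ0 : 0 < σ := by rw [hσ]; positivity
  have hσC : σ * ((C : ℝ) + 1) = 1 / 16 := by
    rw [hσ]
    field_simp
  have hev3 : ∀ᶠ r : ℕ in atTop, (2 : ℝ) ≤ (XX r) ^ σ :=
    ((tendsto_rpow_atTop hσ0).comp XX_tendsto).eventually_ge_atTop _
  filter_upwards [hev3, eventually_ge_atTop 3] with r h2T h3 G hGd hcon
  obtain ⟨s, rfl⟩ : ∃ s, r = s + 3 := ⟨r - 3, by omega⟩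
  set P : ℝ := XX (s + 3) with hP
  have hP1 : 1 ≤ P := XX_ge_one _
  have hP0 : 0 < P := by linarith
  have hPL : ((2 ^ s : ℕ) : ℝ) = P / 8 := by
    rw [hP]
    unfold XX
    push_cast
    rw [pow_add]
    norm_num
  -- `T = 2 P^σ`
  set T : ℝ := 2 * P ^ σ with hT
  have hPσ1 : 1 ≤ P ^ σ := Real.one_le_rpow hP1 hσ0.le
  have hT1 : 1 ≤ T := by rw [hT]; linarith
  have hT0 : 0 < T := by linarith
  have hT2 : T ≤ P ^ (2 * σ) := by
    have h4 : P ^ (2 * σ) = P ^ σ * P ^ σ := by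
      rw [← Real.rpow_add hP0]
      congr 1
      ring
    rw [h4, hT]
    exact mul_le_mul_of_nonneg_right h2T (by linarith)
  rw [hP, wg_sum, ← hP] at hcon
  have hP8 : 8 ≤ P := by
    have : (1 : ℝ) ≤ ((2 ^ s : ℕ) : ℝ) := by exact_mod_cast Nat.one_le_two_pow
    rw [hPL] at this
    linarith
  obtain ⟨N, hN1, hN8, hNP, hNs⟩ : ∃ N : ℕ, 1 ≤ N ∧ P / 8 ≤ (N : ℝ) ∧ (N : ℝ) ≤ P ∧
      P ^ (1 - σ) / 2 ≤ ‖∑ n ∈ range N, e (G.eval (n : ℝ))‖ := by
    by_contra hno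
    push Not at hno
    have p2 : ((2 ^ (s + 1) : ℕ) : ℝ) = P / 4 := by
      rw [pow_succ]
      push_cast
      have := hPL
      push_cast at this
      rw [this]
      ring
    have a1 := hno (2 ^ (s + 1) + 1) (Nat.le_add_left 1 _) (by push_cast at p2 ⊢; linarith)
      (by push_cast at p2 ⊢; linarith)
    have a2 := hno (2 ^ s + 1) (Nat.le_add_left 1 _) (by push_cast at hPL ⊢; linarith)
      (by push_cast at hPL ⊢; linarith)
    have a3 := norm_sub_le (∑ n ∈ range (2 ^ (s + 1) + 1), e (G.eval (n : ℝ)))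
      (∑ n ∈ range (2 ^ s + 1), e (G.eval (n : ℝ)))
    linarith
  have hlam : (1 : ℝ) / T⁻¹ = T := by
    rw [one_div, inv_inv]
  have hPσ : P ^ (-σ) = (P ^ σ)⁻¹ := Real.rpow_neg hP0.le σ
  obtain ⟨q, hq1, hqC, hqd⟩ := hC G N T⁻¹ hGd hN1 (inv_pos.2 hT0)
    (inv_le_one_of_one_le₀ hT1) (by
      refine le_trans ?_ hNs
      rw [sub_eq_add_neg, add_comm (1 : ℝ) (-σ), Real.rpow_add hP0, Real.rpow_one, hPσ, hT, mul_inv]
      have h4 : 0 < (P ^ σ)⁻¹ := by positivity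
      have h5 := mul_le_mul_of_nonneg_left hNP h4.le
      calc 2⁻¹ * (P ^ σ)⁻¹ * N = ((P ^ σ)⁻¹ * N) / 2 := by ring
        _ ≤ ((P ^ σ)⁻¹ * P) / 2 := by linarith)
  rw [hlam] at hqC hqd
  have hTn : ∀ l : ℕ, T ^ l ≤ P ^ (2 * σ * l) := by
    intro l
    rw [Real.rpow_mul_natCast hP0.le]
    exact pow_le_pow_left₀ hT0.le hT2 l
  have hTCP : T ^ C ≤ P ^ ((1 : ℝ) / 8) := by
    refine (hTn C).trans ?_
    refine Real.rpow_le_rpow_of_exponent_le hP1 ?_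
    nlinarith
  have hP18 : 0 < P ^ ((1 : ℝ) / 8) := Real.rpow_pos_of_pos hP0 _
  obtain ⟨m, hm⟩ := Pool.PolyMax.exists_int_dz ((q : ℝ) * G.coeff k)
  refine ⟨q, m, hq1, ?_, ?_⟩
  · refine hqC.trans ?_
    have h4 : (C : ℝ) * T ^ C ≤ C * P ^ ((1 : ℝ) / 8) := mul_le_mul_of_nonneg_left hTCP (by linarith)
    have h5 : (C : ℝ) * P ^ ((1 : ℝ) / 8) ≤ C * 8 ^ k * P ^ ((1 : ℝ) / 8) := by
      apply mul_le_mul_of_nonneg_right _ hP18.le
      nlinarith
    linarith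
  · rw [hm]
    refine (hqd k hk).trans ?_
    have h4 : P ^ k / 8 ^ k ≤ (N : ℝ) ^ k := by
      rw [← div_pow]
      exact pow_le_pow_left₀ (by positivity) hN8 k
    have h5 : 0 < P ^ k / 8 ^ k := by positivity
    refine (div_le_div_of_nonneg_left (by positivity) h5 h4).trans ?_
    rw [div_div_eq_mul_div]
    refine div_le_div_of_nonneg_right ?_ (by positivity)
    calc (C : ℝ) * T ^ C * 8 ^ k ≤ C * P ^ ((1 : ℝ) / 8) * 8 ^ k := by
          apply mul_le_mul_of_nonneg_right _ (by positivity)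
          exact mul_le_mul_of_nonneg_left hTCP (by linarith)
      _ = _ := by ring

private theorem sum_le_card (P : ℝ) (f : ℕ → ℝ) : ‖∑ z ∈ J1 P, e (f z)‖ ≤ ((J1 P).card : ℝ) := by
  refine (norm_sum_le _ _).trans ?_
  simp only [Pool.PolyMax.norm_e, Finset.sum_const, nsmul_eq_mul, mul_one]
  exact le_rfl

theorem weylE {k : ℕ} (hk : 2 ≤ k) : ∃ σ : ℝ, 0 < σ ∧
    ∀ (A : ℝ) (G : Polynomial ℝ), 0 < A → G.natDegree ≤ k → Dioph (G.coeff k) →
    ∀ᶠ r : ℕ in atTop, ∀ θ : ℝ, (XX r) ^ ((1 : ℝ) / 4 - k) ≤ |θ| → |θ| ≤ (XX r) ^ σ →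
      ‖∑ z ∈ J1 (XX r), e (θ * (A * (z : ℝ) ^ k))‖ *
        ‖∑ z ∈ J1 (XX r), e (θ * (A * G.eval (z : ℝ)))‖ ≤ (XX r) ^ (2 - σ) := by
  obtain ⟨K, σ, hK1, hσ0, hσ16, hbig⟩ := big_coef (show 1 ≤ k by omega)
  refine ⟨σ, hσ0, ?_⟩
  intro A G hA hGd hD
  obtain ⟨c, hc, hD⟩ := hD
  obtain ⟨x, hx⟩ : ∃ x, x = G.coeff k := ⟨_, rfl⟩
  rw [← hx] at hD
  have hK0 : 0 < K := by linarith
  obtain ⟨K2, hK2⟩ : ∃ K2 : ℝ, K2 = (K * A + 1) ^ 2 * K ^ 2 * ((|x| + 1) * K ^ 2) := ⟨_, rfl⟩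
  have hK20 : 0 < K2 := by rw [hK2]; positivity
  have hev1 : ∀ᶠ r : ℕ in atTop, K / A < (XX r) ^ ((1 : ℝ) / 8) :=
    ((tendsto_rpow_atTop (by norm_num : (0 : ℝ) < 1 / 8)).comp XX_tendsto).eventually_gt_atTop _
  have hev2 : ∀ᶠ r : ℕ in atTop, K2 / c < (XX r) ^ ((1 : ℝ) / 8) :=
    ((tendsto_rpow_atTop (by norm_num : (0 : ℝ) < 1 / 8)).comp XX_tendsto).eventually_gt_atTop _
  have hev3 := XX_tendsto.eventually_ge_atTop 16
  have hev4 : ∀ᶠ r : ℕ in atTop, K * (XX r) ^ ((1 : ℝ) / 8 : ℝ) ≤ (XX r) ^ (1 : ℝ) :=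
    eventually_rpow_le (by norm_num)
  filter_upwards [hbig, hev1, hev2, hev3, hev4] with r hb h1 h2 h3 h4 θ hθ1 hθ2
  by_contra hcon
  push Not at hcon
  have hP1 : 1 ≤ XX r := XX_ge_one r
  have hP0 : 0 < XX r := XX_pos r
  generalize XX r = P at *
  have hcard : ((J1 P).card : ℝ) ≤ P := by
    have := card_J1_le h3
    linarith
  -- both sums are large
  obtain ⟨S1, hS1⟩ : ∃ S1, S1 = ‖∑ z ∈ J1 P, e (θ * (A * (z : ℝ) ^ k))‖ := ⟨_, rfl⟩
  obtain ⟨S2, hS2⟩ : ∃ S2, S2 = ‖∑ z ∈ J1 P, e (θ * (A * G.eval (z : ℝ)))‖ := ⟨_, rfl⟩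
  have hS1P : S1 ≤ P := by
    rw [hS1]
    exact (sum_le_card P fun z => θ * (A * (z : ℝ) ^ k)).trans hcard
  have hS2P : S2 ≤ P := by
    rw [hS2]
    exact (sum_le_card P fun z => θ * (A * G.eval (z : ℝ))).trans hcard
  have hS10 : 0 ≤ S1 := by rw [hS1]; exact norm_nonneg _
  have hS20 : 0 ≤ S2 := by rw [hS2]; exact norm_nonneg _
  rw [← hS1, ← hS2] at hcon
  have hPP : P ^ (2 - σ) = P * P ^ (1 - σ) := by
    nth_rewrite 2 [← Real.rpow_one P]
    rw [← Real.rpow_add hP0]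
    congr 1
    ring
  rw [hPP] at hcon
  have hb1 : P ^ (1 - σ) < S1 := by
    by_contra h
    push Not at h
    have : S1 * S2 ≤ P ^ (1 - σ) * P := mul_le_mul h hS2P hS20 (Real.rpow_nonneg hP0.le _)
    linarith
  have hb2 : P ^ (1 - σ) < S2 := by
    by_contra h
    push Not at h
    have : S1 * S2 ≤ P * P ^ (1 - σ) := mul_le_mul hS1P h hS20 hP0.le
    linarith
  -- the two polynomials
  obtain ⟨G1, hG1⟩ : ∃ G1 : Polynomial ℝ, G1 = Polynomial.C (θ * A) * Polynomial.X ^ k := ⟨_, rfl⟩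
  obtain ⟨G2, hG2⟩ : ∃ G2 : Polynomial ℝ, G2 = Polynomial.C (θ * A) * G := ⟨_, rfl⟩
  have e1 : S1 = ‖∑ z ∈ J1 P, e (G1.eval (z : ℝ))‖ := by
    rw [hS1, hG1]
    congr 1
    refine sum_congr rfl fun z _ => ?_
    rw [Polynomial.eval_mul, Polynomial.eval_C, Polynomial.eval_pow, Polynomial.eval_X]
    congr 1
    ring
  have e2 : S2 = ‖∑ z ∈ J1 P, e (G2.eval (z : ℝ))‖ := by
    rw [hS2, hG2]
    congr 1
    refine sum_congr rfl fun z _ => ?_
    rw [Polynomial.eval_mul, Polynomial.eval_C]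
    congr 1
    ring
  obtain ⟨q1, m1, hq1, hq1K, hm1⟩ := hb G1 (by
    rw [hG1]; exact Polynomial.natDegree_C_mul_X_pow_le _ _) (by rw [← e1]; exact hb1)
  obtain ⟨q2, m2, hq2, hq2K, hm2⟩ := hb G2 (by
    rw [hG2]; exact (Polynomial.natDegree_C_mul_le _ _).trans hGd) (by rw [← e2]; exact hb2)
  have c1 : G1.coeff k = θ * A := by
    rw [hG1, Polynomial.coeff_C_mul_X_pow, if_pos rfl]
  have c2 : G2.coeff k = θ * A * x := by
    rw [hG2, Polynomial.coeff_C_mul, hx]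
  rw [c1] at hm1
  rw [c2] at hm2
  obtain ⟨φ, hφ⟩ : ∃ φ, φ = θ * A := ⟨_, rfl⟩
  rw [← hφ] at hm1 hm2
  obtain ⟨R, hR⟩ : ∃ R, R = P ^ ((1 : ℝ) / 8) := ⟨_, rfl⟩
  rw [← hR] at hq1K hq2K h1 h2 h4 hm1 hm2
  have hR1 : 1 ≤ R := by rw [hR]; exact Real.one_le_rpow hP1 (by norm_num)
  have hR0 : 0 < R := by linarith
  have hR8 : R ^ 8 = P := by
    rw [hR, ← Real.rpow_natCast, ← Real.rpow_mul hP0.le]
    norm_num
  obtain ⟨δ, hδ⟩ : ∃ δ, δ = K * R / P ^ k := ⟨_, rfl⟩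
  rw [← hδ] at hm1 hm2
  have hδ0 : 0 < δ := by rw [hδ]; positivity
  have hq1r : (1 : ℝ) ≤ q1 := by exact_mod_cast hq1
  have hq2r : (1 : ℝ) ≤ q2 := by exact_mod_cast hq2
  have hPk2 : P ^ 2 ≤ P ^ k := pow_le_pow_right₀ hP1 hk
  have hθR : |θ| ≤ R := by
    refine hθ2.trans ?_
    rw [hR]
    exact Real.rpow_le_rpow_of_exponent_le hP1 (by linarith)
  by_cases hm0 : m1 = 0
  · rw [hm0] at hm1
    simp only [Int.cast_zero, sub_zero] at hm1
    rw [hφ, abs_mul, abs_mul, abs_of_pos hA, Nat.abs_cast] at hm1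
    have h5 : P ^ ((1 : ℝ) / 4 - k) * P ^ k = R ^ 2 := by
      rw [← Real.rpow_natCast P k, ← Real.rpow_add hP0, hR, ← Real.rpow_natCast _ 2,
        ← Real.rpow_mul hP0.le]
      congr 1
      push_cast
      ring
    have h6 : |θ| * A ≤ δ := by
      have h7 : 0 ≤ |θ| * A := by positivity
      nlinarith
    have h7 : P ^ ((1 : ℝ) / 4 - k) * A ≤ δ := (mul_le_mul_of_nonneg_right hθ1 hA.le).trans h6
    rw [hδ, le_div_iff₀ (by positivity)] at h7
    have h8 : R ^ 2 * A ≤ K * R := by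
      rw [← h5]
      linarith
    rw [div_lt_iff₀ hA] at h1
    nlinarith
  · obtain ⟨M, hM⟩ : ∃ M : ℕ, M = m1.natAbs := ⟨_, rfl⟩
    have hM1 : 1 ≤ M := by rw [hM]; exact Int.natAbs_pos.2 hm0
    have hMr : (M : ℝ) = |(m1 : ℝ)| := by
      rw [hM, Nat.cast_natAbs, Int.cast_abs]
    have hM1r : (1 : ℝ) ≤ M := by exact_mod_cast hM1
    have hδ1 : δ ≤ 1 := by
      rw [hδ, div_le_one (by positivity)]
      rw [Real.rpow_one] at h4
      refine h4.trans ?_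
      exact le_self_pow₀ hP1 (by omega)
    have hMle : (M : ℝ) ≤ (K * A + 1) * R ^ 2 := by
      rw [hMr]
      have h5 : |(m1 : ℝ)| ≤ |(q1 : ℝ) * φ| + |(q1 : ℝ) * φ - m1| := by
        have := abs_sub_abs_le_abs_sub (m1 : ℝ) ((q1 : ℝ) * φ)
        rw [abs_sub_comm (m1 : ℝ)] at this
        linarith
      have h6 : |(q1 : ℝ) * φ| ≤ K * R * (R * A) := by
        rw [hφ, abs_mul, abs_mul, abs_of_pos hA, Nat.abs_cast]
        refine mul_le_mul hq1K ?_ (by positivity) (by positivity)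
        exact mul_le_mul_of_nonneg_right hθR hA.le
      have h7 : (1 : ℝ) ≤ R ^ 2 := one_le_pow₀ hR1
      nlinarith
    -- lower bound
    have hsg : (m1 : ℝ) = (m1.sign : ℝ) * M := by
      rw [hMr]
      have h := Int.sign_mul_abs m1
      exact_mod_cast h.symm
    have hsq : (m1.sign : ℝ) * (m1.sign : ℝ) = 1 := by
      have : m1.sign * m1.sign = 1 := by
        rcases lt_or_gt_of_ne hm0 with h | h
        · rw [Int.sign_eq_neg_one_of_neg h]
          norm_num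
        · rw [Int.sign_eq_one_of_pos h]
          norm_num
      exact_mod_cast this
    have hlow := hD (M * q2) (Nat.mul_pos hM1 hq2) (m1.sign * m2 * q1)
    have hMq : (0 : ℝ) < (M : ℝ) * q2 := by positivity
    have hup : |x - ((m1.sign * m2 * q1 : ℤ) : ℝ) / ((M * q2 : ℕ) : ℝ)| ≤
        (|x| + 1) * K * R * δ / ((M : ℝ) * q2) := by
      have h5 : x - ((m1.sign * m2 * q1 : ℤ) : ℝ) / ((M * q2 : ℕ) : ℝ) =
          ((m1.sign : ℝ) * (x * m1 * q2 - m2 * q1)) / ((M : ℝ) * q2) := by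
        have h6 : (m1.sign : ℝ) * (x * m1 * q2 - m2 * q1) =
            x * ((M : ℝ) * q2) - (m1.sign : ℝ) * m2 * q1 := by
          have : (m1.sign : ℝ) * (x * m1 * q2) = x * ((M : ℝ) * q2) := by
            rw [hsg]
            calc (m1.sign : ℝ) * (x * ((m1.sign : ℝ) * M) * q2) =
                ((m1.sign : ℝ) * (m1.sign : ℝ)) * (x * ((M : ℝ) * q2)) := by ring
              _ = _ := by rw [hsq, one_mul]
          rw [mul_sub, this]
          ring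
        rw [h6, sub_div, mul_div_assoc, div_self hMq.ne', mul_one]
        push_cast
        ring
      have hsa : |(m1.sign : ℝ)| = 1 := by
        have := congrArg Real.sqrt hsq
        rw [Real.sqrt_mul_self_eq_abs, Real.sqrt_one] at this
        exact this
      rw [h5, abs_div, abs_of_pos hMq]
      apply div_le_div_of_nonneg_right _ hMq.le
      rw [abs_mul, hsa, one_mul]
      have h7 : x * m1 * q2 - m2 * q1 = -(x * q2 * ((q1 : ℝ) * φ - m1)) +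
          q1 * ((q2 : ℝ) * (φ * x) - m2) := by ring
      rw [h7]
      refine (abs_add_le _ _).trans ?_
      rw [abs_neg, abs_mul, abs_mul, abs_mul, Nat.abs_cast, Nat.abs_cast]
      have h8 : |x| * (q2 : ℝ) * |(q1 : ℝ) * φ - m1| ≤ |x| * (K * R) * δ := by
        apply mul_le_mul _ hm1 (abs_nonneg _) (by positivity)
        exact mul_le_mul_of_nonneg_left hq2K (abs_nonneg _)
      have h9 : (q1 : ℝ) * |(q2 : ℝ) * (φ * x) - m2| ≤ K * R * δ :=
        mul_le_mul hq1K hm2 (abs_nonneg _) (by positivity)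
      nlinarith
    have h5 := hlow.trans hup
    push_cast at h5
    have h6 : c ≤ ((M : ℝ) * q2) ^ 2 * ((|x| + 1) * K * R * δ) := by
      rw [div_le_div_iff₀ (by positivity) hMq] at h5
      have h7 : c * ((M : ℝ) * q2) ≤ (((M : ℝ) * q2) ^ 2 * ((|x| + 1) * K * R * δ)) * ((M : ℝ) * q2) := by
        calc c * ((M : ℝ) * q2) ≤ (|x| + 1) * K * R * δ * ((M : ℝ) * q2) ^ 3 := h5
          _ = _ := by ring
      exact le_of_mul_le_mul_right h7 hMq
    have h7 : (M : ℝ) * q2 ≤ (K * A + 1) * R ^ 2 * (K * R) :=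
      mul_le_mul hMle hq2K (by positivity) (by positivity)
    have h8 : ((M : ℝ) * q2) ^ 2 ≤ ((K * A + 1) * R ^ 2 * (K * R)) ^ 2 :=
      pow_le_pow_left₀ hMq.le h7 2
    have h9 : c ≤ ((K * A + 1) * R ^ 2 * (K * R)) ^ 2 * ((|x| + 1) * K * R * δ) :=
      h6.trans (mul_le_mul_of_nonneg_right h8 (by positivity))
    have h10 : δ ≤ K * R / R ^ 16 := by
      rw [hδ]
      apply div_le_div_of_nonneg_left (by positivity) (by positivity)
      calc R ^ 16 = (R ^ 8) ^ 2 := by ring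
        _ = P ^ 2 := by rw [hR8]
        _ ≤ _ := hPk2
    have h11 : c ≤ ((K * A + 1) * R ^ 2 * (K * R)) ^ 2 * ((|x| + 1) * K * R * (K * R / R ^ 16)) := by
      refine h9.trans ?_
      apply mul_le_mul_of_nonneg_left _ (by positivity)
      exact mul_le_mul_of_nonneg_left h10 (by positivity)
    have h12 : ((K * A + 1) * R ^ 2 * (K * R)) ^ 2 * ((|x| + 1) * K * R * (K * R / R ^ 16)) =
        K2 / R ^ 8 := by
      rw [hK2]
      field_simp
    rw [h12] at h11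
    have h13 : K2 / R ^ 8 ≤ K2 / R :=
      div_le_div_of_nonneg_left hK20.le hR0 (le_self_pow₀ hR1 (by norm_num))
    rw [div_lt_iff₀ hc] at h2
    have h14 := h11.trans h13
    rw [le_div_iff₀ hR0] at h14
    linarith

end XWar
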