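import Pool.Agent.XWar.FinE

/-!
# XWar.FinG: plain powers and values of a polynomial, general form

A copy of `mixE_fixed` (`Pool/Agent/XWar/FinE.lean`) for chains of degree `j ≤ k`.
-/

namespace XWar

open TWar MWg FWar YWar Finset MeasureTheory Filter Topology
open Pool.PolyMax (e)

private theorem FinG_grow {k : ℕ} (hk : 2 ≤ k) {α : ℝ} (hα : 0 < α) {h : ℕ → ℝ} (hh : Good k h) :
    Grow k α (fun x => α * h x) := by
  refine ⟨hα, ?_, ?_⟩
  · have h1 := (good_lim (by omega : 1 ≤ k) hh).const_mul α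
    rw [mul_one] at h1
    refine h1.congr fun x => ?_
    rw [Real.rpow_natCast, mul_div_assoc]
  · obtain ⟨x0, hx0⟩ := good_step hk hh
    refine ⟨α * (2 * k * 2 ^ (k - 1)), ?_⟩
    filter_upwards [eventually_ge_atTop x0, eventually_ge_atTop 1] with x hx hx1
    obtain ⟨h1, h2⟩ := hx0 x (x + 1) hx (Nat.le_succ x)
    have hx1' : (1 : ℝ) ≤ x := by exact_mod_cast hx1
    have e1 : (((x + 1 : ℕ) : ℝ) - x) = 1 := by push_cast; ring
    rw [e1, mul_one] at h1 h2
    have e2 : (x : ℝ) ^ ((k : ℝ) - 1) = (x : ℝ) ^ (k - 1) := by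
      rw [← Real.rpow_natCast, Nat.cast_sub (by omega : 1 ≤ k), Nat.cast_one]
    have h3 : (((x + 1 : ℕ) : ℝ)) ^ (k - 1) ≤ (2 * (x : ℝ)) ^ (k - 1) := by
      apply pow_le_pow_left₀ (by positivity)
      push_cast
      linarith
    rw [mul_pow] at h3
    have h4 : (0 : ℝ) ≤ (x : ℝ) ^ (k - 1) := by positivity
    refine ⟨?_, ?_⟩
    · rw [← mul_sub]
      exact mul_nonneg hα.le (by linarith)
    · rw [← mul_sub, e2, mul_assoc α]
      apply mul_le_mul_of_nonneg_left _ hα.le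
      calc h (x + 1) - h x ≤ 2 * k * ((x + 1 : ℕ) : ℝ) ^ (k - 1) := h2
        _ ≤ 2 * k * (2 ^ (k - 1) * (x : ℝ) ^ (k - 1)) :=
            mul_le_mul_of_nonneg_left h3 (by positivity)
        _ = 2 * k * 2 ^ (k - 1) * (x : ℝ) ^ (k - 1) := by ring

/-- The integer sums for one function `f`. -/
theorem mixG_fixed {D k j q1 q2 : ℕ} (hD : 1 ≤ D) (hj : 2 ≤ j) (hjk : j ≤ k) {σ : ℝ} (hσ : 0 < σ)
    {G : Polynomial ℝ} {f : ℕ → ℝ}
    (hf : ∀ x : ℕ, f x = G.eval (x : ℝ)) (hsm : Sm k f)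
    (hW : ∀ A : ℝ, 0 < A →
      ∀ᶠ r : ℕ in atTop, ∀ θ : ℝ, (XX r) ^ ((1 : ℝ) / 4 - k) ≤ |θ| → |θ| ≤ (XX r) ^ σ →
      ‖∑ z ∈ J1 (XX r), e (θ * (A * (z : ℝ) ^ k))‖ *
        ‖∑ z ∈ J1 (XX r), e (θ * (A * G.eval (z : ℝ)))‖ ≤ (XX r) ^ (2 - σ))
    (htA : ∀ M : ℝ, ∀ᶠ r : ℕ in atTop,
      pairs (XD D k j q1 q2 r) (fun p => |aT k f p.1 - aT k f p.2| ≤ M) ≤
      (XX r) ^ (σ / 8) * ((XD D k j q1 q2 r).card : ℝ) ^ 2 / (XX r) ^ k) :
    ∀ A : ℕ, 1 ≤ A → MixL k A f (2 * (q1 + 1) + 1) (2 * q2 + 1) := by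
  intro A hA1
  have hA0 : (0 : ℝ) < A := by
    have : 0 < A := hA1
    exact_mod_cast this
  obtain ⟨R0, hR0, hsz⟩ := sizeGE hj hjk hsm q2
  obtain ⟨x0, hx0⟩ := hsm.ev
  obtain ⟨v, hv⟩ : ∃ v : ℕ → ℝ, v = fun n => (A : ℝ) * (((Nat.unpair n).1 : ℕ) : ℝ) ^ k +
    (A : ℝ) * f (Nat.unpair n).2 := ⟨_, rfl⟩
  have hk : 2 ≤ k := by omega
  have hkR : (2 : ℝ) ≤ k := by exact_mod_cast hk
  have key := floor_basisZ (κ := (k : ℝ)) (α := (A : ℝ)) (σ := σ)
    (F := fun x : ℕ => (A : ℝ) * (x : ℝ) ^ k) (f := v) (d := q2)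
    (W := fun r => CT k q1 r ×ˢ GD D j q2 (XX r / 512)) (Z := ZE)
    (sv := fun w => iv A k w.1 + fv (fun x => (A : ℝ) * f x) w.2)
    (rv := fun w => (A : ℝ) * val (fun x => (x : ℝ) ^ k) (fun _ => 0) w.1 +
      val (fun x => (A : ℝ) * f x) (fun _ => 0) w.2)
    (by linarith) hσ
    (FinG_grow (by omega) hA0 (good_pow (by omega : 1 ≤ k))) ?_ ?_ ?_
    ?_ ?_ ?_ ?_ ?_
  · obtain ⟨N0, hN0⟩ := key
    refine ⟨N0, fun N hN => ?_⟩
    obtain ⟨r, u, hu, w, hw, u', hu', w', hw', z, hz, heq⟩ := hN0 N hN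
    have hP := XX_pos r
    have hw1 := Finset.mem_product.1 hw
    have hw1' := Finset.mem_product.1 hw'
    have hwc := (mem_GD.1 hw1.2).1
    have hwc' := (mem_GD.1 hw1'.2).1
    obtain ⟨hz1, hz2⟩ := mem_ZE.1 hz
    have q3 : ∀ x ∈ mainI (XX r), 1 ≤ x := by
      intro x hx
      have h1 := ((mem_mainI hP.le).1 hx).1
      have h2 : (0 : ℝ) < (x : ℝ) := by linarith
      have : 0 < x := by exact_mod_cast h2
      omega
    have q4 : ∀ x ∈ J1 (XX r), 1 ≤ x := by
      intro x hx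
      have h1 := ((mem_J1 hP.le).1 hx).1
      have h2 : (0 : ℝ) < (x : ℝ) := by linarith
      have : 0 < x := by exact_mod_cast h2
      omega
    refine ⟨(u :: w.1.map Prod.fst) ++ (u' :: (w'.1.map Prod.fst ++ [(Nat.unpair z).1])),
      w.2.map Prod.fst ++ (w'.2.map Prod.fst ++ [(Nat.unpair z).2]), ?_, ?_, ?_, ?_, ?_⟩
    · have l1 := chain_length hw1.1
      have l2 := chain_length hw1'.1
      simp only [List.length_append, List.length_cons, List.length_map, List.length_nil]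
      rw [l1, l2]
      ring
    · have l1 := chain_length hwc
      have l2 := chain_length hwc'
      simp only [List.length_append, List.length_cons, List.length_map, List.length_nil]
      rw [l1, l2]
      ring
    · intro n hn
      simp only [List.mem_append, List.mem_cons, List.mem_map, List.not_mem_nil, or_false] at hn
      rcases hn with (rfl | ⟨p, hp, rfl⟩) | (rfl | (⟨p, hp, rfl⟩ | rfl))
      · exact q3 _ hu
      · exact chain_fst_pos hw1.1 p hp
      · exact q3 _ hu'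
      · exact chain_fst_pos hw1'.1 p hp
      · exact q4 _ hz1
    · intro n hn
      simp only [List.mem_append, List.mem_cons, List.mem_map, List.not_mem_nil, or_false] at hn
      rcases hn with ⟨p, hp, rfl⟩ | (⟨p, hp, rfl⟩ | rfl)
      · exact chain_fst_pos hwc p hp
      · exact chain_fst_pos hwc' p hp
      · exact q4 _ hz2
    · rw [← heq]
      have e1 : ∀ x : ℕ, ⌊(A : ℝ) * (x : ℝ) ^ k⌋ = (A : ℤ) * (x : ℤ) ^ k := by
        intro x
        have : (A : ℝ) * (x : ℝ) ^ k = (((A : ℤ) * (x : ℤ) ^ k : ℤ) : ℝ) := by push_cast; rfl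
        rw [this, Int.floor_intCast]
      have e0 : ⌊v z⌋ = (A : ℤ) * ((Nat.unpair z).1 : ℤ) ^ k + ⌊(A : ℝ) * f (Nat.unpair z).2⌋ := by
        rw [hv]
        show ⌊(A : ℝ) * (((Nat.unpair z).1 : ℕ) : ℝ) ^ k + (A : ℝ) * f (Nat.unpair z).2⌋ = _
        have : (A : ℝ) * (((Nat.unpair z).1 : ℕ) : ℝ) ^ k =
            (((A : ℤ) * ((Nat.unpair z).1 : ℤ) ^ k : ℤ) : ℝ) := by push_cast; rfl
        rw [this, Int.floor_intCast_add]
      rw [e1, e1, e0, List.map_append, List.map_cons, List.map_cons, List.map_append,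
        List.sum_append, List.sum_cons, List.sum_cons, List.sum_append, iv_map, iv_map]
      have e2 : fs (fun x => (A : ℝ) * f x)
          (w.2.map Prod.fst ++ (w'.2.map Prod.fst ++ [(Nat.unpair z).2])) =
          fv (fun x => (A : ℝ) * f x) w.2 + (fv (fun x => (A : ℝ) * f x) w'.2 +
            ⌊(A : ℝ) * f (Nat.unpair z).2⌋) := by
        rw [← fv_map, ← fv_map]
        simp [fs]
      rw [e2]
      simp only [List.map_cons, List.map_nil, List.sum_cons, List.sum_nil]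
      ring
  · -- the values of the last letters
    filter_upwards [XX_tendsto.eventually_ge_atTop (8 * (x0 : ℝ) + 8)] with r hr n hn
    have hP := XX_pos r
    obtain ⟨h1, h2⟩ := mem_ZE.1 hn
    rw [mem_J1 hP.le] at h1 h2
    have h3 : x0 ≤ (Nat.unpair n).2 := by
      have : (x0 : ℝ) ≤ ((Nat.unpair n).2 : ℝ) := by linarith [h2.1]
      exact_mod_cast this
    obtain ⟨h4, h5⟩ := hx0 _ h3
    have h6 : (((Nat.unpair n).1 : ℕ) : ℝ) ^ k ≤ (XX r / 4) ^ k :=
      pow_le_pow_left₀ (Nat.cast_nonneg _) h1.2 k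
    have h7 : (((Nat.unpair n).2 : ℕ) : ℝ) ^ k ≤ (XX r / 4) ^ k :=
      pow_le_pow_left₀ (Nat.cast_nonneg _) h2.2 k
    have h8 : (XX r / 4) ^ k ≤ (XX r) ^ k / 16 := by
      rw [div_pow]
      apply div_le_div_of_nonneg_left (by positivity) (by norm_num)
      calc (16 : ℝ) = 4 ^ 2 := by norm_num
        _ ≤ 4 ^ k := pow_le_pow_right₀ (by norm_num) hk
    rw [hv, Real.rpow_natCast]
    show 0 ≤ (A : ℝ) * (((Nat.unpair n).1 : ℕ) : ℝ) ^ k + (A : ℝ) * f (Nat.unpair n).2 ∧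
      (A : ℝ) * (((Nat.unpair n).1 : ℕ) : ℝ) ^ k + (A : ℝ) * f (Nat.unpair n).2 ≤ _
    rw [← mul_add, mul_div_assoc]
    constructor
    · positivity
    · apply mul_le_mul_of_nonneg_left _ hA0.le
      have h9 : 0 ≤ (XX r) ^ k := by positivity
      linarith
  · filter_upwards [XX_tendsto.eventually_ge_atTop 16] with r hr
    rw [card_ZE]
    have h1 := card_J1_ge hr
    have hP := XX_pos r
    have h2 : (XX r / 32) ^ 2 ≤ ((J1 (XX r)).card : ℝ) ^ 2 :=
      pow_le_pow_left₀ (by positivity) (by linarith) 2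
    have h3 : (XX r) ^ 2 / 1024 = (XX r / 32) ^ 2 := by ring
    rw [h3]
    exact h2
  · filter_upwards [XX_tendsto.eventually_ge_atTop 16] with r hr
    rw [card_ZE]
    have h1 := card_J1_le hr
    have hP := XX_pos r
    exact pow_le_pow_left₀ (Nat.cast_nonneg _) (by linarith) 2
  · -- Weyl
    filter_upwards [hW A hA0] with r hr θ hθ1 hθ2
    have h2 := hr θ hθ1 hθ2
    refine le_trans (le_of_eq ?_) h2
    rw [← norm_mul, Finset.sum_mul_sum]
    congr 1
    have h3 := sum_ZE r (fun a b => e (θ * ((A : ℝ) * (a : ℝ) ^ k)) * e (θ * ((A : ℝ) * G.eval (b : ℝ))))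
    rw [← h3]
    refine sum_congr rfl fun n _ => ?_
    rw [← Pool.PolyMax.e_add, hv]
    congr 1
    show θ * ((A : ℝ) * (((Nat.unpair n).1 : ℕ) : ℝ) ^ k + (A : ℝ) * f (Nat.unpair n).2) = _
    rw [hf]
    ring
  · -- values
    intro r w hw
    have hw1 := Finset.mem_product.1 hw
    have h1 := fv_val (fun x => (A : ℝ) * f x) w.2
    have l1 := chain_length (mem_GD.1 hw1.2).1
    rw [l1] at h1
    push_cast
    rw [iv_val]
    constructor
    · linarith [h1.1]
    · linarith [h1.2]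
  · -- nonempty
    filter_upwards [card_XE_pos hD q1 q2 hj hjk] with r hr
    have h1 : 0 < (XD D k j q1 q2 r).card := by exact_mod_cast hr
    rw [Finset.card_pos] at h1
    obtain ⟨w, hw⟩ := h1
    unfold XD at hw
    exact ⟨w.2, (Finset.mem_product.1 hw).2⟩
  · -- sizes
    filter_upwards [sizeCE hk q1, XX_tendsto.eventually_ge_atTop (512 * R0)] with r hr1 hr2 w hw
    have hP := XX_pos r
    have hw1 := Finset.mem_product.1 hw
    have h1 := hr1 w.1 hw1.1
    have h2 := hsz (XX r / 512) (by rw [le_div_iff₀ (by norm_num)]; linarith) w.2 (mem_GD.1 hw1.2).1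
    have h3 : 2 * (16 * (XX r / 512)) ^ k ≤ (XX r) ^ k / 16 := by
      have e1 : 16 * (XX r / 512) = XX r / 32 := by ring
      rw [e1, div_pow]
      have e2 : (XX r) ^ k / 32 ^ k ≤ (XX r) ^ k / 32 := by
        apply div_le_div_of_nonneg_left (by positivity) (by norm_num)
        exact le_self_pow₀ (by norm_num) (by omega)
      linarith
    rw [val_mul, Real.rpow_natCast, ← mul_add, abs_mul, abs_of_pos hA0, mul_div_assoc]
    apply mul_le_mul_of_nonneg_left _ hA0.le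
    have h4 := abs_add_le (val (fun x => (x : ℝ) ^ k) (fun _ => 0) w.1)
      (val f (fun _ => 0) w.2)
    have h5 : 0 ≤ (XX r) ^ k := by positivity
    linarith
  · -- coincidences
    have h1 := htA (((q2 : ℝ) + 1) / A)
    filter_upwards [h1] with r hr
    rw [Real.rpow_natCast]
    refine le_trans (pairs_mono _ ?_) hr
    intro w _ w' _ hww
    dsimp only at hww ⊢
    have e1 : ∀ w : ℕ × (List (ℕ × ℕ) × List (ℕ × ℕ)), (A : ℝ) * (w.1 : ℝ) ^ k +
        ((A : ℝ) * val (fun x => (x : ℝ) ^ k) (fun _ => 0) w.2.1 +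
          val (fun x => (A : ℝ) * f x) (fun _ => 0) w.2.2) =
        A * aT k f w := by
      intro w
      rw [val_mul]
      unfold aT
      ring
    rw [e1 w, e1 w', ← mul_sub, abs_mul, abs_of_pos hA0] at hww
    rwa [le_div_iff₀' hA0]

end XWar
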