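import Pool.Agent.FWar.Defs
import Pool.Agent.MWg.Tools
import Pool.Agent.PolyMax.InvWeyl

/-!
# XWar.WeylG: exponential sums of polynomials with a generic coefficient of any degree

As `Pool/Agent/FWar/WeylP.lean`, for the coefficient of `x^j`, `1 ≤ j < k`, in place of `x^(k-1)`. The sum over
`J1 P` is the difference of two sums over initial segments, so that no shift is needed.
-/

namespace XWar

open MWg FWar Finset Filter Topology
open Pool.PolyMax (e dz)

/-- the sum over `J1` as a difference of initial sums. -/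
private theorem wg_sum (s : ℕ) (f : ℕ → ℂ) :
    ∑ z ∈ J1 (XX (s + 3)), f z =
      ∑ n ∈ range (2 ^ (s + 1) + 1), f n - ∑ n ∈ range (2 ^ s + 1), f n := by
  have h8 : XX (s + 3) / 8 = ((2 ^ s : ℕ) : ℝ) := by
    unfold XX
    push_cast
    rw [pow_add]
    norm_num
  have h4 : XX (s + 3) / 4 = ((2 ^ (s + 1) : ℕ) : ℝ) := by
    unfold XX
    push_cast
    rw [pow_add, pow_add]
    norm_num
    ring
  unfold J1
  rw [h8, h4, Nat.floor_natCast, Nat.floor_natCast]
  have h1 : Finset.Ioc (2 ^ s) (2 ^ (s + 1)) = Finset.Ico (2 ^ s + 1) (2 ^ (s + 1) + 1) := by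
    ext z
    simp only [Finset.mem_Ioc, Finset.mem_Ico]
    omega
  rw [h1, Finset.sum_Ico_eq_sub]
  have : 2 ^ s ≤ 2 ^ (s + 1) := Nat.pow_le_pow_right (by norm_num) (by omega)
  omega

theorem weylG {k j : ℕ} (hj : 1 ≤ j) (hjk : j < k) : ∃ σ : ℝ, 0 < σ ∧
    ∀ (α : ℝ) (g : Polynomial ℝ), 0 < α → g.natDegree < k → Dioph (g.coeff j / α) →
    ∀ᶠ r : ℕ in atTop, ∀ θ : ℝ, (XX r) ^ ((1 : ℝ) / 4 - k) ≤ |θ| → |θ| ≤ (XX r) ^ σ →
      ‖∑ z ∈ J1 (XX r), e (θ * (α * (z : ℝ) ^ k + g.eval (z : ℝ)))‖ ≤ (XX r) ^ (1 - σ) := by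
  obtain ⟨C, hC1, hC⟩ := Pool.PolyMax.inverse_weyl k
  have hCr : (1 : ℝ) ≤ C := by exact_mod_cast hC1
  refine ⟨1 / (16 * ((C : ℝ) + 1)), by positivity, ?_⟩
  set σ : ℝ := 1 / (16 * ((C : ℝ) + 1)) with hσ
  have hσ0 : 0 < σ := by rw [hσ]; positivity
  have hσC : σ * ((C : ℝ) + 1) = 1 / 16 := by
    rw [hσ]
    field_simp
  intro α g hα hg hD
  obtain ⟨c, hc, hD⟩ := hD
  set x : ℝ := g.coeff j / α with hx
  set K1 : ℝ := C * 8 ^ k with hK1
  have hK10 : 0 < K1 := by rw [hK1]; positivity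
  set K2 : ℝ := (|x| + 1) * K1 * (C * α + 1) ^ 2 with hK2
  have hK20 : 0 < K2 := by rw [hK2]; positivity
  have hev1 : ∀ᶠ r : ℕ in atTop, K1 / α < (XX r) ^ ((1 : ℝ) / 8) :=
    ((tendsto_rpow_atTop (by norm_num : (0 : ℝ) < 1 / 8)).comp XX_tendsto).eventually_gt_atTop _
  have hev2 : ∀ᶠ r : ℕ in atTop, K2 / c < (XX r) ^ ((1 : ℝ) / 2) :=
    ((tendsto_rpow_atTop (by norm_num : (0 : ℝ) < 1 / 2)).comp XX_tendsto).eventually_gt_atTop _
  have hev3 : ∀ᶠ r : ℕ in atTop, (2 : ℝ) ≤ (XX r) ^ σ :=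
    ((tendsto_rpow_atTop hσ0).comp XX_tendsto).eventually_ge_atTop _
  filter_upwards [hev1, hev2, hev3, eventually_ge_atTop 3] with r h1 h2 h2T h3 θ hθ1 hθ2
  obtain ⟨s, rfl⟩ : ∃ s, r = s + 3 := ⟨r - 3, by omega⟩
  by_contra hcon
  push Not at hcon
  set P : ℝ := XX (s + 3) with hP
  have hP1 : 1 ≤ P := XX_ge_one _
  have hP0 : 0 < P := by linarith
  have hPL : ((2 ^ s : ℕ) : ℝ) = P / 8 := by
    rw [hP]
    unfold XX
    push_cast
    rw [pow_add]
    norm_num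
  have hP8 : 8 ≤ P := by
    have : (1 : ℝ) ≤ ((2 ^ s : ℕ) : ℝ) := by exact_mod_cast Nat.one_le_two_pow
    rw [hPL] at this
    linarith
  -- `T = 2 P^σ`
  set T : ℝ := 2 * P ^ σ with hT
  have hPσ1 : 1 ≤ P ^ σ := Real.one_le_rpow hP1 hσ0.le
  have hT1 : 1 ≤ T := by rw [hT]; linarith
  have hT0 : 0 < T := by linarith
  have hT2 : T ≤ P ^ (2 * σ) := by
    have h4 : P ^ (2 * σ) = P ^ σ * P ^ σ := by
      rw [← Real.rpow_add hP0]
      congr 1
      ring
    rw [h4, hT]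
    exact mul_le_mul_of_nonneg_right h2T (by linarith)
  -- one of the initial sums is large
  rw [hP, wg_sum, ← hP] at hcon
  obtain ⟨N, hN1, hN8, hNP, hNs⟩ : ∃ N : ℕ, 1 ≤ N ∧ P / 8 ≤ (N : ℝ) ∧ (N : ℝ) ≤ P ∧
      P ^ (1 - σ) / 2 ≤
        ‖∑ n ∈ range N, e (θ * (α * (n : ℝ) ^ k + g.eval (n : ℝ)))‖ := by
    by_contra hno
    push Not at hno
    have p2 : ((2 ^ (s + 1) : ℕ) : ℝ) = P / 4 := by
      rw [pow_succ]
      push_cast
      have := hPL
      push_cast at this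
      rw [this]
      ring
    have a1 := hno (2 ^ (s + 1) + 1) (Nat.le_add_left 1 _) (by push_cast at p2 ⊢; linarith)
      (by push_cast at p2 ⊢; linarith)
    have a2 := hno (2 ^ s + 1) (Nat.le_add_left 1 _) (by push_cast at hPL ⊢; linarith)
      (by push_cast at hPL ⊢; linarith)
    have a3 := norm_sub_le (∑ n ∈ range (2 ^ (s + 1) + 1), e (θ * (α * (n : ℝ) ^ k + g.eval (n : ℝ))))
      (∑ n ∈ range (2 ^ s + 1), e (θ * (α * (n : ℝ) ^ k + g.eval (n : ℝ))))
    linarith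
  obtain ⟨G, hGdef⟩ : ∃ G : Polynomial ℝ, G = Polynomial.C θ *
    (Polynomial.C α * Polynomial.X ^ k + g) := ⟨_, rfl⟩
  have hGe : ∀ n : ℕ, G.eval (n : ℝ) = θ * (α * (n : ℝ) ^ k + g.eval (n : ℝ)) := by
    intro n
    rw [hGdef]
    simp only [Polynomial.eval_mul, Polynomial.eval_add, Polynomial.eval_pow, Polynomial.eval_C,
      Polynomial.eval_X]
  have hGd : G.natDegree ≤ k := by
    rw [hGdef]
    refine (Polynomial.natDegree_C_mul_le _ _).trans ?_
    refine (Polynomial.natDegree_add_le _ _).trans (max_le ?_ hg.le)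
    exact Polynomial.natDegree_C_mul_X_pow_le _ _
  have hGk : G.coeff k = θ * α := by
    rw [hGdef, Polynomial.coeff_C_mul, Polynomial.coeff_add, Polynomial.coeff_C_mul_X_pow,
      if_pos rfl, Polynomial.coeff_eq_zero_of_natDegree_lt hg, add_zero]
  have hGj : G.coeff j = θ * g.coeff j := by
    rw [hGdef, Polynomial.coeff_C_mul, Polynomial.coeff_add, Polynomial.coeff_C_mul_X_pow,
      if_neg (by omega), zero_add]
  have hsum : ∑ n ∈ range N, e (θ * (α * (n : ℝ) ^ k + g.eval (n : ℝ)))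
      = ∑ n ∈ range N, e (G.eval (n : ℝ)) :=
    Finset.sum_congr rfl fun n _ => by rw [hGe]
  rw [hsum] at hNs
  have hlam : (1 : ℝ) / T⁻¹ = T := by
    rw [one_div, inv_inv]
  have hPσ : P ^ (-σ) = (P ^ σ)⁻¹ := Real.rpow_neg hP0.le σ
  obtain ⟨q, hq1, hqC, hqd⟩ := hC G N T⁻¹ hGd hN1 (inv_pos.2 hT0)
    (inv_le_one_of_one_le₀ hT1) (by
      refine le_trans ?_ hNs
      rw [sub_eq_add_neg, add_comm (1 : ℝ) (-σ), Real.rpow_add hP0, Real.rpow_one, hPσ, hT, mul_inv]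
      have h4 : 0 < (P ^ σ)⁻¹ := by positivity
      have h5 := mul_le_mul_of_nonneg_left hNP h4.le
      calc 2⁻¹ * (P ^ σ)⁻¹ * N = ((P ^ σ)⁻¹ * N) / 2 := by ring
        _ ≤ ((P ^ σ)⁻¹ * P) / 2 := by linarith)
  rw [hlam] at hqC hqd
  have hq0 : (1 : ℝ) ≤ q := by exact_mod_cast hq1
  have hTC0 : 0 < T ^ C := by positivity
  have hcoef : ∀ i : ℕ, 1 ≤ i → i ≤ k → dz ((q : ℝ) * G.coeff i) ≤ K1 * T ^ C / P ^ i := by
    intro i hi hik
    refine (hqd i hi).trans ?_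
    have h4 : P ^ i / 8 ^ i ≤ (N : ℝ) ^ i := by
      rw [← div_pow]
      exact pow_le_pow_left₀ (by positivity) hN8 i
    have h5 : 0 < P ^ i / 8 ^ i := by positivity
    refine (div_le_div_of_nonneg_left (by positivity) h5 h4).trans ?_
    rw [div_div_eq_mul_div]
    refine div_le_div_of_nonneg_right ?_ (by positivity)
    have h8 : (8 : ℝ) ^ i ≤ 8 ^ k := pow_le_pow_right₀ (by norm_num) hik
    calc (C : ℝ) * T ^ C * 8 ^ i ≤ C * T ^ C * 8 ^ k :=
          mul_le_mul_of_nonneg_left h8 (by positivity)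
      _ = _ := by rw [hK1]; ring
  have hA' : dz ((q : ℝ) * (θ * α)) ≤ K1 * T ^ C / P ^ k := by
    have h := hcoef k (by omega) le_rfl
    rwa [hGk] at h
  have hE : dz ((q : ℝ) * (θ * g.coeff j)) ≤ K1 * T ^ C / P ^ j := by
    have h := hcoef j hj hjk.le
    rwa [hGj] at h
  obtain ⟨m, hm⟩ := Pool.PolyMax.exists_int_dz ((q : ℝ) * (θ * α))
  obtain ⟨n, hn⟩ := Pool.PolyMax.exists_int_dz ((q : ℝ) * (θ * g.coeff j))
  rw [← hm] at hA'
  rw [← hn] at hE
  have hTn : ∀ l : ℕ, T ^ l ≤ P ^ (2 * σ * l) := by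
    intro l
    rw [Real.rpow_mul_natCast hP0.le]
    exact pow_le_pow_left₀ hT0.le hT2 l
  have hTCP : T ^ C ≤ P ^ ((1 : ℝ) / 8) := by
    refine (hTn C).trans ?_
    refine Real.rpow_le_rpow_of_exponent_le hP1 ?_
    nlinarith
  by_cases hm0 : m = 0
  · rw [hm0] at hA'
    simp only [Int.cast_zero, sub_zero] at hA'
    rw [abs_mul, abs_mul, abs_of_pos hα, Nat.abs_cast] at hA'
    have h4 : P ^ ((1 : ℝ) / 4 - k) * P ^ k = P ^ ((1 : ℝ) / 4) := by
      rw [← Real.rpow_natCast P k, ← Real.rpow_add hP0]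
      congr 1
      ring
    have h5 : α * P ^ ((1 : ℝ) / 4) ≤ K1 * T ^ C := by
      rw [le_div_iff₀ (by positivity)] at hA'
      refine le_trans ?_ hA'
      rw [← h4]
      have h6 : P ^ ((1 : ℝ) / 4 - k) * α ≤ (q : ℝ) * (|θ| * α) := by
        have : P ^ ((1 : ℝ) / 4 - k) * α ≤ |θ| * α := mul_le_mul_of_nonneg_right hθ1 hα.le
        have h7 : 0 ≤ |θ| * α := by positivity
        nlinarith
      calc α * (P ^ ((1 : ℝ) / 4 - k) * P ^ k) = P ^ ((1 : ℝ) / 4 - k) * α * P ^ k := by ring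
        _ ≤ _ := mul_le_mul_of_nonneg_right h6 (by positivity)
    have h6 : P ^ ((1 : ℝ) / 4) = P ^ ((1 : ℝ) / 8) * P ^ ((1 : ℝ) / 8) := by
      rw [← Real.rpow_add hP0]
      norm_num
    rw [div_lt_iff₀ hα] at h1
    have h7 : 0 < P ^ ((1 : ℝ) / 8) := Real.rpow_pos_of_pos hP0 _
    have h8 : K1 * T ^ C ≤ K1 * P ^ ((1 : ℝ) / 8) := mul_le_mul_of_nonneg_left hTCP hK10.le
    have h9 : K1 * P ^ ((1 : ℝ) / 8) < P ^ ((1 : ℝ) / 8) * α * P ^ ((1 : ℝ) / 8) :=
      mul_lt_mul_of_pos_right h1 h7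
    rw [h6] at h5
    nlinarith
  · -- the main case
    have hgx : g.coeff j = x * α := by
      rw [hx]
      field_simp
    set M : ℕ := m.natAbs with hM
    have hM1 : 1 ≤ M := Int.natAbs_pos.2 hm0
    have hMr : (M : ℝ) = |(m : ℝ)| := by
      rw [hM, Nat.cast_natAbs, Int.cast_abs]
    have hθT : |θ| ≤ T := by rw [hT]; linarith
    have hMle : (M : ℝ) ≤ (C * α + 1) * T ^ (C + 1) := by
      rw [hMr]
      have h4 : |(m : ℝ)| ≤ |(q : ℝ) * (θ * α)| + |(q : ℝ) * (θ * α) - m| := by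
        have := abs_sub_abs_le_abs_sub (m : ℝ) ((q : ℝ) * (θ * α))
        rw [abs_sub_comm (m : ℝ)] at this
        linarith
      have h5 : |(q : ℝ) * (θ * α) - m| ≤ 1 := by
        rw [hm]
        linarith [Pool.PolyMax.dz_le_half ((q : ℝ) * (θ * α))]
      have h6 : |(q : ℝ) * (θ * α)| ≤ C * T ^ C * (T * α) := by
        rw [abs_mul, abs_mul, abs_of_pos hα, Nat.abs_cast]
        refine mul_le_mul hqC ?_ (by positivity) (by positivity)
        exact mul_le_mul_of_nonneg_right hθT hα.le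
      have h7 : (1 : ℝ) ≤ T ^ (C + 1) := one_le_pow₀ hT1
      calc |(m : ℝ)| ≤ C * T ^ C * (T * α) + 1 := by linarith
        _ ≤ C * T ^ C * (T * α) + T ^ (C + 1) := by linarith
        _ = (C * α + 1) * T ^ (C + 1) := by
            rw [pow_succ]
            ring
    have hlow : c / (M : ℝ) ^ 2 ≤ |x * m - n| := by
      have hMpos : (0 : ℝ) < M := by exact_mod_cast hM1
      have key : |x * m - n| = M * |x - ((m.sign * n : ℤ) : ℝ) / M| := by
        have h4 : (m : ℝ) = (m.sign : ℝ) * M := by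
          rw [hMr]
          have h := Int.sign_mul_abs m
          exact_mod_cast h.symm
        have h5 : (m.sign : ℝ) * (m.sign : ℝ) = 1 := by
          have : m.sign * m.sign = 1 := by
            rcases lt_or_gt_of_ne hm0 with h | h
            · rw [Int.sign_eq_neg_one_of_neg h]
              norm_num
            · rw [Int.sign_eq_one_of_pos h]
              norm_num
          exact_mod_cast this
        have h6 : |(m.sign : ℝ)| = 1 := by
          have := congrArg Real.sqrt h5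
          rw [Real.sqrt_mul_self_eq_abs, Real.sqrt_one] at this
          exact this
        have h7 : x * m - n = (m.sign : ℝ) * (M * (x - ((m.sign * n : ℤ) : ℝ) / M)) := by
          rw [mul_sub, mul_div_cancel₀ _ hMpos.ne', h4]
          push_cast
          have : (m.sign : ℝ) * ((m.sign : ℝ) * n) = n := by rw [← mul_assoc, h5, one_mul]
          rw [mul_sub, this]
          ring
        rw [h7, abs_mul, h6, one_mul, abs_mul, abs_of_pos hMpos]
      rw [key]
      have h4 := hD M hM1 (m.sign * n)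
      calc c / (M : ℝ) ^ 2 = M * (c / (M : ℝ) ^ 3) := by
            field_simp
        _ ≤ _ := mul_le_mul_of_nonneg_left h4 hMpos.le
    have hup : |x * m - n| ≤ (|x| + 1) * K1 * T ^ C / P := by
      have h4 : x * m - n = -(x * ((q : ℝ) * (θ * α) - m))
          + ((q : ℝ) * (θ * g.coeff j) - n) := by
        rw [hgx]
        ring
      have h5 : |x * ((q : ℝ) * (θ * α) - m)| ≤ |x| * (K1 * T ^ C / P ^ k) := by
        rw [abs_mul]
        exact mul_le_mul_of_nonneg_left hA' (abs_nonneg _)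
      have hPk : P ≤ P ^ k := le_self_pow₀ hP1 (by omega)
      have hPk1 : P ≤ P ^ j := le_self_pow₀ hP1 (by omega)
      have h6 : K1 * T ^ C / P ^ k ≤ K1 * T ^ C / P :=
        div_le_div_of_nonneg_left (by positivity) hP0 hPk
      have h7 : K1 * T ^ C / P ^ j ≤ K1 * T ^ C / P :=
        div_le_div_of_nonneg_left (by positivity) hP0 hPk1
      rw [h4]
      refine (abs_add_le _ _).trans ?_
      rw [abs_neg]
      calc |x * ((q : ℝ) * (θ * α) - m)| + |(q : ℝ) * (θ * g.coeff j) - n|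
          ≤ |x| * (K1 * T ^ C / P) + K1 * T ^ C / P := by
            refine add_le_add (h5.trans ?_) (hE.trans h7)
            exact mul_le_mul_of_nonneg_left h6 (abs_nonneg _)
        _ = (|x| + 1) * K1 * T ^ C / P := by ring
    have hMpos : (0 : ℝ) < M := by exact_mod_cast hM1
    have h4 : c / (M : ℝ) ^ 2 ≤ (|x| + 1) * K1 * T ^ C / P := hlow.trans hup
    rw [div_le_div_iff₀ (by positivity) hP0] at h4
    have h5 : (M : ℝ) ^ 2 ≤ (C * α + 1) ^ 2 * T ^ (2 * (C + 1)) := by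
      calc (M : ℝ) ^ 2 ≤ ((C * α + 1) * T ^ (C + 1)) ^ 2 := pow_le_pow_left₀ hMpos.le hMle 2
        _ = _ := by rw [mul_pow, ← pow_mul, mul_comm (C + 1) 2]
    have h6 : T ^ C * T ^ (2 * (C + 1)) ≤ P ^ ((1 : ℝ) / 2) := by
      rw [← pow_add]
      refine (pow_le_pow_right₀ hT1 (by omega : C + 2 * (C + 1) ≤ 3 * (C + 1))).trans ?_
      refine (hTn _).trans ?_
      refine Real.rpow_le_rpow_of_exponent_le hP1 ?_
      push_cast
      nlinarith
    have h7 : c * P ≤ K2 * P ^ ((1 : ℝ) / 2) := by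
      calc c * P ≤ (|x| + 1) * K1 * T ^ C * (M : ℝ) ^ 2 := h4
        _ ≤ (|x| + 1) * K1 * T ^ C * ((C * α + 1) ^ 2 * T ^ (2 * (C + 1))) :=
            mul_le_mul_of_nonneg_left h5 (by positivity)
        _ = K2 * (T ^ C * T ^ (2 * (C + 1))) := by
            rw [hK2]
            ring
        _ ≤ _ := mul_le_mul_of_nonneg_left h6 hK20.le
    have h8 : P = P ^ ((1 : ℝ) / 2) * P ^ ((1 : ℝ) / 2) := by
      rw [← Real.rpow_add hP0]
      norm_num
    rw [div_lt_iff₀ hc] at h2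
    have h9 : 0 < P ^ ((1 : ℝ) / 2) := Real.rpow_pos_of_pos hP0 _
    have h10 : K2 * P ^ ((1 : ℝ) / 2) < P ^ ((1 : ℝ) / 2) * c * P ^ ((1 : ℝ) / 2) :=
      mul_lt_mul_of_pos_right h2 h9
    have h11 : P ^ ((1 : ℝ) / 2) * c * P ^ ((1 : ℝ) / 2) = c * P := by
      nth_rewrite 3 [h8]
      ring
    linarith

end XWar
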