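import Pool.Agent.XWar.AeS
import Pool.Agent.XWar.WeylG
import Pool.Agent.TWar.FinT

/-!
# XWar.FinS: plain powers and values of a polynomial with `n + 1` random coefficients

As `Pool/Agent/XWar/FinX.lean`, for `f = x^k + g + ∑ t_i x^(n+1-i)`, `0 ≤ i ≤ n`, with the words of
`Pool/Agent/XWar/AeS.lean`.
-/

namespace XWar

open TWar MWg FWar Finset MeasureTheory Filter Topology

private theorem FinS_grow {k : ℕ} (hk : 2 ≤ k) {α : ℝ} (hα : 0 < α) {h : ℕ → ℝ} (hh : Good k h) :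
    Grow k α (fun x => α * h x) := by
  refine ⟨hα, ?_, ?_⟩
  · have h1 := (good_lim (by omega : 1 ≤ k) hh).const_mul α
    rw [mul_one] at h1
    refine h1.congr fun x => ?_
    rw [Real.rpow_natCast, mul_div_assoc]
  · obtain ⟨x0, hx0⟩ := good_step hk hh
    refine ⟨α * (2 * k * 2 ^ (k - 1)), ?_⟩
    filter_upwards [eventually_ge_atTop x0, eventually_ge_atTop 1] with x hx hx1
    obtain ⟨h1, h2⟩ := hx0 x (x + 1) hx (Nat.le_succ x)
    have hx1' : (1 : ℝ) ≤ x := by exact_mod_cast hx1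
    have e1 : (((x + 1 : ℕ) : ℝ) - x) = 1 := by push_cast; ring
    rw [e1, mul_one] at h1 h2
    have e2 : (x : ℝ) ^ ((k : ℝ) - 1) = (x : ℝ) ^ (k - 1) := by
      rw [← Real.rpow_natCast, Nat.cast_sub (by omega : 1 ≤ k), Nat.cast_one]
    have h3 : (((x + 1 : ℕ) : ℝ)) ^ (k - 1) ≤ (2 * (x : ℝ)) ^ (k - 1) := by
      apply pow_le_pow_left₀ (by positivity)
      push_cast
      linarith
    rw [mul_pow] at h3
    have h4 : (0 : ℝ) ≤ (x : ℝ) ^ (k - 1) := by positivity
    refine ⟨?_, ?_⟩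
    · rw [← mul_sub]
      exact mul_nonneg hα.le (by linarith)
    · rw [← mul_sub, e2, mul_assoc α]
      apply mul_le_mul_of_nonneg_left _ hα.le
      calc h (x + 1) - h x ≤ 2 * k * ((x + 1 : ℕ) : ℝ) ^ (k - 1) := h2
        _ ≤ 2 * k * (2 ^ (k - 1) * (x : ℝ) ^ (k - 1)) :=
            mul_le_mul_of_nonneg_left h3 (by positivity)
        _ = 2 * k * 2 ^ (k - 1) * (x : ℝ) ^ (k - 1) := by ring

/-- The sum of the values of the letters of the polynomial is small. -/
theorem sizeS {k n : ℕ} (hk : 3 ≤ k) (hn : n + 1 < k) {f : ℕ → ℝ} (hf : Good k f) :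
    ∀ᶠ r : ℕ in atTop, ∀ g ∈ Wk n (XX r / 512), |∑ i, f (g i)| ≤ (XX r) ^ k / 16 := by
  have hlim := good_lim (by omega : 1 ≤ k) hf
  have h1 : ∀ᶠ x : ℕ in atTop, f x / (x : ℝ) ^ k < 3 / 2 :=
    hlim.eventually (gt_mem_nhds (by norm_num))
  have h2 : ∀ᶠ x : ℕ in atTop, (-(3 / 2) : ℝ) < f x / (x : ℝ) ^ k :=
    hlim.eventually (lt_mem_nhds (by norm_num))
  obtain ⟨x0, hx0⟩ := eventually_atTop.1 (h1.and h2)
  obtain ⟨C0, hC0⟩ : ∃ C0 : ℝ, C0 = ∑ x ∈ Finset.range x0, |f x| := ⟨_, rfl⟩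
  have hC00 : 0 ≤ C0 := by
    rw [hC0]
    exact Finset.sum_nonneg fun _ _ => abs_nonneg _
  have hbd : ∀ x : ℕ, 1 ≤ x → |f x| ≤ 3 / 2 * (x : ℝ) ^ k + C0 := by
    intro x hx
    have hx1 : (0 : ℝ) < x := by exact_mod_cast hx
    have hxk : (0 : ℝ) < (x : ℝ) ^ k := by positivity
    rcases Nat.lt_or_ge x x0 with h | h
    · have h3 : |f x| ≤ C0 := by
        rw [hC0]
        exact Finset.single_le_sum (f := fun x => |f x|) (fun _ _ => abs_nonneg _)
          (Finset.mem_range.2 h)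
      linarith
    · obtain ⟨h3, h4⟩ := hx0 x h
      rw [div_lt_iff₀ hxk] at h3
      rw [lt_div_iff₀ hxk] at h4
      have h5 : |f x| ≤ 3 / 2 * (x : ℝ) ^ k := abs_le.2 ⟨by linarith, by linarith⟩
      linarith
  filter_upwards [XX_tendsto.eventually_ge_atTop (512 + 32 * (k * C0))] with r hr g hg
  have hkC : 0 ≤ (k : ℝ) * C0 := mul_nonneg (Nat.cast_nonneg _) hC00
  have hP1 := XX_ge_one r
  have hP : 1 ≤ XX r / 512 := by
    rw [le_div_iff₀ (by norm_num)]
    linarith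
  have h3 : ∀ i ∈ (Finset.univ : Finset (Fin (n + 1))), |f (g i)| ≤
      3 / 2 * (XX r / 32) ^ k + C0 := by
    intro i _
    obtain ⟨h4, h5⟩ := Wk_le hP hg i
    refine (hbd _ h4).trans ?_
    have h6 : (g i : ℝ) ^ k ≤ (XX r / 32) ^ k := by
      apply pow_le_pow_left₀ (Nat.cast_nonneg _)
      linarith
    linarith
  refine (Finset.abs_sum_le_sum_abs _ _).trans ((Finset.sum_le_sum h3).trans ?_)
  rw [Finset.sum_const, Finset.card_univ, Fintype.card_fin, nsmul_eq_mul]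
  have hnk : ((n + 1 : ℕ) : ℝ) ≤ k := by exact_mod_cast hn.le
  have h7 : 0 ≤ 3 / 2 * (XX r / 32) ^ k + C0 := by positivity
  refine (mul_le_mul_of_nonneg_right hnk h7).trans ?_
  have hPk : XX r ≤ (XX r) ^ k := le_self_pow₀ hP1 (by omega)
  have h8 : (k : ℝ) * (3 / 2 * (XX r / 32) ^ k) ≤ (XX r) ^ k / 32 := by
    rw [div_pow]
    have h9 : (k : ℝ) * 48 ≤ 32 ^ k := by
      have h10 : (k : ℝ) ≤ 2 ^ k := by exact_mod_cast (Nat.lt_two_pow_self (n := k)).le
      have h11 : (48 : ℝ) ≤ 16 ^ k := by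
        calc (48 : ℝ) ≤ 16 ^ 3 := by norm_num
          _ ≤ 16 ^ k := pow_le_pow_right₀ (by norm_num) hk
      calc (k : ℝ) * 48 ≤ 2 ^ k * 16 ^ k := mul_le_mul h10 h11 (by norm_num) (by positivity)
        _ = 32 ^ k := by rw [← mul_pow]; norm_num
    have h12 : (0 : ℝ) < 32 ^ k := by positivity
    have h13 : 0 ≤ (XX r) ^ k := by positivity
    rw [show (k : ℝ) * (3 / 2 * ((XX r) ^ k / 32 ^ k)) = ((k : ℝ) * 48) * (XX r) ^ k / (32 * 32 ^ k)
      by field_simp; ring]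
    rw [div_le_div_iff₀ (by positivity) (by norm_num)]
    have h14 := mul_le_mul_of_nonneg_right h9 h13
    nlinarith
  have h9 : (k : ℝ) * C0 ≤ (XX r) ^ k / 32 := by
    rw [le_div_iff₀ (by norm_num)]
    linarith
  rw [mul_add]
  linarith

/-- The letters are positive. -/
theorem WkS_pos {n : ℕ} {P : ℝ} (hP : 0 ≤ P) {x : Fin (n + 1) → ℕ} (hx : x ∈ Wk n P)
    (i : Fin (n + 1)) : 1 ≤ x i := by
  unfold Wk at hx
  rw [Fintype.mem_piFinset] at hx
  have h := hx i
  unfold RR at h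
  split_ifs at h with h0
  · have h1 := ((mem_mainI hP).1 h).1
    have h2 : (0 : ℝ) < (x i : ℝ) := by linarith
    have : 0 < x i := by exact_mod_cast h2
    omega
  · rw [Finset.mem_Ioc] at h
    omega

theorem fs_ofFn (f : ℕ → ℝ) {n : ℕ} (g : Fin n → ℕ) : fs f (List.ofFn g) = ∑ i, ⌊f (g i)⌋ := by
  rw [fs, List.map_ofFn, List.sum_ofFn]
  rfl

theorem floor_mixS {k n q1 : ℕ} (hk : 3 ≤ k) (hn : n + 1 < k)
    (hq : xb k q1 ≤ ((n + 1 : ℕ) : ℝ)) {g : Polynomial ℝ} (hg : g.natDegree < k) :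
    ∀ᵐ t : Fin (n + 1) → ℝ, ∀ A : ℕ, 1 ≤ A →
      MixL k A (fun x : ℕ => (x : ℝ) ^ k + g.eval (x : ℝ) +
        ∑ i : Fin (n + 1), t i * (x : ℝ) ^ (n + 1 - (i : ℕ))) (2 * (q1 + 1)) (2 * (n + 1) + 1) := by
  obtain ⟨σ, hσ, hW⟩ := weylG (by omega : 1 ≤ n + 1) hn
  have hf0 := FinT_good0 (by omega : 2 ≤ k) hg
  have hev : ∀ᵐ t : Fin (n + 1) → ℝ, FWar.Dioph ((g.coeff (n + 1) + t 0) / 1) := by
    have h1 : Measure.QuasiMeasurePreserving (Function.eval (0 : Fin (n + 1)))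
        (volume : Measure (Fin (n + 1) → ℝ)) (volume : Measure ℝ) :=
      Measure.quasiMeasurePreserving_eval (fun _ => volume) 0
    exact h1.ae (ae_dioph_affine (b := g.coeff (n + 1)) (c := 1) one_ne_zero)
  filter_upwards [aeS (n := n) (by omega : 2 ≤ k) hq (fun x : ℕ => (x : ℝ) ^ k + g.eval (x : ℝ))
    (ε := σ / 8) (by linarith), hev] with t htA htD
  intro A hA1
  have hA0 : (0 : ℝ) < A := by
    have : 0 < A := hA1
    exact_mod_cast this
  obtain ⟨g1, hg1⟩ : ∃ g1 : Polynomial ℝ, g1 = g + ∑ i : Fin (n + 1), Polynomial.C (t i) *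
    Polynomial.X ^ (n + 1 - (i : ℕ)) := ⟨_, rfl⟩
  have hg1d : g1.natDegree < k := by
    rw [hg1]
    refine lt_of_le_of_lt (Polynomial.natDegree_add_le _ _) (max_lt hg ?_)
    have : (∑ i : Fin (n + 1), Polynomial.C (t i) *
        Polynomial.X ^ (n + 1 - (i : ℕ))).natDegree ≤ n + 1 := by
      apply Polynomial.natDegree_sum_le_of_forall_le
      intro m _
      refine (Polynomial.natDegree_C_mul_X_pow_le _ _).trans ?_
      omega
    omega
  obtain ⟨f, hf⟩ : ∃ f : ℕ → ℝ, f = fun x : ℕ => (x : ℝ) ^ k + g.eval (x : ℝ) +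
    ∑ i : Fin (n + 1), t i * (x : ℝ) ^ (n + 1 - (i : ℕ)) := ⟨_, rfl⟩
  have hfg : f = fun x : ℕ => (x : ℝ) ^ k + g1.eval (x : ℝ) := by
    rw [hf, hg1]
    funext x
    simp only [Polynomial.eval_add, Polynomial.eval_finsetSum, Polynomial.eval_mul,
      Polynomial.eval_C, Polynomial.eval_pow, Polynomial.eval_X]
    ring
  have hh' : Good k f := by
    rw [hfg]
    exact FinT_good0 (by omega : 2 ≤ k) hg1d
  rw [← hf]
  have key := floor_basisT (κ := (k : ℝ)) (α := (A : ℝ)) (σ := σ)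
    (F := fun x : ℕ => (A : ℝ) * (x : ℝ) ^ k) (f := fun x : ℕ => (A : ℝ) * f x) (d := n + 1)
    (W := fun r => WS k n q1 r) (sv := fun w => iv A k w.1 + ∑ i, ⌊(A : ℝ) * f (w.2 i)⌋)
    (rv := fun w => (A : ℝ) * val (fun x => (x : ℝ) ^ k) (fun _ => 0) w.1 +
      ∑ i, (A : ℝ) * f (w.2 i))
    (by have : (3 : ℝ) ≤ k := by exact_mod_cast hk
        linarith) hσ
    (FinS_grow (by omega) hA0 (good_pow (by omega : 1 ≤ k))) (FinS_grow (by omega) hA0 hh')
    ?_ ?_ ?_ ?_ ?_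
  · obtain ⟨N0, hN0⟩ := key
    refine ⟨N0, fun N hN => ?_⟩
    obtain ⟨r, u, hu, w, hw, u', hu', w', hw', z, hz, heq⟩ := hN0 N hN
    have hP := XX_pos r
    have hw1 := Finset.mem_product.1 hw
    have hw1' := Finset.mem_product.1 hw'
    have q3 : ∀ x ∈ mainI (XX r), 1 ≤ x := by
      intro x hx
      have h1 := ((mem_mainI hP.le).1 hx).1
      have h2 : (0 : ℝ) < (x : ℝ) := by linarith
      have : 0 < x := by exact_mod_cast h2
      omega
    refine ⟨(u :: w.1.map Prod.fst) ++ (u' :: w'.1.map Prod.fst),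
      List.ofFn w.2 ++ (List.ofFn w'.2 ++ [z]), ?_, ?_, ?_, ?_, ?_⟩
    · have l1 := chain_length hw1.1
      have l2 := chain_length hw1'.1
      simp only [List.length_append, List.length_cons, List.length_map]
      rw [l1, l2]
      ring
    · simp only [List.length_append, List.length_cons, List.length_ofFn, List.length_nil]
      ring
    · intro n hn
      simp only [List.mem_append, List.mem_cons, List.mem_map] at hn
      rcases hn with (rfl | ⟨p, hp, rfl⟩) | (rfl | ⟨p, hp, rfl⟩)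
      · exact q3 _ hu
      · exact chain_fst_pos hw1.1 p hp
      · exact q3 _ hu'
      · exact chain_fst_pos hw1'.1 p hp
    · intro m hm
      simp only [List.mem_append, List.mem_cons, List.mem_ofFn', Set.mem_range, List.not_mem_nil,
        or_false] at hm
      rcases hm with ⟨i, rfl⟩ | (⟨i, rfl⟩ | rfl)
      · exact WkS_pos (by positivity) hw1.2 i
      · exact WkS_pos (by positivity) hw1'.2 i
      · have h1 := ((mem_J1 hP.le).1 hz).1
        have h2 : (0 : ℝ) < (m : ℝ) := by linarith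
        have : 0 < m := by exact_mod_cast h2
        omega
    · rw [← heq]
      have e1 : ∀ x : ℕ, ⌊(A : ℝ) * (x : ℝ) ^ k⌋ = (A : ℤ) * (x : ℤ) ^ k := by
        intro x
        have : (A : ℝ) * (x : ℝ) ^ k = (((A : ℤ) * (x : ℤ) ^ k : ℤ) : ℝ) := by push_cast; rfl
        rw [this, Int.floor_intCast]
      rw [e1, e1, List.map_append, List.map_cons, List.map_cons, List.sum_append, List.sum_cons,
        List.sum_cons, iv_map, iv_map]
      have e2 : fs (fun x => (A : ℝ) * f x) (List.ofFn w.2 ++ (List.ofFn w'.2 ++ [z])) =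
          ∑ i, ⌊(A : ℝ) * f (w.2 i)⌋ + (∑ i, ⌊(A : ℝ) * f (w'.2 i)⌋ + ⌊(A : ℝ) * f z⌋) := by
        rw [← fs_ofFn (fun x => (A : ℝ) * f x) w.2, ← fs_ofFn (fun x => (A : ℝ) * f x) w'.2]
        simp only [fs, List.map_append, List.sum_append, List.map_cons, List.map_nil,
          List.sum_cons, List.sum_nil, add_zero]
      rw [e2]
      ring
  · -- Weyl
    obtain ⟨g', hg'⟩ : ∃ g' : Polynomial ℝ, g' = Polynomial.C (A : ℝ) * g1 := ⟨_, rfl⟩
    have hd' : g'.natDegree < k := by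
      rw [hg']
      exact lt_of_le_of_lt (Polynomial.natDegree_C_mul_le _ _) hg1d
    have hc' : g'.coeff (n + 1) / (A : ℝ) = (g.coeff (n + 1) + t 0) / 1 := by
      have e1 : ∀ i : Fin (n + 1), (Polynomial.C (t i) *
          Polynomial.X ^ (n + 1 - (i : ℕ))).coeff (n + 1) = if i = 0 then t 0 else 0 := by
        intro i
        rw [Polynomial.coeff_C_mul_X_pow]
        by_cases hi : i = 0
        · subst hi
          simp
        · have h1 : (i : ℕ) ≠ 0 := fun h => hi (Fin.ext (by simpa using h))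
          rw [if_neg (by omega), if_neg hi]
      rw [hg', Polynomial.coeff_C_mul, hg1, Polynomial.coeff_add, Polynomial.finset_sum_coeff]
      simp only [e1, Finset.sum_ite_eq', Finset.mem_univ, if_true]
      field_simp
    have h1 := hW A g' hA0 hd' (by rw [hc']; exact htD)
    filter_upwards [h1] with r hr θ hθ1 hθ2
    have h2 := hr θ hθ1 hθ2
    refine le_trans (le_of_eq ?_) h2
    congr 1
    refine sum_congr rfl fun z _ => ?_
    congr 2
    rw [hg', hfg, Polynomial.eval_mul, Polynomial.eval_C]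
    ring
  · -- values
    intro r w hw
    have h1 : ((∑ i, ⌊(A : ℝ) * f (w.2 i)⌋ : ℤ) : ℝ) ≤ ∑ i, (A : ℝ) * f (w.2 i) := by
      push_cast
      exact Finset.sum_le_sum fun i _ => Int.floor_le _
    have h2 : ∑ i, (A : ℝ) * f (w.2 i) - ((n + 1 : ℕ) : ℝ) ≤
        ((∑ i, ⌊(A : ℝ) * f (w.2 i)⌋ : ℤ) : ℝ) := by
      push_cast
      have : ∑ i, (A : ℝ) * f (w.2 i) ≤ ∑ i, ((⌊(A : ℝ) * f (w.2 i)⌋ : ℝ) + 1) :=
        Finset.sum_le_sum fun i _ => (Int.lt_floor_add_one _).le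
      rw [Finset.sum_add_distrib] at this
      simp only [Finset.sum_const, Finset.card_univ, Fintype.card_fin, nsmul_eq_mul,
        mul_one] at this
      push_cast at this
      linarith
    have e1 : (((iv A k w.1 + ∑ i, ⌊(A : ℝ) * f (w.2 i)⌋ : ℤ)) : ℝ) =
        (A : ℝ) * val (fun x => (x : ℝ) ^ k) (fun _ => 0) w.1 +
        ((∑ i, ⌊(A : ℝ) * f (w.2 i)⌋ : ℤ) : ℝ) := by
      rw [Int.cast_add, iv_val]
    rw [e1]
    constructor
    · linarith
    · linarith
  · -- nonempty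
    filter_upwards [totS_ev n q1 (by omega : 2 ≤ k)] with r hr
    have h1 : (CT k q1 r).Nonempty := by
      rw [← Finset.card_pos]
      exact_mod_cast hr.2.1
    have h2 : (Wk n (XX r / 512)).Nonempty := by
      rw [← Finset.card_pos]
      exact_mod_cast hr.2.2
    exact h1.product h2
  · -- sizes
    filter_upwards [sizeC hk q1, sizeS hk hn hh'] with r hr1 hr2 w hw
    have hP := XX_pos r
    have hw1 := Finset.mem_product.1 hw
    have h1 := hr1 w.1 hw1.1
    have h2 := hr2 w.2 hw1.2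
    rw [← Finset.mul_sum, Real.rpow_natCast, ← mul_add, abs_mul, abs_of_pos hA0, mul_div_assoc]
    apply mul_le_mul_of_nonneg_left _ hA0.le
    have h4 := abs_add_le (val (fun x => (x : ℝ) ^ k) (fun _ => 0) w.1) (∑ i, f (w.2 i))
    have h5 : 0 ≤ (XX r) ^ k := by positivity
    linarith
  · -- coincidences
    have h1 := htA ((((n + 1 : ℕ) : ℝ) + 1) / A)
    filter_upwards [h1] with r hr
    rw [Real.rpow_natCast]
    refine le_trans (pairs_mono _ ?_) hr
    intro w _ w' _ hww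
    dsimp only at hww ⊢
    have e1 : ∀ w : ℕ × (List (ℕ × ℕ) × (Fin (n + 1) → ℕ)), (A : ℝ) * (w.1 : ℝ) ^ k +
        ((A : ℝ) * val (fun x => (x : ℝ) ^ k) (fun _ => 0) w.2.1 +
          ∑ i, (A : ℝ) * f (w.2.2 i)) =
        A * (aS k (fun x => (x : ℝ) ^ k + g.eval (x : ℝ)) w + ∑ l, bS w l * t l) := by
      intro w
      have e2 : ∑ l, bS w l * t l =
          ∑ i, ∑ l : Fin (n + 1), t l * ((w.2.2 i : ℕ) : ℝ) ^ (n + 1 - (l : ℕ)) := by
        unfold bS pws
        rw [Finset.sum_comm]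
        refine Finset.sum_congr rfl fun l _ => ?_
        rw [Finset.sum_mul]
        exact Finset.sum_congr rfl fun i _ => mul_comm _ _
      rw [e2, ← Finset.mul_sum]
      unfold aS
      rw [hf]
      simp only [Finset.sum_add_distrib]
      ring
    rw [e1 w, e1 w', ← mul_sub, abs_mul, abs_of_pos hA0] at hww
    rwa [le_div_iff₀' hA0]

end XWar
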