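import Pool.Agent.XWar.ResC
import Pool.Agent.XWar.DimX

/-!
# XWar.ResD: plain powers and values of a polynomial on a curve, dimension of the exceptional set

As `Pool/Agent/XWar/FinC.lean` and `Pool/Agent/XWar/ResC.lean`; the exceptional points of the curve form a set of
Hausdorff dimension at most `δ < 1`, where `δ` depends only on the degrees `k` and `j`.
-/

namespace XWar

open TWar MWg FWar UWar YWar Finset MeasureTheory Filter Topology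

private theorem ResD_anti {f f' : ℝ → ℝ} {a b δ0 : ℝ} (hδ0 : 0 < δ0)
    (hf : ∀ t, HasDerivAt f (f' t) t) (hlow : ∀ t ∈ Set.Icc a b, δ0 ≤ |f' t|) :
    ∀ x ∈ Set.Icc a b, ∀ y ∈ Set.Icc a b, δ0 * |x - y| ≤ |f x - f y| := by
  have hlt : ∀ x ∈ Set.Icc a b, ∀ y ∈ Set.Icc a b, x < y → δ0 * |x - y| ≤ |f x - f y| := by
    intro x hx y hy hxy
    obtain ⟨z, hz, hz2⟩ := exists_hasDerivAt_eq_slope f f' hxy
      (fun t _ => (hf t).continuousAt.continuousWithinAt) (fun t _ => hf t)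
    have h1 := hlow z ⟨by linarith [hx.1, hz.1], by linarith [hy.2, hz.2]⟩
    have h2 : f y - f x = f' z * (y - x) := by
      rw [hz2]
      field_simp [(by linarith : y - x ≠ 0)]
    rw [abs_sub_comm (f x), h2, abs_mul, abs_sub_comm x]
    exact mul_le_mul_of_nonneg_right h1 (abs_nonneg _)
  intro x hx y hy
  rcases lt_trichotomy x y with h | h | h
  · exact hlt x hx y hy h
  · rw [h]
    simp
  · rw [abs_sub_comm, abs_sub_comm (f x)]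
    exact hlt y hy x hx h

private theorem ResD_dioph {f f' : ℝ → ℝ} {a b δ0 : ℝ} (hδ0 : 0 < δ0)
    (hf : ∀ t, HasDerivAt f (f' t) t) (hlow : ∀ t ∈ Set.Icc a b, δ0 ≤ |f' t|) :
    dimH {t : ℝ | t ∈ Set.Icc a b ∧ ¬ Dioph (f t)} ≤ ENNReal.ofReal (3 / 4) := by
  have h0 : dimH {y : ℝ | ¬ Dioph y} ≤ ENNReal.ofReal (3 / 4) := by
    have h := dim_dioph_affine (b := 0) (c := 1) one_ne_zero
    simpa using h
  have hanti := ResD_anti hδ0 hf hlow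
  obtain ⟨F, hF⟩ : ∃ F : Set.Icc a b → ℝ, F = fun t : Set.Icc a b => f t.1 := ⟨_, rfl⟩
  have hA : AntilipschitzWith (⟨1 / δ0, by positivity⟩ : NNReal) F := by
    refine AntilipschitzWith.of_le_mul_dist fun x y => ?_
    rw [hF]
    show dist (x : ℝ) (y : ℝ) ≤ (1 / δ0) * dist (f x) (f y)
    rw [Real.dist_eq, Real.dist_eq]
    have := hanti x x.2 y y.2
    rw [one_div, ← div_eq_inv_mul, le_div_iff₀ hδ0]
    linarith
  have himg : {t : ℝ | t ∈ Set.Icc a b ∧ ¬ Dioph (f t)} =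
      Subtype.val '' (F ⁻¹' {y : ℝ | ¬ Dioph y}) := by
    ext t
    constructor
    · rintro ⟨ht, h⟩
      exact ⟨⟨t, ht⟩, by rw [hF]; exact h, rfl⟩
    · rintro ⟨⟨s, hs⟩, h, rfl⟩
      rw [hF] at h
      exact ⟨hs, h⟩
  rw [himg, isometry_subtype_coe.dimH_image]
  exact (hA.dimH_preimage_le _).trans h0

private theorem ResD_union {A B : Set ℝ} {a b : ℝ} (hA : dimH A ≤ ENNReal.ofReal a)
    (hB : dimH B ≤ ENNReal.ofReal b) : dimH (A ∪ B) ≤ ENNReal.ofReal (max a b) := by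
  rw [dimH_union]
  exact max_le (hA.trans (ENNReal.ofReal_le_ofReal (le_max_left _ _)))
    (hB.trans (ENNReal.ofReal_le_ofReal (le_max_right _ _)))

/-- One interval. -/
theorem floor_mixD {k j : ℕ} (hj : 2 ≤ j) (hjk : j < k) :
    ∃ d : ℝ, d < 1 ∧ ∀ q1 q2 : ℕ, xb k q1 + yg j q2 ≤ (j : ℝ) →
    ∀ {g : Polynomial ℝ}, g.natDegree < k →
    ∀ {c c1 : ℕ → ℝ → ℝ}, (∀ i < j + 1, ∀ s, HasDerivAt (c i) (c1 i s) s) →
    ∀ {a b T δ0 : ℝ}, a ≤ b → 0 ≤ T → 0 < δ0 → (∀ i < j + 1, ∀ s ∈ Set.Icc a b, |c1 i s| ≤ T) →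
    (∀ s ∈ Set.Icc a b, δ0 ≤ |c1 j s|) →
    dimH {s : ℝ | s ∈ Set.Icc a b ∧ ¬ ∀ A : ℕ, 1 ≤ A →
      MixL k A (fc k j g c s) (2 * (q1 + 1)) (2 * q2 + 1)} ≤ ENNReal.ofReal d := by
  obtain ⟨σ, hσ, hW⟩ := weylG (by omega : 1 ≤ j) hjk
  obtain ⟨ε, hεdef⟩ : ∃ ε : ℝ, ε = min (σ / 8) 1 := ⟨_, rfl⟩
  have hε : 0 < ε := by rw [hεdef]; exact lt_min (by linarith) one_pos
  have hε8 : ε ≤ σ / 8 := by rw [hεdef]; exact min_le_left _ _
  have hε1 : ε ≤ 1 := by rw [hεdef]; exact min_le_right _ _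
  have hkR : (3 : ℝ) ≤ k := by exact_mod_cast (by omega : 3 ≤ k)
  refine ⟨max (3 / 4) (1 - ε / (4 * k)), max_lt (by norm_num) ?_, ?_⟩
  · have : 0 < ε / (4 * k) := by positivity
    linarith
  intro q1 q2 hq g hg c c1 h1 a b T δ0 hab hT hδ0 hb hlow
  obtain ⟨D, hD, hA⟩ := dimX hj hjk hq g h1 hab hT hδ0 hb hlow hε hε1
  have hDio : dimH {s : ℝ | s ∈ Set.Icc a b ∧ ¬ Dioph (g.coeff j + c j s)} ≤
      ENNReal.ofReal (3 / 4) :=
    ResD_dioph (f := fun s => g.coeff j + c j s) (f' := c1 j) hδ0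
      (fun t => (h1 j (by omega) t).const_add _) hlow
  have hsub := ResD_union hDio hA
  refine (dimH_mono ?_).trans hsub
  rintro s ⟨hsab, hs⟩
  by_contra hcon
  rw [Set.mem_union, not_or] at hcon
  obtain ⟨hD1, hA1⟩ := hcon
  have hsD : Dioph (g.coeff j + c j s) := by
    by_contra h
    exact hD1 ⟨hsab, h⟩
  refine hs ?_
  refine mixC_fixed (D := D) hD hj hjk hσ hW (GP_deg hjk hg c s)
    (by rw [GP_coeff]; exact hsD) (GP_eval k j g c s) ?_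
  intro M
  have h2 : ¬ ∃ᶠ r : ℕ in atTop,
      (XX r) ^ ε * ((XD D k j q1 q2 r).card : ℝ) ^ 2 / (XX r) ^ k <
      pairs (XD D k j q1 q2 r) (fun p =>
        |aT k (fc k j g c s) p.1 - aT k (fc k j g c s) p.2| ≤ M) :=
    fun h => hA1 ⟨hsab, M, h⟩
  rw [not_frequently] at h2
  filter_upwards [h2] with r hr
  refine (not_lt.1 hr).trans ?_
  have hX1 : 1 ≤ XX r := XX_ge_one r
  have hX0 := XX_pos r
  have h3 : (XX r) ^ ε ≤ (XX r) ^ (σ / 8) := Real.rpow_le_rpow_of_exponent_le hX1 hε8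
  have h4 : (0 : ℝ) ≤ ((XD D k j q1 q2 r).card : ℝ) ^ 2 := by positivity
  exact div_le_div_of_nonneg_right (mul_le_mul_of_nonneg_right h3 h4) (by positivity)

private theorem bdd_fam {k : ℕ} {f : ℕ → ℝ → ℝ} (hf : ∀ i < k, Continuous (f i)) (a b : ℝ) :
    ∃ T : ℝ, 0 ≤ T ∧ ∀ i < k, ∀ t ∈ Set.Icc a b, |f i t| ≤ T := by
  have hc : Continuous fun t => ∑ i ∈ Finset.range k, |f i t| :=
    continuous_finsetSum _ fun i hi => (hf i (Finset.mem_range.1 hi)).abs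
  obtain ⟨T, hT⟩ := (isCompact_Icc (a := a) (b := b)).exists_bound_of_continuousOn hc.continuousOn
  refine ⟨max T 0, le_max_right _ _, fun i hi t ht => ?_⟩
  have h1 := hT t ht
  rw [Real.norm_eq_abs] at h1
  have h2 : |f i t| ≤ ∑ i ∈ Finset.range k, |f i t| :=
    Finset.single_le_sum (f := fun i => |f i t|) (fun j _ => abs_nonneg _)
      (Finset.mem_range.2 hi)
  exact (h2.trans (le_abs_self _)).trans (h1.trans (le_max_left _ _))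

/-- The whole curve. -/
theorem mix_curveD {k j : ℕ} (hj : 2 ≤ j) (hjk : j < k) :
    ∃ d : ℝ, d < 1 ∧ ∀ q1 q2 : ℕ, xb k q1 + yg j q2 ≤ (j : ℝ) →
    ∀ {g : Polynomial ℝ}, g.natDegree < k →
    ∀ {c : ℕ → ℝ → ℝ}, (∀ i < j + 1, ContDiff ℝ 1 (c i)) →
    dimH {s : ℝ | deriv (c j) s ≠ 0 ∧ ¬ ∀ A : ℕ, 1 ≤ A →
      MixL k A (fc k j g c s) (2 * (q1 + 1)) (2 * q2 + 1)} ≤ ENNReal.ofReal d := by
  obtain ⟨d, hd, h⟩ := floor_mixD hj hjk
  refine ⟨d, hd, fun q1 q2 hq g hg c hc => ?_⟩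
  have h1 : ∀ i < j + 1, ∀ t, HasDerivAt (c i) (deriv (c i) t) t := fun i hi t =>
    (((hc i hi).differentiable (by norm_num)) t).hasDerivAt
  have k1 : ∀ i < j + 1, Continuous (deriv (c i)) := fun i hi => (hc i hi).continuous_deriv le_rfl
  have hjj : j < j + 1 := by omega
  obtain ⟨E, hE⟩ : ∃ E : (ℚ × ℚ) × ℕ → Set ℝ, E = fun p =>
      {t : ℝ | (p.1.1 : ℝ) ≤ p.1.2 ∧
        (∀ s ∈ Set.Icc (p.1.1 : ℝ) p.1.2, 1 / ((p.2 : ℝ) + 1) ≤ |deriv (c j) s|) ∧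
        t ∈ Set.Icc (p.1.1 : ℝ) p.1.2 ∧ ¬ ∀ A : ℕ, 1 ≤ A →
      MixL k A (fc k j g c t) (2 * (q1 + 1)) (2 * q2 + 1)} := ⟨_, rfl⟩
  have hsub : {s : ℝ | deriv (c j) s ≠ 0 ∧ ¬ ∀ A : ℕ, 1 ≤ A →
      MixL k A (fc k j g c s) (2 * (q1 + 1)) (2 * q2 + 1)} ⊆ ⋃ p, E p := by
    rintro t ⟨ht, hbad⟩
    have habs : 0 < |deriv (c j) t| := abs_pos.2 ht
    obtain ⟨n, hn⟩ := exists_nat_one_div_lt habs
    have hev : ∀ᶠ s in 𝓝 t, 1 / ((n : ℝ) + 1) < |deriv (c j) s| :=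
      (k1 j hjj).abs.continuousAt.eventually (lt_mem_nhds hn)
    obtain ⟨η, hη, hball⟩ := Metric.eventually_nhds_iff.1 hev
    obtain ⟨p, hp1, hp2⟩ := exists_rat_btwn (show t - η < t by linarith)
    obtain ⟨p', hp1', hp2'⟩ := exists_rat_btwn (show t < t + η by linarith)
    rw [Set.mem_iUnion]
    refine ⟨((p, p'), n), ?_⟩
    rw [hE]
    refine ⟨by show (p : ℝ) ≤ p'; linarith, fun s hs => ?_, ⟨hp2.le, hp1'.le⟩, hbad⟩
    refine (hball ?_).le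
    have hs1 : (p : ℝ) ≤ s := hs.1
    have hs2 : s ≤ (p' : ℝ) := hs.2
    rw [Real.dist_eq, abs_lt]
    constructor <;> linarith
  refine (dimH_mono hsub).trans ?_
  rw [dimH_iUnion]
  refine iSup_le fun p => ?_
  by_cases hp : (p.1.1 : ℝ) ≤ p.1.2 ∧
      ∀ s ∈ Set.Icc (p.1.1 : ℝ) p.1.2, 1 / ((p.2 : ℝ) + 1) ≤ |deriv (c j) s|
  · obtain ⟨hab, hlow⟩ := hp
    obtain ⟨T, hT, hb⟩ := bdd_fam k1 (p.1.1 : ℝ) p.1.2
    have h3 := h q1 q2 hq hg h1 hab hT (δ0 := 1 / ((p.2 : ℝ) + 1)) (by positivity) hb hlow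
    refine (dimH_mono ?_).trans h3
    intro t ht
    rw [hE] at ht
    exact ⟨ht.2.2.1, ht.2.2.2⟩
  · have : E p = ∅ := by
      rw [hE]
      ext t
      simp only [Set.mem_empty_iff_false, iff_false]
      exact fun ht => hp ⟨ht.1, ht.2.1⟩
    rw [this, dimH_empty]
    exact zero_le

theorem res_curveD {k j : ℕ} (hj : 2 ≤ j) (hjk : j < k) :
    ∃ δ : ℝ, δ < 1 ∧ ∀ (g : Polynomial ℝ) (c : ℕ → ℝ → ℝ), g.natDegree < k →
    (∀ i ≤ j, ContDiff ℝ 1 (c i)) →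
    dimH {s : ℝ | deriv (c j) s ≠ 0 ∧ ¬ ∀ (r m : ℕ) (b : ℝ), 0 < b → b < 1 →
      2 * k * Real.log (k / (j * (1 - b))) + 2 ≤ (r : ℝ) →
      2 * j * Real.log (1 / b) + 3 ≤ (m : ℝ) →
      ExactU k r m (fun x => (x : ℝ) ^ k + g.eval (x : ℝ) +
        ∑ i ∈ Finset.range (j + 1), c i s * (x : ℝ) ^ i) ∧
      ApproxU k r m (fun x => (x : ℝ) ^ k + g.eval (x : ℝ) +
        ∑ i ∈ Finset.range (j + 1), c i s * (x : ℝ) ^ i)} ≤ ENNReal.ofReal δ := by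
  obtain ⟨d, hd, h⟩ := mix_curveD hj hjk
  refine ⟨d, hd, fun g c hg hc => ?_⟩
  have hsub : {s : ℝ | deriv (c j) s ≠ 0 ∧ ¬ ∀ (r m : ℕ) (b : ℝ), 0 < b → b < 1 →
      2 * k * Real.log (k / (j * (1 - b))) + 2 ≤ (r : ℝ) →
      2 * j * Real.log (1 / b) + 3 ≤ (m : ℝ) →
      ExactU k r m (fun x => (x : ℝ) ^ k + g.eval (x : ℝ) +
        ∑ i ∈ Finset.range (j + 1), c i s * (x : ℝ) ^ i) ∧
      ApproxU k r m (fun x => (x : ℝ) ^ k + g.eval (x : ℝ) +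
        ∑ i ∈ Finset.range (j + 1), c i s * (x : ℝ) ^ i)} ⊆
      ⋃ p : ℕ × ℕ, {s : ℝ | xb k p.1 + yg j p.2 ≤ (j : ℝ) ∧ deriv (c j) s ≠ 0 ∧ ¬ ∀ A : ℕ, 1 ≤ A →
      MixL k A (fc k j g c s) (2 * (p.1 + 1)) (2 * p.2 + 1)} := by
    rintro s ⟨hs, hbad⟩
    by_contra hcon
    rw [Set.mem_iUnion] at hcon
    refine hbad ?_
    intro r m b hb hb1 hr hm
    obtain ⟨q1, q2, hq, hr', hm'⟩ := numX hj hjk hb hb1 hr hm
    have h3 : ∀ A : ℕ, 1 ≤ A → MixL k A (fc k j g c s) (2 * (q1 + 1)) (2 * q2 + 1) := by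
      by_contra h4
      exact hcon ⟨(q1, q2), hq, hs, h4⟩
    exact ⟨exactU_mono hr' hm' (exact_of_mix (h3 1 le_rfl)),
      approxU_mono hr' hm' (approx_of_mix h3)⟩
  refine (dimH_mono hsub).trans ?_
  rw [dimH_iUnion]
  refine iSup_le fun p => ?_
  by_cases hq : xb k p.1 + yg j p.2 ≤ (j : ℝ)
  · refine (dimH_mono ?_).trans (h p.1 p.2 hq hg (fun i hi => hc i (by omega)))
    rintro s ⟨_, hs⟩
    exact hs
  · have : {s : ℝ | xb k p.1 + yg j p.2 ≤ (j : ℝ) ∧ deriv (c j) s ≠ 0 ∧ ¬ ∀ A : ℕ, 1 ≤ A →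
      MixL k A (fc k j g c s) (2 * (p.1 + 1)) (2 * p.2 + 1)} = ∅ := by
      ext s
      simp only [Set.mem_empty_iff_false, iff_false]
      exact fun hs => hq hs.1
    rw [this, dimH_empty]
    exact zero_le

end XWar
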