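import Pool.Agent.XWar.FinE
import Pool.Agent.XWar.ResD

/-!
# XWar.ResE: plain powers and values of a polynomial, moving leading coefficient

Curves `f_s = c_k(s) x^k + ... + c_0(s)`, `c_k(s) > 0`, `c_k'(s) ≠ 0`. The case `c_k ≤ 1` is `floor_mixE`; the
general case follows with plain powers of multiples of a large `M` (`mix_scale`).
-/

namespace XWar

open TWar MWg FWar UWar YWar Finset MeasureTheory Filter Topology

private theorem ResE_anti {f f' : ℝ → ℝ} {a b δ0 : ℝ} (hδ0 : 0 < δ0)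
    (hf : ∀ t, HasDerivAt f (f' t) t) (hlow : ∀ t ∈ Set.Icc a b, δ0 ≤ |f' t|) :
    ∀ x ∈ Set.Icc a b, ∀ y ∈ Set.Icc a b, δ0 * |x - y| ≤ |f x - f y| := by
  have hlt : ∀ x ∈ Set.Icc a b, ∀ y ∈ Set.Icc a b, x < y → δ0 * |x - y| ≤ |f x - f y| := by
    intro x hx y hy hxy
    obtain ⟨z, hz, hz2⟩ := exists_hasDerivAt_eq_slope f f' hxy
      (fun t _ => (hf t).continuousAt.continuousWithinAt) (fun t _ => hf t)
    have h1 := hlow z ⟨by linarith [hx.1, hz.1], by linarith [hy.2, hz.2]⟩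
    have h2 : f y - f x = f' z * (y - x) := by
      rw [hz2]
      field_simp [(by linarith : y - x ≠ 0)]
    rw [abs_sub_comm (f x), h2, abs_mul, abs_sub_comm x]
    exact mul_le_mul_of_nonneg_right h1 (abs_nonneg _)
  intro x hx y hy
  rcases lt_trichotomy x y with h | h | h
  · exact hlt x hx y hy h
  · rw [h]
    simp
  · rw [abs_sub_comm, abs_sub_comm (f x)]
    exact hlt y hy x hx h

private theorem ResE_dioph {f f' : ℝ → ℝ} {a b δ0 : ℝ} (hδ0 : 0 < δ0)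
    (hf : ∀ t, HasDerivAt f (f' t) t) (hlow : ∀ t ∈ Set.Icc a b, δ0 ≤ |f' t|) :
    dimH {t : ℝ | t ∈ Set.Icc a b ∧ ¬ Dioph (f t)} ≤ ENNReal.ofReal (3 / 4) := by
  have h0 : dimH {y : ℝ | ¬ Dioph y} ≤ ENNReal.ofReal (3 / 4) := by
    have h := dim_dioph_affine (b := 0) (c := 1) one_ne_zero
    simpa using h
  have hanti := ResE_anti hδ0 hf hlow
  obtain ⟨F, hF⟩ : ∃ F : Set.Icc a b → ℝ, F = fun t : Set.Icc a b => f t.1 := ⟨_, rfl⟩
  have hA : AntilipschitzWith (⟨1 / δ0, by positivity⟩ : NNReal) F := by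
    refine AntilipschitzWith.of_le_mul_dist fun x y => ?_
    rw [hF]
    show dist (x : ℝ) (y : ℝ) ≤ (1 / δ0) * dist (f x) (f y)
    rw [Real.dist_eq, Real.dist_eq]
    have := hanti x x.2 y y.2
    rw [one_div, ← div_eq_inv_mul, le_div_iff₀ hδ0]
    linarith
  have himg : {t : ℝ | t ∈ Set.Icc a b ∧ ¬ Dioph (f t)} =
      Subtype.val '' (F ⁻¹' {y : ℝ | ¬ Dioph y}) := by
    ext t
    constructor
    · rintro ⟨ht, h⟩
      exact ⟨⟨t, ht⟩, by rw [hF]; exact h, rfl⟩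
    · rintro ⟨⟨s, hs⟩, h, rfl⟩
      rw [hF] at h
      exact ⟨hs, h⟩
  rw [himg, isometry_subtype_coe.dimH_image]
  exact (hA.dimH_preimage_le _).trans h0

private theorem ResE_union {A B : Set ℝ} {a b : ℝ} (hA : dimH A ≤ ENNReal.ofReal a)
    (hB : dimH B ≤ ENNReal.ofReal b) : dimH (A ∪ B) ≤ ENNReal.ofReal (max a b) := by
  rw [dimH_union]
  exact max_le (hA.trans (ENNReal.ofReal_le_ofReal (le_max_left _ _)))
    (hB.trans (ENNReal.ofReal_le_ofReal (le_max_right _ _)))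

/-- `α x^k + ...` with `0 < α ≤ 1`. -/
theorem sm_lo {k : ℕ} (hk : 2 ≤ k) {d : ℕ → ℝ} (h0 : 0 < d k) (h1 : d k ≤ 1) :
    Sm k (fun x : ℕ => lo (k + 1) d (x : ℝ)) := by
  obtain ⟨h, hh⟩ : ∃ h : ℕ → ℝ, h = fun x : ℕ => (x : ℝ) ^ k + lo k (fun i => d i / d k) x := ⟨_, rfl⟩
  have hg : Good k h := by
    rw [hh]
    exact good_lo (good_pow (by omega : 1 ≤ k)) _ k le_rfl
  have he : ∀ x : ℕ, lo (k + 1) d (x : ℝ) = d k * h x := by
    intro x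
    rw [hh]
    show lo (k + 1) d (x : ℝ) = d k * ((x : ℝ) ^ k + lo k (fun i => d i / d k) x)
    unfold lo
    rw [sum_range_succ, mul_add, mul_sum, add_comm]
    congr 1
    refine sum_congr rfl fun i _ => ?_
    field_simp
  have hlim := good_lim (by omega : 1 ≤ k) hg
  have e1 : ∀ᶠ x : ℕ in atTop, h x / (x : ℝ) ^ k < 3 / 2 :=
    hlim.eventually (gt_mem_nhds (by norm_num))
  have e2 : ∀ᶠ x : ℕ in atTop, (0 : ℝ) < h x / (x : ℝ) ^ k :=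
    hlim.eventually (lt_mem_nhds (by norm_num))
  obtain ⟨x0, hx0⟩ := eventually_atTop.1 (e1.and e2)
  refine ⟨x0 + 1, fun x hx => ?_⟩
  obtain ⟨h3, h4⟩ := hx0 x (by omega)
  have hx1 : (0 : ℝ) < x := by
    have : 0 < x := by omega
    exact_mod_cast this
  have hxk : (0 : ℝ) < (x : ℝ) ^ k := by positivity
  rw [div_lt_iff₀ hxk] at h3
  have h5 : 0 < h x := by
    by_contra hcon
    push Not at hcon
    have := div_nonpos_of_nonpos_of_nonneg hcon hxk.le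
    linarith
  show 0 ≤ lo (k + 1) d (x : ℝ) ∧ lo (k + 1) d (x : ℝ) ≤ 3 / 2 * (x : ℝ) ^ k
  rw [he]
  constructor
  · positivity
  · have h6 : d k * h x ≤ 1 * h x := mul_le_mul_of_nonneg_right h1 h5.le
    linarith

/-- The polynomial. -/
noncomputable def GE (k : ℕ) (d : ℕ → ℝ) : Polynomial ℝ :=
  ∑ i ∈ Finset.range (k + 1), Polynomial.C (d i) * Polynomial.X ^ i

theorem GE_deg (k : ℕ) (d : ℕ → ℝ) : (GE k d).natDegree ≤ k := by
  unfold GE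
  apply Polynomial.natDegree_sum_le_of_forall_le
  intro i hi
  refine (Polynomial.natDegree_C_mul_X_pow_le _ _).trans ?_
  have := Finset.mem_range.1 hi
  omega

theorem GE_coeff (k : ℕ) (d : ℕ → ℝ) : (GE k d).coeff k = d k := by
  unfold GE
  rw [Polynomial.finsetSum_coeff]
  simp only [Polynomial.coeff_C_mul_X_pow]
  rw [Finset.sum_ite_eq (range (k + 1)) k (fun i => d i)]
  rw [if_pos (Finset.mem_range.2 (by omega))]

theorem GE_eval (k : ℕ) (d : ℕ → ℝ) (x : ℕ) : lo (k + 1) d (x : ℝ) = (GE k d).eval (x : ℝ) := by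
  unfold GE lo
  rw [Polynomial.eval_finsetSum]
  refine sum_congr rfl fun i _ => ?_
  rw [Polynomial.eval_mul, Polynomial.eval_C, Polynomial.eval_pow, Polynomial.eval_X]

/-- One interval, leading coefficient in `(0, 1]`. -/
theorem floor_mixE {k : ℕ} (hk : 2 ≤ k) :
    ∃ d : ℝ, d < 1 ∧ ∀ q1 q2 : ℕ, xb k q1 + yg k q2 ≤ (k : ℝ) →
    ∀ {c c1 : ℕ → ℝ → ℝ}, (∀ i < k + 1, ∀ s, HasDerivAt (c i) (c1 i s) s) →
    ∀ {a b T δ0 : ℝ}, a ≤ b → 0 ≤ T → 0 < δ0 → (∀ i < k + 1, ∀ s ∈ Set.Icc a b, |c1 i s| ≤ T) →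
    (∀ s ∈ Set.Icc a b, δ0 ≤ |c1 k s|) → (∀ s ∈ Set.Icc a b, 0 < c k s ∧ c k s ≤ 1) →
    dimH {s : ℝ | s ∈ Set.Icc a b ∧ ¬ ∀ A : ℕ, 1 ≤ A →
      MixL k A (fun x : ℕ => lo (k + 1) (fun i => c i s) (x : ℝ)) (2 * (q1 + 1) + 1) (2 * q2 + 1)} ≤
      ENNReal.ofReal d := by
  obtain ⟨σ, hσ, hW⟩ := weylE hk
  obtain ⟨ε, hεdef⟩ : ∃ ε : ℝ, ε = min (σ / 8) 1 := ⟨_, rfl⟩
  have hε : 0 < ε := by rw [hεdef]; exact lt_min (by linarith) one_pos
  have hε8 : ε ≤ σ / 8 := by rw [hεdef]; exact min_le_left _ _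
  have hε1 : ε ≤ 1 := by rw [hεdef]; exact min_le_right _ _
  have hkR : (2 : ℝ) ≤ k := by exact_mod_cast hk
  refine ⟨max (3 / 4) (1 - ε / (4 * (k + 1))), max_lt (by norm_num) ?_, ?_⟩
  · have : 0 < ε / (4 * ((k : ℝ) + 1)) := by positivity
    linarith
  intro q1 q2 hq c c1 h1 a b T δ0 hab hT hδ0 hb hlow hpos
  have h1' : ∀ (x : ℕ) (s : ℝ), HasDerivAt (fun s => (fun (s : ℝ) (x : ℕ) =>
      lo (k + 1) (fun i => c i s) (x : ℝ)) s x) (lo (k + 1) (fun i => c1 i s) (x : ℝ)) s := by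
    intro x s
    unfold lo
    refine HasDerivAt.fun_sum fun i hi => ?_
    exact (h1 i (Finset.mem_range.1 hi) s).mul_const _
  obtain ⟨D, hD, hA⟩ := dimE hk le_rfl hq h1' hab hT hδ0 hb hlow hε hε1
  have hDio : dimH {s : ℝ | s ∈ Set.Icc a b ∧ ¬ Dioph (c k s)} ≤
      ENNReal.ofReal (3 / 4) :=
    ResE_dioph (f := c k) (f' := c1 k) hδ0 (fun t => h1 k (by omega) t) hlow
  have hsub := ResE_union hDio hA
  refine (dimH_mono ?_).trans hsub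
  rintro s ⟨hsab, hs⟩
  by_contra hcon
  rw [Set.mem_union, not_or] at hcon
  obtain ⟨hD1, hA1⟩ := hcon
  have hsD : Dioph (c k s) := by
    by_contra h
    exact hD1 ⟨hsab, h⟩
  refine hs ?_
  refine mixE_fixed (D := D) hD hk hσ hW (GE_deg k (fun i => c i s))
    (by rw [GE_coeff]; exact hsD) (fun x => GE_eval k (fun i => c i s) x)
    (sm_lo hk (d := fun i => c i s) (hpos s hsab).1 (hpos s hsab).2) ?_
  intro M
  have h2 : ¬ ∃ᶠ r : ℕ in atTop,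
      (XX r) ^ ε * ((XD D k k q1 q2 r).card : ℝ) ^ 2 / (XX r) ^ k <
      pairs (XD D k k q1 q2 r) (fun p =>
        |aT k (fun x : ℕ => lo (k + 1) (fun i => c i s) (x : ℝ)) p.1 -
          aT k (fun x : ℕ => lo (k + 1) (fun i => c i s) (x : ℝ)) p.2| ≤ M) :=
    fun h => hA1 ⟨hsab, M, h⟩
  rw [not_frequently] at h2
  filter_upwards [h2] with r hr
  refine (not_lt.1 hr).trans ?_
  have hX1 : 1 ≤ XX r := XX_ge_one r
  have hX0 := XX_pos r
  have h3 : (XX r) ^ ε ≤ (XX r) ^ (σ / 8) := Real.rpow_le_rpow_of_exponent_le hX1 hε8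
  have h4 : (0 : ℝ) ≤ ((XD D k k q1 q2 r).card : ℝ) ^ 2 := by positivity
  exact div_le_div_of_nonneg_right (mul_le_mul_of_nonneg_right h3 h4) (by positivity)

/-- Scaling. -/
theorem mix_scale {k A M r m : ℕ} (hM : 1 ≤ M) {f g : ℕ → ℝ} (hfg : ∀ x, f x = (M : ℝ) ^ k * g x)
    (h : MixL k (A * M ^ k) g r m) : MixL k A f r m := by
  obtain ⟨N0, h⟩ := h
  refine ⟨N0, fun N hN => ?_⟩
  obtain ⟨lx, ly, h1, h2, h3, h4, h5⟩ := h N hN
  refine ⟨lx.map fun n => M * n, ly, by rw [List.length_map]; exact h1, h2, ?_, h4, ?_⟩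
  · intro n hn
    obtain ⟨x, hx, rfl⟩ := List.mem_map.1 hn
    exact Nat.mul_pos hM (h3 x hx)
  · rw [← h5]
    congr 1
    · rw [List.map_map]
      congr 1
      refine List.map_congr_left fun n _ => ?_
      simp only [Function.comp_apply]
      push_cast
      ring
    · congr 1
      funext x
      rw [hfg]
      push_cast
      ring

private theorem bdd_fam {k : ℕ} {f : ℕ → ℝ → ℝ} (hf : ∀ i < k, Continuous (f i)) (a b : ℝ) :
    ∃ T : ℝ, 0 ≤ T ∧ ∀ i < k, ∀ t ∈ Set.Icc a b, |f i t| ≤ T := by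
  have hc : Continuous fun t => ∑ i ∈ Finset.range k, |f i t| :=
    continuous_finsetSum _ fun i hi => (hf i (Finset.mem_range.1 hi)).abs
  obtain ⟨T, hT⟩ := (isCompact_Icc (a := a) (b := b)).exists_bound_of_continuousOn hc.continuousOn
  refine ⟨max T 0, le_max_right _ _, fun i hi t ht => ?_⟩
  have h1 := hT t ht
  rw [Real.norm_eq_abs] at h1
  have h2 : |f i t| ≤ ∑ i ∈ Finset.range k, |f i t| :=
    Finset.single_le_sum (f := fun i => |f i t|) (fun j _ => abs_nonneg _)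
      (Finset.mem_range.2 hi)
  exact (h2.trans (le_abs_self _)).trans (h1.trans (le_max_left _ _))

/-- The whole curve. -/
theorem mix_curveE {k : ℕ} (hk : 2 ≤ k) :
    ∃ d : ℝ, d < 1 ∧ ∀ q1 q2 : ℕ, xb k q1 + yg k q2 ≤ (k : ℝ) →
    ∀ {c : ℕ → ℝ → ℝ}, (∀ i < k + 1, ContDiff ℝ 1 (c i)) →
    dimH {s : ℝ | 0 < c k s ∧ deriv (c k) s ≠ 0 ∧ ¬ ∀ A : ℕ, 1 ≤ A →
      MixL k A (fun x : ℕ => lo (k + 1) (fun i => c i s) (x : ℝ)) (2 * (q1 + 1) + 1) (2 * q2 + 1)} ≤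
      ENNReal.ofReal d := by
  obtain ⟨d, hd, h⟩ := floor_mixE hk
  refine ⟨d, hd, fun q1 q2 hq c hc => ?_⟩
  have h1 : ∀ i < k + 1, ∀ t, HasDerivAt (c i) (deriv (c i) t) t := fun i hi t =>
    (((hc i hi).differentiable (by norm_num)) t).hasDerivAt
  have k0 : ∀ i < k + 1, Continuous (c i) := fun i hi => (hc i hi).continuous
  have k1 : ∀ i < k + 1, Continuous (deriv (c i)) := fun i hi => (hc i hi).continuous_deriv le_rfl
  have hkk : k < k + 1 := by omega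
  obtain ⟨E, hE⟩ : ∃ E : (ℚ × ℚ) × ℕ → Set ℝ, E = fun p =>
      {t : ℝ | (p.1.1 : ℝ) ≤ p.1.2 ∧
        (∀ s ∈ Set.Icc (p.1.1 : ℝ) p.1.2, 1 / ((p.2 : ℝ) + 1) ≤ |deriv (c k) s| ∧ 0 < c k s) ∧
        t ∈ Set.Icc (p.1.1 : ℝ) p.1.2 ∧ ¬ ∀ A : ℕ, 1 ≤ A →
      MixL k A (fun x : ℕ => lo (k + 1) (fun i => c i t) (x : ℝ)) (2 * (q1 + 1) + 1)
        (2 * q2 + 1)} := ⟨_, rfl⟩
  have hsub : {s : ℝ | 0 < c k s ∧ deriv (c k) s ≠ 0 ∧ ¬ ∀ A : ℕ, 1 ≤ A →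
      MixL k A (fun x : ℕ => lo (k + 1) (fun i => c i s) (x : ℝ)) (2 * (q1 + 1) + 1)
        (2 * q2 + 1)} ⊆ ⋃ p, E p := by
    rintro t ⟨htp, ht, hbad⟩
    have habs : 0 < |deriv (c k) t| := abs_pos.2 ht
    obtain ⟨n, hn⟩ := exists_nat_one_div_lt habs
    have hev : ∀ᶠ s in 𝓝 t, 1 / ((n : ℝ) + 1) < |deriv (c k) s| :=
      (k1 k hkk).abs.continuousAt.eventually (lt_mem_nhds hn)
    have hev2 : ∀ᶠ s in 𝓝 t, 0 < c k s :=
      (k0 k hkk).continuousAt.eventually (lt_mem_nhds htp)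
    obtain ⟨η, hη, hball⟩ := Metric.eventually_nhds_iff.1 (hev.and hev2)
    obtain ⟨p, hp1, hp2⟩ := exists_rat_btwn (show t - η < t by linarith)
    obtain ⟨p', hp1', hp2'⟩ := exists_rat_btwn (show t < t + η by linarith)
    rw [Set.mem_iUnion]
    refine ⟨((p, p'), n), ?_⟩
    rw [hE]
    refine ⟨by show (p : ℝ) ≤ p'; linarith, fun s hs => ?_, ⟨hp2.le, hp1'.le⟩, hbad⟩
    have hs1 : (p : ℝ) ≤ s := hs.1
    have hs2 : s ≤ (p' : ℝ) := hs.2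
    have h3 := hball (y := s) (by
      rw [Real.dist_eq, abs_lt]
      constructor <;> linarith)
    exact ⟨h3.1.le, h3.2⟩
  refine (dimH_mono hsub).trans ?_
  rw [dimH_iUnion]
  refine iSup_le fun p => ?_
  by_cases hp : (p.1.1 : ℝ) ≤ p.1.2 ∧
      ∀ s ∈ Set.Icc (p.1.1 : ℝ) p.1.2, 1 / ((p.2 : ℝ) + 1) ≤ |deriv (c k) s| ∧ 0 < c k s
  · obtain ⟨hab, hlow⟩ := hp
    obtain ⟨T, hT, hb⟩ := bdd_fam k1 (p.1.1 : ℝ) p.1.2
    obtain ⟨T0, hT0, hb0⟩ := bdd_fam k0 (p.1.1 : ℝ) p.1.2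
    obtain ⟨M0, hM0⟩ := exists_nat_ge T0
    obtain ⟨M, hM⟩ : ∃ M : ℕ, M = M0 + 1 := ⟨_, rfl⟩
    have hM1 : 1 ≤ M := by omega
    have hM1r : (1 : ℝ) ≤ M := by exact_mod_cast hM1
    have hMk : (0 : ℝ) < (M : ℝ) ^ k := by positivity
    have hMk1 : (1 : ℝ) ≤ (M : ℝ) ^ k := one_le_pow₀ hM1r
    have hTM : T0 ≤ (M : ℝ) ^ k := by
      have h4 : (M0 : ℝ) ≤ M := by
        rw [hM]
        push_cast
        linarith
      have h5 : (M : ℝ) ≤ (M : ℝ) ^ k := le_self_pow₀ hM1r (by omega)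
      linarith
    have h3 := h q1 q2 hq (c := fun i s => c i s / (M : ℝ) ^ k)
      (c1 := fun i s => deriv (c i) s / (M : ℝ) ^ k)
      (fun i hi s => (h1 i hi s).div_const _) hab hT
      (δ0 := 1 / ((p.2 : ℝ) + 1) / (M : ℝ) ^ k) (by positivity)
      (fun i hi s hs => by
        rw [abs_div, abs_of_pos hMk, div_le_iff₀ hMk]
        have h4 := hb i hi s hs
        nlinarith)
      (fun s hs => by
        rw [abs_div, abs_of_pos hMk]
        exact div_le_div_of_nonneg_right (hlow s hs).1 hMk.le)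
      (fun s hs => by
        constructor
        · exact div_pos (hlow s hs).2 hMk
        · rw [div_le_one hMk]
          exact ((le_abs_self _).trans (hb0 k hkk s hs)).trans hTM)
    refine (dimH_mono ?_).trans h3
    intro t ht
    rw [hE] at ht
    refine ⟨ht.2.2.1, fun hall => ht.2.2.2 fun A hA => ?_⟩
    refine mix_scale (M := M) hM1 (g := fun x : ℕ => lo (k + 1)
      (fun i => (fun (i : ℕ) (s : ℝ) => c i s / (M : ℝ) ^ k) i t) (x : ℝ)) ?_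
      (hall (A * M ^ k) (Nat.mul_pos hA (Nat.pow_pos hM1)))
    intro x
    show lo (k + 1) (fun i => c i t) (x : ℝ) = (M : ℝ) ^ k * lo (k + 1) (fun i => c i t / (M : ℝ) ^ k) x
    unfold lo
    rw [mul_sum]
    refine sum_congr rfl fun i _ => ?_
    field_simp
  · have : E p = ∅ := by
      rw [hE]
      ext t
      simp only [Set.mem_empty_iff_false, iff_false]
      exact fun ht => hp ⟨ht.1, ht.2.1⟩
    rw [this, dimH_empty]
    exact zero_le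

/-- The numbers of letters. -/
theorem numE {k r m : ℕ} (hk : 2 ≤ k) {b : ℝ} (hb : 0 < b) (hb1 : b < 1)
    (hr : 2 * k * Real.log (1 / (1 - b)) + 3 ≤ (r : ℝ))
    (hm : 2 * k * Real.log (1 / b) + 3 ≤ (m : ℝ)) :
    ∃ q1 q2 : ℕ, xb k q1 + yg k q2 ≤ (k : ℝ) ∧ 2 * (q1 + 1) + 1 ≤ r ∧ 2 * q2 + 1 ≤ m := by
  have hk0 : (2 : ℝ) ≤ k := by exact_mod_cast hk
  have hb' : 0 < 1 - b := by linarith
  have hlog1 : 0 < Real.log (1 / (1 - b)) := by
    apply Real.log_pos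
    rw [lt_div_iff₀ hb']
    linarith
  have hlog2 : 0 < Real.log (1 / b) := by
    apply Real.log_pos
    rw [lt_div_iff₀ hb]
    linarith
  obtain ⟨n1, hn1⟩ : ∃ n1, n1 = ⌈(k : ℝ) * Real.log (1 / (1 - b))⌉₊ := ⟨_, rfl⟩
  obtain ⟨n2, hn2⟩ : ∃ n2, n2 = ⌈(k : ℝ) * Real.log (1 / b)⌉₊ := ⟨_, rfl⟩
  have a1 : (k : ℝ) * Real.log (1 / (1 - b)) ≤ n1 := by rw [hn1]; exact Nat.le_ceil _
  have a2 : (n1 : ℝ) < (k : ℝ) * Real.log (1 / (1 - b)) + 1 := by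
    rw [hn1]; exact Nat.ceil_lt_add_one (by positivity)
  have b1 : (k : ℝ) * Real.log (1 / b) ≤ n2 := by rw [hn2]; exact Nat.le_ceil _
  have b2 : (n2 : ℝ) < (k : ℝ) * Real.log (1 / b) + 1 := by
    rw [hn2]; exact Nat.ceil_lt_add_one (by positivity)
  have hn1pos : 1 ≤ n1 := by
    have : (0 : ℝ) < n1 := lt_of_lt_of_le (by positivity) a1
    exact_mod_cast this
  have c1 : (1 - 1 / (k : ℝ)) ^ n1 ≤ 1 - b := parExU_exp k n1 (1 - b) hb' (by omega) a1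
  have c2 : (1 - 1 / (k : ℝ)) ^ n2 ≤ b := parExU_exp k n2 b hb (by omega) b1
  refine ⟨n1 - 1, n2, ?_, ?_, ?_⟩
  · unfold xb yg
    have e1 : n1 - 1 + 1 = n1 := by omega
    rw [e1]
    have d1 : (k : ℝ) * (1 - 1 / (k : ℝ)) ^ n1 ≤ k * (1 - b) :=
      mul_le_mul_of_nonneg_left c1 (by linarith)
    have d2 : (k : ℝ) * (1 - 1 / (k : ℝ)) ^ n2 ≤ (k : ℝ) * b :=
      mul_le_mul_of_nonneg_left c2 (by linarith)
    linarith
  · have h1 : ((2 * (n1 - 1 + 1) + 1 : ℕ) : ℝ) < (r : ℝ) + 1 := by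
      have e1 : n1 - 1 + 1 = n1 := by omega
      rw [e1]
      push_cast
      linarith
    have h2 : 2 * (n1 - 1 + 1) + 1 < r + 1 := by exact_mod_cast h1
    omega
  · have h1 : ((2 * n2 + 1 : ℕ) : ℝ) < (m : ℝ) + 1 := by
      push_cast
      linarith
    have h2 : 2 * n2 + 1 < m + 1 := by exact_mod_cast h1
    omega

theorem res_curveE {k : ℕ} (hk : 2 ≤ k) :
    ∃ δ : ℝ, δ < 1 ∧ ∀ c : ℕ → ℝ → ℝ, (∀ i ≤ k, ContDiff ℝ 1 (c i)) →
    dimH {s : ℝ | 0 < c k s ∧ deriv (c k) s ≠ 0 ∧ ¬ ∀ (r m : ℕ) (b : ℝ), 0 < b → b < 1 →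
      2 * k * Real.log (1 / (1 - b)) + 3 ≤ (r : ℝ) →
      2 * k * Real.log (1 / b) + 3 ≤ (m : ℝ) →
      ExactU k r m (fun x => ∑ i ∈ Finset.range (k + 1), c i s * (x : ℝ) ^ i) ∧
      ApproxU k r m (fun x => ∑ i ∈ Finset.range (k + 1), c i s * (x : ℝ) ^ i)} ≤
      ENNReal.ofReal δ := by
  obtain ⟨d, hd, h⟩ := mix_curveE hk
  refine ⟨d, hd, fun c hc => ?_⟩
  have hsub : {s : ℝ | 0 < c k s ∧ deriv (c k) s ≠ 0 ∧ ¬ ∀ (r m : ℕ) (b : ℝ), 0 < b → b < 1 →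
      2 * k * Real.log (1 / (1 - b)) + 3 ≤ (r : ℝ) →
      2 * k * Real.log (1 / b) + 3 ≤ (m : ℝ) →
      ExactU k r m (fun x => ∑ i ∈ Finset.range (k + 1), c i s * (x : ℝ) ^ i) ∧
      ApproxU k r m (fun x => ∑ i ∈ Finset.range (k + 1), c i s * (x : ℝ) ^ i)} ⊆
      ⋃ p : ℕ × ℕ, {s : ℝ | xb k p.1 + yg k p.2 ≤ (k : ℝ) ∧ 0 < c k s ∧ deriv (c k) s ≠ 0 ∧
        ¬ ∀ A : ℕ, 1 ≤ A → MixL k A (fun x : ℕ => lo (k + 1) (fun i => c i s) (x : ℝ))
          (2 * (p.1 + 1) + 1) (2 * p.2 + 1)} := by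
    rintro s ⟨hsp, hs, hbad⟩
    by_contra hcon
    rw [Set.mem_iUnion] at hcon
    refine hbad ?_
    intro r m b hb hb1 hr hm
    obtain ⟨q1, q2, hq, hr', hm'⟩ := numE hk hb hb1 hr hm
    have h3 : ∀ A : ℕ, 1 ≤ A → MixL k A (fun x : ℕ => lo (k + 1) (fun i => c i s) (x : ℝ))
        (2 * (q1 + 1) + 1) (2 * q2 + 1) := by
      by_contra h4
      exact hcon ⟨(q1, q2), hq, hsp, hs, h4⟩
    exact ⟨exactU_mono hr' hm' (exact_of_mix (h3 1 le_rfl)),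
      approxU_mono hr' hm' (approx_of_mix h3)⟩
  refine (dimH_mono hsub).trans ?_
  rw [dimH_iUnion]
  refine iSup_le fun p => ?_
  by_cases hq : xb k p.1 + yg k p.2 ≤ (k : ℝ)
  · refine (dimH_mono ?_).trans (h p.1 p.2 hq (fun i hi => hc i (by omega)))
    rintro s ⟨_, hs⟩
    exact hs
  · have : {s : ℝ | xb k p.1 + yg k p.2 ≤ (k : ℝ) ∧ 0 < c k s ∧ deriv (c k) s ≠ 0 ∧
        ¬ ∀ A : ℕ, 1 ≤ A → MixL k A (fun x : ℕ => lo (k + 1) (fun i => c i s) (x : ℝ))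
          (2 * (p.1 + 1) + 1) (2 * p.2 + 1)} = ∅ := by
      ext s
      simp only [Set.mem_empty_iff_false, iff_false]
      exact fun hs => hq hs.1
    rw [this, dimH_empty]
    exact zero_le

end XWar
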