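import Pool.Agent.XWar.FinG
import Pool.Agent.XWar.ResE

/-!
# XWar.ResG: plain powers and values of a polynomial on a curve, any moving coefficient

Curves `f_s = c_k(s) x^k + ... + c_0(s)`, `c_k(s) > 0`, with `c_i` constant for `j < i ≤ k` and `c_j'(s) ≠ 0`, where
`2 ≤ j ≤ k`. The case `c_k ≤ 1` is `floor_mixG`; the general case follows by `mix_scale`.
-/

namespace XWar

open TWar MWg FWar UWar YWar Finset MeasureTheory Filter Topology
open Pool.PolyMax (e)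

private theorem ResG_anti {f f' : ℝ → ℝ} {a b δ0 : ℝ} (hδ0 : 0 < δ0)
    (hf : ∀ t, HasDerivAt f (f' t) t) (hlow : ∀ t ∈ Set.Icc a b, δ0 ≤ |f' t|) :
    ∀ x ∈ Set.Icc a b, ∀ y ∈ Set.Icc a b, δ0 * |x - y| ≤ |f x - f y| := by
  have hlt : ∀ x ∈ Set.Icc a b, ∀ y ∈ Set.Icc a b, x < y → δ0 * |x - y| ≤ |f x - f y| := by
    intro x hx y hy hxy
    obtain ⟨z, hz, hz2⟩ := exists_hasDerivAt_eq_slope f f' hxy
      (fun t _ => (hf t).continuousAt.continuousWithinAt) (fun t _ => hf t)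
    have h1 := hlow z ⟨by linarith [hx.1, hz.1], by linarith [hy.2, hz.2]⟩
    have h2 : f y - f x = f' z * (y - x) := by
      rw [hz2]
      field_simp [(by linarith : y - x ≠ 0)]
    rw [abs_sub_comm (f x), h2, abs_mul, abs_sub_comm x]
    exact mul_le_mul_of_nonneg_right h1 (abs_nonneg _)
  intro x hx y hy
  rcases lt_trichotomy x y with h | h | h
  · exact hlt x hx y hy h
  · rw [h]
    simp
  · rw [abs_sub_comm, abs_sub_comm (f x)]
    exact hlt y hy x hx h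

private theorem ResG_dioph {f f' : ℝ → ℝ} {a b δ0 : ℝ} (hδ0 : 0 < δ0)
    (hf : ∀ t, HasDerivAt f (f' t) t) (hlow : ∀ t ∈ Set.Icc a b, δ0 ≤ |f' t|) :
    dimH {t : ℝ | t ∈ Set.Icc a b ∧ ¬ Dioph (f t)} ≤ ENNReal.ofReal (3 / 4) := by
  have h0 : dimH {y : ℝ | ¬ Dioph y} ≤ ENNReal.ofReal (3 / 4) := by
    have h := dim_dioph_affine (b := 0) (c := 1) one_ne_zero
    simpa using h
  have hanti := ResG_anti hδ0 hf hlow
  obtain ⟨F, hF⟩ : ∃ F : Set.Icc a b → ℝ, F = fun t : Set.Icc a b => f t.1 := ⟨_, rfl⟩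
  have hA : AntilipschitzWith (⟨1 / δ0, by positivity⟩ : NNReal) F := by
    refine AntilipschitzWith.of_le_mul_dist fun x y => ?_
    rw [hF]
    show dist (x : ℝ) (y : ℝ) ≤ (1 / δ0) * dist (f x) (f y)
    rw [Real.dist_eq, Real.dist_eq]
    have := hanti x x.2 y y.2
    rw [one_div, ← div_eq_inv_mul, le_div_iff₀ hδ0]
    linarith
  have himg : {t : ℝ | t ∈ Set.Icc a b ∧ ¬ Dioph (f t)} =
      Subtype.val '' (F ⁻¹' {y : ℝ | ¬ Dioph y}) := by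
    ext t
    constructor
    · rintro ⟨ht, h⟩
      exact ⟨⟨t, ht⟩, by rw [hF]; exact h, rfl⟩
    · rintro ⟨⟨s, hs⟩, h, rfl⟩
      rw [hF] at h
      exact ⟨hs, h⟩
  rw [himg, isometry_subtype_coe.dimH_image]
  exact (hA.dimH_preimage_le _).trans h0

private theorem ResG_union {A B : Set ℝ} {a b : ℝ} (hA : dimH A ≤ ENNReal.ofReal a)
    (hB : dimH B ≤ ENNReal.ofReal b) : dimH (A ∪ B) ≤ ENNReal.ofReal (max a b) := by
  rw [dimH_union]
  exact max_le (hA.trans (ENNReal.ofReal_le_ofReal (le_max_left _ _)))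
    (hB.trans (ENNReal.ofReal_le_ofReal (le_max_right _ _)))

private theorem sum_le_cardG (P : ℝ) (f : ℕ → ℝ) : ‖∑ z ∈ J1 P, e (f z)‖ ≤ ((J1 P).card : ℝ) := by
  refine (norm_sum_le _ _).trans ?_
  simp only [Pool.PolyMax.norm_e, Finset.sum_const, nsmul_eq_mul, mul_one]
  exact le_rfl

/-- The exponential sums for `j ≤ k`. -/
theorem weylAll {k j : ℕ} (hj : 2 ≤ j) (hjk : j ≤ k) : ∃ σ : ℝ, 0 < σ ∧
    ∀ d : ℕ → ℝ, 0 < d k → (j = k → Dioph (d k)) → (j < k → Dioph (d j / d k)) →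
    ∀ A : ℝ, 0 < A →
    ∀ᶠ r : ℕ in atTop, ∀ θ : ℝ, (XX r) ^ ((1 : ℝ) / 4 - k) ≤ |θ| → |θ| ≤ (XX r) ^ σ →
      ‖∑ z ∈ J1 (XX r), e (θ * (A * (z : ℝ) ^ k))‖ *
        ‖∑ z ∈ J1 (XX r), e (θ * (A * (GE k d).eval (z : ℝ)))‖ ≤ (XX r) ^ (2 - σ) := by
  rcases hjk.eq_or_lt with h | h
  · obtain ⟨σ, hσ, hW⟩ := weylE (show 2 ≤ k by omega)
    refine ⟨σ, hσ, fun d _ hd _ A hA => ?_⟩
    exact hW A (GE k d) hA (GE_deg k d) (by rw [GE_coeff]; exact hd h)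
  · obtain ⟨σ, hσ, hW⟩ := weylG (show 1 ≤ j by omega) h
    refine ⟨σ, hσ, fun d hdk _ hd A hA => ?_⟩
    obtain ⟨g', hg'⟩ : ∃ g' : Polynomial ℝ, g' = ∑ i ∈ Finset.range k,
      Polynomial.C (A * d i) * Polynomial.X ^ i := ⟨_, rfl⟩
    have hgd : g'.natDegree < k := by
      have h1 : g'.natDegree ≤ k - 1 := by
        rw [hg']
        refine Polynomial.natDegree_sum_le_of_forall_le _ _ fun i hi => ?_
        refine (Polynomial.natDegree_C_mul_X_pow_le _ _).trans ?_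
        have := Finset.mem_range.1 hi
        omega
      omega
    have hgc : g'.coeff j = A * d j := by
      rw [hg', Polynomial.finsetSum_coeff]
      simp only [Polynomial.coeff_C_mul_X_pow]
      rw [Finset.sum_ite_eq (range k) j (fun i => A * d i)]
      rw [if_pos (Finset.mem_range.2 h)]
    have h2 := hW (A * d k) g' (mul_pos hA hdk) hgd (by
      rw [hgc, mul_div_mul_left _ _ hA.ne']
      exact hd h)
    filter_upwards [h2, XX_tendsto.eventually_ge_atTop 16] with r hr hr16 θ hθ1 hθ2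
    have hP0 := XX_pos r
    have h3 := hr θ hθ1 hθ2
    have h4 : ‖∑ z ∈ J1 (XX r), e (θ * (A * (z : ℝ) ^ k))‖ ≤ XX r := by
      refine (sum_le_cardG (XX r) fun z => θ * (A * (z : ℝ) ^ k)).trans ?_
      have := card_J1_le hr16
      linarith
    have h5 : ∑ z ∈ J1 (XX r), e (θ * (A * (GE k d).eval (z : ℝ))) =
        ∑ z ∈ J1 (XX r), e (θ * (A * d k * (z : ℝ) ^ k + g'.eval (z : ℝ))) := by
      refine sum_congr rfl fun z _ => ?_
      congr 2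
      rw [← GE_eval, hg', Polynomial.eval_finsetSum]
      unfold lo
      rw [sum_range_succ, mul_add, mul_sum, add_comm]
      congr 1
      · ring
      · refine sum_congr rfl fun i _ => ?_
        rw [Polynomial.eval_mul, Polynomial.eval_C, Polynomial.eval_pow, Polynomial.eval_X]
        ring
    rw [h5]
    have h6 := mul_le_mul h4 h3 (norm_nonneg _) hP0.le
    refine h6.trans (le_of_eq ?_)
    nth_rewrite 1 [← Real.rpow_one (XX r)]
    rw [← Real.rpow_add hP0]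
    congr 1
    ring

/-- One interval, leading coefficient in `(0, 1]`. -/
theorem floor_mixG {k j : ℕ} (hj : 2 ≤ j) (hjk : j ≤ k) :
    ∃ d : ℝ, d < 1 ∧ ∀ q1 q2 : ℕ, xb k q1 + yg j q2 ≤ (j : ℝ) →
    ∀ {c c1 : ℕ → ℝ → ℝ}, (∀ i < k + 1, ∀ s, HasDerivAt (c i) (c1 i s) s) →
    (∀ i, j < i → i < k + 1 → ∀ s, c1 i s = 0) →
    ∀ {a b T δ0 : ℝ}, a ≤ b → 0 ≤ T → 0 < δ0 → (∀ i < k + 1, ∀ s ∈ Set.Icc a b, |c1 i s| ≤ T) →
    (∀ s ∈ Set.Icc a b, δ0 ≤ |c1 j s|) → (∀ s ∈ Set.Icc a b, 0 < c k s ∧ c k s ≤ 1) →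
    dimH {s : ℝ | s ∈ Set.Icc a b ∧ ¬ ∀ A : ℕ, 1 ≤ A →
      MixL k A (fun x : ℕ => lo (k + 1) (fun i => c i s) (x : ℝ)) (2 * (q1 + 1) + 1) (2 * q2 + 1)} ≤
      ENNReal.ofReal d := by
  obtain ⟨σ, hσ, hW⟩ := weylAll hj hjk
  obtain ⟨ε, hεdef⟩ : ∃ ε : ℝ, ε = min (σ / 8) 1 := ⟨_, rfl⟩
  have hε : 0 < ε := by rw [hεdef]; exact lt_min (by linarith) one_pos
  have hε8 : ε ≤ σ / 8 := by rw [hεdef]; exact min_le_left _ _
  have hε1 : ε ≤ 1 := by rw [hεdef]; exact min_le_right _ _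
  have hkR : (2 : ℝ) ≤ k := by exact_mod_cast (by omega : 2 ≤ k)
  refine ⟨max (3 / 4) (1 - ε / (4 * (k + 1))), max_lt (by norm_num) ?_, ?_⟩
  · have : 0 < ε / (4 * ((k : ℝ) + 1)) := by positivity
    linarith
  intro q1 q2 hq c c1 h1 hz a b T δ0 hab hT hδ0 hb hlow hpos
  have h1' : ∀ (x : ℕ) (s : ℝ), HasDerivAt (fun s => (fun (s : ℝ) (x : ℕ) =>
      lo (k + 1) (fun i => c i s) (x : ℝ)) s x) (lo (j + 1) (fun i => c1 i s) (x : ℝ)) s := by
    intro x s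
    have e0 : lo (j + 1) (fun i => c1 i s) (x : ℝ) = lo (k + 1) (fun i => c1 i s) (x : ℝ) := by
      unfold lo
      refine sum_subset (fun i hi => Finset.mem_range.2 ?_) fun i hi hni => ?_
      · have := Finset.mem_range.1 hi
        omega
      · have h3 := Finset.mem_range.1 hi
        have h4 : ¬ i < j + 1 := fun h => hni (Finset.mem_range.2 h)
        show c1 i s * (x : ℝ) ^ i = 0
        rw [hz i (by omega) h3 s, zero_mul]
    rw [e0]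
    unfold lo
    refine HasDerivAt.fun_sum fun i hi => ?_
    exact (h1 i (Finset.mem_range.1 hi) s).mul_const _
  obtain ⟨D, hD, hA⟩ := dimE hj hjk hq h1' hab hT hδ0 (fun i hi => hb i (by omega)) hlow hε hε1
  have hD1 : dimH {s : ℝ | s ∈ Set.Icc a b ∧ ¬ ((j = k → Dioph (c k s)) ∧ (j < k → Dioph (c j s / c k s)))} ≤
      ENNReal.ofReal (3 / 4) := by
    rcases hjk.eq_or_lt with h | h
    · subst h
      refine (dimH_mono ?_).trans (ResG_dioph (f := c j) (f' := c1 j) hδ0 (fun t => h1 j (by omega) t) hlow)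
      rintro s ⟨hs1, hs2⟩
      refine ⟨hs1, fun h3 => hs2 ⟨fun _ => h3, fun h4 => absurd h4 (lt_irrefl _)⟩⟩
    · -- the leading coefficient is constant
      obtain ⟨α, hα⟩ : ∃ α, α = c k a := ⟨_, rfl⟩
      have haI : a ∈ Set.Icc a b := ⟨le_rfl, hab⟩
      have hα0 : 0 < α := by rw [hα]; exact (hpos a haI).1
      have hconst : ∀ s, c k s = α := by
        intro s
        rw [hα]
        exact is_const_of_deriv_eq_zero (fun t => (h1 k (by omega) t).differentiableAt)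
          (fun t => by rw [(h1 k (by omega) t).deriv]; exact hz k h (by omega) t) s a
      refine (dimH_mono ?_).trans (ResG_dioph (f := fun s => c j s / α) (f' := fun s => c1 j s / α)
        (δ0 := δ0 / α) (by positivity) (fun t => (h1 j (by omega) t).div_const _) (fun s hs => by
          rw [abs_div, abs_of_pos hα0]
          exact div_le_div_of_nonneg_right (hlow s hs) hα0.le))
      rintro s ⟨hs1, hs2⟩
      refine ⟨hs1, fun h3 => hs2 ⟨fun h4 => absurd h4 h.ne, fun _ => ?_⟩⟩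
      rw [hconst s]
      exact h3
  have hsub := ResG_union hD1 hA
  refine (dimH_mono ?_).trans hsub
  rintro s ⟨hsab, hs⟩
  by_contra hcon
  rw [Set.mem_union, not_or] at hcon
  obtain ⟨hD2, hA1⟩ := hcon
  have hsD : (j = k → Dioph (c k s)) ∧ (j < k → Dioph (c j s / c k s)) := by
    by_contra h
    exact hD2 ⟨hsab, h⟩
  refine hs ?_
  refine mixG_fixed (D := D) hD hj hjk hσ (fun x => GE_eval k (fun i => c i s) x)
    (sm_lo (show 2 ≤ k by omega) (d := fun i => c i s) (hpos s hsab).1 (hpos s hsab).2)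
    (hW (fun i => c i s) (hpos s hsab).1 hsD.1 hsD.2) ?_
  intro M
  have h2 : ¬ ∃ᶠ r : ℕ in atTop,
      (XX r) ^ ε * ((XD D k j q1 q2 r).card : ℝ) ^ 2 / (XX r) ^ k <
      pairs (XD D k j q1 q2 r) (fun p =>
        |aT k (fun x : ℕ => lo (k + 1) (fun i => c i s) (x : ℝ)) p.1 -
          aT k (fun x : ℕ => lo (k + 1) (fun i => c i s) (x : ℝ)) p.2| ≤ M) :=
    fun h => hA1 ⟨hsab, M, h⟩
  rw [not_frequently] at h2
  filter_upwards [h2] with r hr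
  refine (not_lt.1 hr).trans ?_
  have hX1 : 1 ≤ XX r := XX_ge_one r
  have hX0 := XX_pos r
  have h3 : (XX r) ^ ε ≤ (XX r) ^ (σ / 8) := Real.rpow_le_rpow_of_exponent_le hX1 hε8
  have h4 : (0 : ℝ) ≤ ((XD D k j q1 q2 r).card : ℝ) ^ 2 := by positivity
  exact div_le_div_of_nonneg_right (mul_le_mul_of_nonneg_right h3 h4) (by positivity)

private theorem bdd_fam {k : ℕ} {f : ℕ → ℝ → ℝ} (hf : ∀ i < k, Continuous (f i)) (a b : ℝ) :
    ∃ T : ℝ, 0 ≤ T ∧ ∀ i < k, ∀ t ∈ Set.Icc a b, |f i t| ≤ T := by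
  have hc : Continuous fun t => ∑ i ∈ Finset.range k, |f i t| :=
    continuous_finsetSum _ fun i hi => (hf i (Finset.mem_range.1 hi)).abs
  obtain ⟨T, hT⟩ := (isCompact_Icc (a := a) (b := b)).exists_bound_of_continuousOn hc.continuousOn
  refine ⟨max T 0, le_max_right _ _, fun i hi t ht => ?_⟩
  have h1 := hT t ht
  rw [Real.norm_eq_abs] at h1
  have h2 : |f i t| ≤ ∑ i ∈ Finset.range k, |f i t| :=
    Finset.single_le_sum (f := fun i => |f i t|) (fun j _ => abs_nonneg _)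
      (Finset.mem_range.2 hi)
  exact (h2.trans (le_abs_self _)).trans (h1.trans (le_max_left _ _))

/-- The whole curve. -/
theorem mix_curveG {k j : ℕ} (hj : 2 ≤ j) (hjk : j ≤ k) :
    ∃ d : ℝ, d < 1 ∧ ∀ q1 q2 : ℕ, xb k q1 + yg j q2 ≤ (j : ℝ) →
    ∀ {c : ℕ → ℝ → ℝ}, (∀ i < k + 1, ContDiff ℝ 1 (c i)) → (∀ i, j < i → i < k + 1 → ∀ s, deriv (c i) s = 0) →
    dimH {s : ℝ | 0 < c k s ∧ deriv (c j) s ≠ 0 ∧ ¬ ∀ A : ℕ, 1 ≤ A →
      MixL k A (fun x : ℕ => lo (k + 1) (fun i => c i s) (x : ℝ)) (2 * (q1 + 1) + 1) (2 * q2 + 1)} ≤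
      ENNReal.ofReal d := by
  obtain ⟨d, hd, h⟩ := floor_mixG hj hjk
  refine ⟨d, hd, fun q1 q2 hq c hc hz => ?_⟩
  have h1 : ∀ i < k + 1, ∀ t, HasDerivAt (c i) (deriv (c i) t) t := fun i hi t =>
    (((hc i hi).differentiable (by norm_num)) t).hasDerivAt
  have k0 : ∀ i < k + 1, Continuous (c i) := fun i hi => (hc i hi).continuous
  have k1 : ∀ i < k + 1, Continuous (deriv (c i)) := fun i hi => (hc i hi).continuous_deriv le_rfl
  have hkk : k < k + 1 := by omega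
  have hjj : j < k + 1 := by omega
  obtain ⟨E, hE⟩ : ∃ E : (ℚ × ℚ) × ℕ → Set ℝ, E = fun p =>
      {t : ℝ | (p.1.1 : ℝ) ≤ p.1.2 ∧
        (∀ s ∈ Set.Icc (p.1.1 : ℝ) p.1.2, 1 / ((p.2 : ℝ) + 1) ≤ |deriv (c j) s| ∧ 0 < c k s) ∧
        t ∈ Set.Icc (p.1.1 : ℝ) p.1.2 ∧ ¬ ∀ A : ℕ, 1 ≤ A →
      MixL k A (fun x : ℕ => lo (k + 1) (fun i => c i t) (x : ℝ)) (2 * (q1 + 1) + 1)
        (2 * q2 + 1)} := ⟨_, rfl⟩
  have hsub : {s : ℝ | 0 < c k s ∧ deriv (c j) s ≠ 0 ∧ ¬ ∀ A : ℕ, 1 ≤ A →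
      MixL k A (fun x : ℕ => lo (k + 1) (fun i => c i s) (x : ℝ)) (2 * (q1 + 1) + 1)
        (2 * q2 + 1)} ⊆ ⋃ p, E p := by
    rintro t ⟨htp, ht, hbad⟩
    have habs : 0 < |deriv (c j) t| := abs_pos.2 ht
    obtain ⟨n, hn⟩ := exists_nat_one_div_lt habs
    have hev : ∀ᶠ s in 𝓝 t, 1 / ((n : ℝ) + 1) < |deriv (c j) s| :=
      (k1 j hjj).abs.continuousAt.eventually (lt_mem_nhds hn)
    have hev2 : ∀ᶠ s in 𝓝 t, 0 < c k s :=
      (k0 k hkk).continuousAt.eventually (lt_mem_nhds htp)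
    obtain ⟨η, hη, hball⟩ := Metric.eventually_nhds_iff.1 (hev.and hev2)
    obtain ⟨p, hp1, hp2⟩ := exists_rat_btwn (show t - η < t by linarith)
    obtain ⟨p', hp1', hp2'⟩ := exists_rat_btwn (show t < t + η by linarith)
    rw [Set.mem_iUnion]
    refine ⟨((p, p'), n), ?_⟩
    rw [hE]
    refine ⟨by show (p : ℝ) ≤ p'; linarith, fun s hs => ?_, ⟨hp2.le, hp1'.le⟩, hbad⟩
    have hs1 : (p : ℝ) ≤ s := hs.1
    have hs2 : s ≤ (p' : ℝ) := hs.2
    have h3 := hball (y := s) (by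
      rw [Real.dist_eq, abs_lt]
      constructor <;> linarith)
    exact ⟨h3.1.le, h3.2⟩
  refine (dimH_mono hsub).trans ?_
  rw [dimH_iUnion]
  refine iSup_le fun p => ?_
  by_cases hp : (p.1.1 : ℝ) ≤ p.1.2 ∧
      ∀ s ∈ Set.Icc (p.1.1 : ℝ) p.1.2, 1 / ((p.2 : ℝ) + 1) ≤ |deriv (c j) s| ∧ 0 < c k s
  · obtain ⟨hab, hlow⟩ := hp
    obtain ⟨T, hT, hb⟩ := bdd_fam k1 (p.1.1 : ℝ) p.1.2
    obtain ⟨T0, hT0, hb0⟩ := bdd_fam k0 (p.1.1 : ℝ) p.1.2
    obtain ⟨M0, hM0⟩ := exists_nat_ge T0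
    obtain ⟨M, hM⟩ : ∃ M : ℕ, M = M0 + 1 := ⟨_, rfl⟩
    have hM1 : 1 ≤ M := by omega
    have hM1r : (1 : ℝ) ≤ M := by exact_mod_cast hM1
    have hMk : (0 : ℝ) < (M : ℝ) ^ k := by positivity
    have hMk1 : (1 : ℝ) ≤ (M : ℝ) ^ k := one_le_pow₀ hM1r
    have hTM : T0 ≤ (M : ℝ) ^ k := by
      have h4 : (M0 : ℝ) ≤ M := by
        rw [hM]
        push_cast
        linarith
      have h5 : (M : ℝ) ≤ (M : ℝ) ^ k := le_self_pow₀ hM1r (by omega)
      linarith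
    have h3 := h q1 q2 hq (c := fun i s => c i s / (M : ℝ) ^ k)
      (c1 := fun i s => deriv (c i) s / (M : ℝ) ^ k)
      (fun i hi s => (h1 i hi s).div_const _) (fun i hi1 hi2 s => by
        show deriv (c i) s / (M : ℝ) ^ k = 0
        rw [hz i hi1 hi2 s, zero_div]) hab hT
      (δ0 := 1 / ((p.2 : ℝ) + 1) / (M : ℝ) ^ k) (by positivity)
      (fun i hi s hs => by
        rw [abs_div, abs_of_pos hMk, div_le_iff₀ hMk]
        have h4 := hb i hi s hs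
        nlinarith)
      (fun s hs => by
        rw [abs_div, abs_of_pos hMk]
        exact div_le_div_of_nonneg_right (hlow s hs).1 hMk.le)
      (fun s hs => by
        constructor
        · exact div_pos (hlow s hs).2 hMk
        · rw [div_le_one hMk]
          exact ((le_abs_self _).trans (hb0 k hkk s hs)).trans hTM)
    refine (dimH_mono ?_).trans h3
    intro t ht
    rw [hE] at ht
    refine ⟨ht.2.2.1, fun hall => ht.2.2.2 fun A hA => ?_⟩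
    refine mix_scale (M := M) hM1 (g := fun x : ℕ => lo (k + 1)
      (fun i => (fun (i : ℕ) (s : ℝ) => c i s / (M : ℝ) ^ k) i t) (x : ℝ)) ?_
      (hall (A * M ^ k) (Nat.mul_pos hA (Nat.pow_pos hM1)))
    intro x
    show lo (k + 1) (fun i => c i t) (x : ℝ) = (M : ℝ) ^ k * lo (k + 1) (fun i => c i t / (M : ℝ) ^ k) x
    unfold lo
    rw [mul_sum]
    refine sum_congr rfl fun i _ => ?_
    field_simp
  · have : E p = ∅ := by
      rw [hE]
      ext t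
      simp only [Set.mem_empty_iff_false, iff_false]
      exact fun ht => hp ⟨ht.1, ht.2.1⟩
    rw [this, dimH_empty]
    exact zero_le

/-- The numbers of letters. -/
theorem numG {k j r m : ℕ} (hj : 2 ≤ j) (hjk : j ≤ k) {c : ℝ} (hc : 0 < c) (hc1 : c < 1)
    (hr : 2 * k * Real.log (k / (j * (1 - c))) + 3 ≤ (r : ℝ))
    (hm : 2 * j * Real.log (1 / c) + 3 ≤ (m : ℝ)) :
    ∃ q1 q2 : ℕ, xb k q1 + yg j q2 ≤ (j : ℝ) ∧ 2 * (q1 + 1) + 1 ≤ r ∧ 2 * q2 + 1 ≤ m := by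
  have hj0 : (2 : ℝ) ≤ j := by exact_mod_cast hj
  have hjkR : (j : ℝ) ≤ k := by exact_mod_cast hjk
  have hk0 : (0 : ℝ) < k := by linarith
  have hc' : 0 < 1 - c := by linarith
  obtain ⟨δ, hδ⟩ : ∃ δ : ℝ, δ = (1 - c) * ((j : ℝ) / k) := ⟨_, rfl⟩
  have hfr : 0 < (j : ℝ) / k := div_pos (by linarith) hk0
  have hδ0 : 0 < δ := by rw [hδ]; exact mul_pos hc' hfr
  have hfr1 : (j : ℝ) / k ≤ 1 := by
    rw [div_le_one hk0]
    exact hjkR
  have hδ1 : δ < 1 := by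
    rw [hδ]
    nlinarith
  have e0 : (k : ℝ) / (j * (1 - c)) = 1 / δ := by
    rw [hδ]
    have h1 : (1 : ℝ) - c ≠ 0 := hc'.ne'
    have h2 : (j : ℝ) ≠ 0 := by linarith
    field_simp
  rw [e0] at hr
  have hlogδ0 : 0 < Real.log (1 / δ) := by
    apply Real.log_pos
    rw [lt_div_iff₀ hδ0]
    linarith
  have hlogc0 : 0 < Real.log (1 / c) := by
    apply Real.log_pos
    rw [lt_div_iff₀ hc]
    linarith
  obtain ⟨n1, hn1⟩ : ∃ n1, n1 = ⌈(k : ℝ) * Real.log (1 / δ)⌉₊ := ⟨_, rfl⟩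
  obtain ⟨n2, hn2⟩ : ∃ n2, n2 = ⌈(j : ℝ) * Real.log (1 / c)⌉₊ := ⟨_, rfl⟩
  have a1 : (k : ℝ) * Real.log (1 / δ) ≤ n1 := by rw [hn1]; exact Nat.le_ceil _
  have a2 : (n1 : ℝ) < (k : ℝ) * Real.log (1 / δ) + 1 := by
    rw [hn1]; exact Nat.ceil_lt_add_one (by positivity)
  have b1 : (j : ℝ) * Real.log (1 / c) ≤ n2 := by rw [hn2]; exact Nat.le_ceil _
  have b2 : (n2 : ℝ) < (j : ℝ) * Real.log (1 / c) + 1 := by
    rw [hn2]; exact Nat.ceil_lt_add_one (by positivity)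
  have hn1pos : 1 ≤ n1 := by
    have : (0 : ℝ) < n1 := lt_of_lt_of_le (by positivity) a1
    exact_mod_cast this
  have c1 : (1 - 1 / (k : ℝ)) ^ n1 ≤ δ := parExU_exp k n1 δ hδ0 (by omega) a1
  have c2 : (1 - 1 / (j : ℝ)) ^ n2 ≤ c := parExU_exp j n2 c hc (by omega) b1
  refine ⟨n1 - 1, n2, ?_, ?_, ?_⟩
  · unfold xb yg
    have e1 : n1 - 1 + 1 = n1 := by omega
    rw [e1]
    have d1 : (k : ℝ) * (1 - 1 / (k : ℝ)) ^ n1 ≤ k * δ := mul_le_mul_of_nonneg_left c1 hk0.le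
    have d2 : (j : ℝ) * (1 - 1 / (j : ℝ)) ^ n2 ≤ (j : ℝ) * c :=
      mul_le_mul_of_nonneg_left c2 (Nat.cast_nonneg _)
    have e2 : (k : ℝ) * δ = (1 - c) * j := by
      rw [hδ]
      field_simp
    rw [e2] at d1
    linarith
  · have h1 : ((2 * (n1 - 1 + 1) + 1 : ℕ) : ℝ) < (r : ℝ) + 1 := by
      have e1 : n1 - 1 + 1 = n1 := by omega
      rw [e1]
      push_cast
      linarith
    have h2 : 2 * (n1 - 1 + 1) + 1 < r + 1 := by exact_mod_cast h1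
    omega
  · have h1 : ((2 * n2 + 1 : ℕ) : ℝ) < (m : ℝ) + 1 := by
      push_cast
      linarith
    have h2 : 2 * n2 + 1 < m + 1 := by exact_mod_cast h1
    omega

theorem res_curveG {k j : ℕ} (hj : 2 ≤ j) (hjk : j ≤ k) :
    ∃ δ : ℝ, δ < 1 ∧ ∀ c : ℕ → ℝ → ℝ, (∀ i ≤ k, ContDiff ℝ 1 (c i)) →
    (∀ i, j < i → i ≤ k → ∀ s t, c i s = c i t) →
    dimH {s : ℝ | 0 < c k s ∧ deriv (c j) s ≠ 0 ∧ ¬ ∀ (r m : ℕ) (b : ℝ), 0 < b → b < 1 →
      2 * k * Real.log (k / (j * (1 - b))) + 3 ≤ (r : ℝ) →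
      2 * j * Real.log (1 / b) + 3 ≤ (m : ℝ) →
      ExactU k r m (fun x => ∑ i ∈ Finset.range (k + 1), c i s * (x : ℝ) ^ i) ∧
      ApproxU k r m (fun x => ∑ i ∈ Finset.range (k + 1), c i s * (x : ℝ) ^ i)} ≤
      ENNReal.ofReal δ := by
  obtain ⟨d, hd, h⟩ := mix_curveG hj hjk
  refine ⟨d, hd, fun c hc hconst => ?_⟩
  have hz : ∀ i, j < i → i < k + 1 → ∀ s, deriv (c i) s = 0 := by
    intro i hi1 hi2 s
    have e1 : c i = fun _ => c i 0 := by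
      funext t
      exact hconst i hi1 (by omega) t 0
    rw [e1]
    exact deriv_const _ _
  have hsub : {s : ℝ | 0 < c k s ∧ deriv (c j) s ≠ 0 ∧ ¬ ∀ (r m : ℕ) (b : ℝ), 0 < b → b < 1 →
      2 * k * Real.log (k / (j * (1 - b))) + 3 ≤ (r : ℝ) →
      2 * j * Real.log (1 / b) + 3 ≤ (m : ℝ) →
      ExactU k r m (fun x => ∑ i ∈ Finset.range (k + 1), c i s * (x : ℝ) ^ i) ∧
      ApproxU k r m (fun x => ∑ i ∈ Finset.range (k + 1), c i s * (x : ℝ) ^ i)} ⊆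
      ⋃ p : ℕ × ℕ, {s : ℝ | xb k p.1 + yg j p.2 ≤ (j : ℝ) ∧ 0 < c k s ∧ deriv (c j) s ≠ 0 ∧
        ¬ ∀ A : ℕ, 1 ≤ A → MixL k A (fun x : ℕ => lo (k + 1) (fun i => c i s) (x : ℝ))
          (2 * (p.1 + 1) + 1) (2 * p.2 + 1)} := by
    rintro s ⟨hsp, hs, hbad⟩
    by_contra hcon
    rw [Set.mem_iUnion] at hcon
    refine hbad ?_
    intro r m b hb hb1 hr hm
    obtain ⟨q1, q2, hq, hr', hm'⟩ := numG hj hjk hb hb1 hr hm
    have h3 : ∀ A : ℕ, 1 ≤ A → MixL k A (fun x : ℕ => lo (k + 1) (fun i => c i s) (x : ℝ))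
        (2 * (q1 + 1) + 1) (2 * q2 + 1) := by
      by_contra h4
      exact hcon ⟨(q1, q2), hq, hsp, hs, h4⟩
    exact ⟨exactU_mono hr' hm' (exact_of_mix (h3 1 le_rfl)),
      approxU_mono hr' hm' (approx_of_mix h3)⟩
  refine (dimH_mono hsub).trans ?_
  rw [dimH_iUnion]
  refine iSup_le fun p => ?_
  by_cases hq : xb k p.1 + yg j p.2 ≤ (j : ℝ)
  · refine (dimH_mono ?_).trans (h p.1 p.2 hq (fun i hi => hc i (by omega)) hz)
    rintro s ⟨_, hs⟩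
    exact hs
  · have : {s : ℝ | xb k p.1 + yg j p.2 ≤ (j : ℝ) ∧ 0 < c k s ∧ deriv (c j) s ≠ 0 ∧
        ¬ ∀ A : ℕ, 1 ≤ A → MixL k A (fun x : ℕ => lo (k + 1) (fun i => c i s) (x : ℝ))
          (2 * (p.1 + 1) + 1) (2 * p.2 + 1)} = ∅ := by
      ext s
      simp only [Set.mem_empty_iff_false, iff_false]
      exact fun hs => hq hs.1
    rw [this, dimH_empty]
    exact zero_le

end XWar
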