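import Pool.Agent.UWar.LowerU
import Pool.Agent.XWar.ResG

/-!
# XWar.LowG: the lower bound, general leading coefficient
-/

namespace XWar

open TWar MWg FWar UWar YWar Finset Filter Topology

private theorem LowG_bd {k : ℕ} {f : ℕ → ℝ}
    (hf : Tendsto (fun x : ℕ => f x / (x : ℝ) ^ k) atTop (𝓝 1)) :
    ∃ C : ℝ, 0 ≤ C ∧ ∀ x : ℕ, (1 / 2 : ℝ) * (x : ℝ) ^ k - C ≤ f x := by
  have h1 : ∀ᶠ x : ℕ in atTop, (1 / 2 : ℝ) < f x / (x : ℝ) ^ k :=
    hf.eventually (lt_mem_nhds (by norm_num))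
  obtain ⟨N, hN⟩ := Filter.eventually_atTop.1 (h1.and (Filter.eventually_ge_atTop 1))
  refine ⟨∑ x ∈ Finset.range N, (|f x| + 1 / 2 * (x : ℝ) ^ k),
    Finset.sum_nonneg fun x _ => by positivity, fun x => ?_⟩
  by_cases hx : x < N
  · have h2 : |f x| + 1 / 2 * (x : ℝ) ^ k ≤
        ∑ x ∈ Finset.range N, (|f x| + 1 / 2 * (x : ℝ) ^ k) :=
      Finset.single_le_sum (f := fun x : ℕ => |f x| + 1 / 2 * (x : ℝ) ^ k)
        (fun x _ => by positivity) (Finset.mem_range.2 hx)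
    have h3 := neg_abs_le (f x)
    linarith
  · obtain ⟨h2, h3⟩ := hN x (by omega)
    have h4 : (0 : ℝ) < (x : ℝ) ^ k := by
      have : (0 : ℝ) < x := by exact_mod_cast h3
      positivity
    rw [lt_div_iff₀ h4] at h2
    have h5 : 0 ≤ ∑ x ∈ Finset.range N, (|f x| + 1 / 2 * (x : ℝ) ^ k) :=
      Finset.sum_nonneg fun x _ => by positivity
    linarith

theorem lowerG {k : ℕ} (hk : 2 ≤ k) {d : ℕ → ℝ} (h0 : 0 < d k) {r m : ℕ}
    (h : ApproxU k r m (fun x => ∑ i ∈ Finset.range (k + 1), d i * (x : ℝ) ^ i)) : k < r + m := by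
  obtain ⟨h', hh⟩ : ∃ h' : ℕ → ℝ, h' = fun x : ℕ => (x : ℝ) ^ k + lo k (fun i => d i / d k) x := ⟨_, rfl⟩
  have hg : Good k h' := by
    rw [hh]
    exact good_lo (good_pow (by omega : 1 ≤ k)) _ k le_rfl
  have he : ∀ x : ℕ, ∑ i ∈ Finset.range (k + 1), d i * (x : ℝ) ^ i = d k * h' x := by
    intro x
    rw [hh]
    show ∑ i ∈ Finset.range (k + 1), d i * (x : ℝ) ^ i = d k * ((x : ℝ) ^ k + lo k (fun i => d i / d k) x)
    unfold lo
    rw [sum_range_succ, mul_add, mul_sum, add_comm]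
    congr 1
    refine sum_congr rfl fun i _ => ?_
    field_simp
  obtain ⟨C, hC, hb⟩ := LowG_bd (good_lim (by omega : 1 ≤ k) hg)
  refine lower_fam (f := Fin.append (fun _ : Fin r => fun x : ℕ => (x : ℝ) ^ k)
    (fun _ : Fin m => fun x : ℕ => ∑ i ∈ Finset.range (k + 1), d i * (x : ℝ) ^ i))
    (show 1 ≤ k by omega) (c := min 1 (d k / 2)) (C := d k * C) (lt_min one_pos (by positivity))
    (by positivity) (fun i x => ?_) (fun ε hε => ?_)
  · have hx : (0 : ℝ) ≤ (x : ℝ) ^ k := by positivity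
    have hdC : 0 ≤ d k * C := by positivity
    refine Fin.addCases (fun a => ?_) (fun a => ?_) i
    · rw [Fin.append_left]
      have h2 : min 1 (d k / 2) * (x : ℝ) ^ k ≤ 1 * (x : ℝ) ^ k :=
        mul_le_mul_of_nonneg_right (min_le_left _ _) hx
      linarith
    · rw [Fin.append_right]
      show min 1 (d k / 2) * (x : ℝ) ^ k - d k * C ≤ ∑ i ∈ Finset.range (k + 1), d i * (x : ℝ) ^ i
      rw [he]
      have h2 : min 1 (d k / 2) * (x : ℝ) ^ k ≤ d k / 2 * (x : ℝ) ^ k :=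
        mul_le_mul_of_nonneg_right (min_le_right _ _) hx
      have h3 := mul_le_mul_of_nonneg_left (hb x) h0.le
      linarith
  · obtain ⟨Y, hY⟩ := h ε hε
    refine ⟨Y, fun y hy => ?_⟩
    obtain ⟨x, z, -, -, hxz⟩ := hY y hy
    refine ⟨Fin.append x z, ?_⟩
    rw [Fin.sum_univ_add]
    simp only [Fin.append_left, Fin.append_right]
    exact hxz

end XWar
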