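import Pool.Agent.XWar.FinX
import Pool.Agent.TWar.ResT
import Pool.Agent.UWar.LowerU

/-!
# XWar.ResX: final form, plain powers and values of a polynomial with `d ≥ 1` random coefficients, at
`x^j, x^(j-1), ..., x^(j-d+1)`
-/

namespace XWar

open TWar MWg FWar UWar MeasureTheory Filter Topology

theorem mix_dX {k j d q1 q2 : ℕ} (hj : 2 ≤ j) (hjk : j < k) (hd : 1 ≤ d)
    (hq : xb k q1 + yg j q2 ≤ (j : ℝ)) {g : Polynomial ℝ} (hg : g.natDegree < k) :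
    ∀ᵐ t : Fin d → ℝ, ∀ A : ℕ, 1 ≤ A →
      MixL k A (fun x => (x : ℝ) ^ k + g.eval (x : ℝ) +
        ∑ i : Fin d, t i * (x : ℝ) ^ (j - (i : ℕ))) (2 * (q1 + 1)) (2 * q2 + 1) := by
  obtain ⟨n, rfl⟩ : ∃ n, d = n + 1 := ⟨d - 1, by omega⟩
  rw [ae_all_iff]
  intro A
  by_cases hA : 1 ≤ A
  swap
  · exact Filter.Eventually.of_forall fun c h => absurd h hA
  have key : ∀ᵐ t : Fin (n + 1) → ℝ, MixL k A (fun x => (x : ℝ) ^ k + g.eval (x : ℝ) +
        ∑ i : Fin (n + 1), t i * (x : ℝ) ^ (j - (i : ℕ))) (2 * (q1 + 1)) (2 * q2 + 1) := by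
    refine ae_cons (measurableSet_mix (F := fun (t : Fin (n + 1) → ℝ) (x : ℕ) => (x : ℝ) ^ k +
      g.eval (x : ℝ) + ∑ i : Fin (n + 1), t i * (x : ℝ) ^ (j - (i : ℕ)))
      (fun x => by fun_prop) k A _ _) fun c => ?_
    set g' : Polynomial ℝ := g + ∑ m : Fin n, Polynomial.C (c m) *
      Polynomial.X ^ (j - ((m : ℕ) + 1)) with hg'
    have hgd : g'.natDegree < k := by
      refine lt_of_le_of_lt (Polynomial.natDegree_add_le _ _) (max_lt hg ?_)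
      have : (∑ m : Fin n, Polynomial.C (c m) *
          Polynomial.X ^ (j - ((m : ℕ) + 1))).natDegree ≤ j := by
        apply Polynomial.natDegree_sum_le_of_forall_le
        intro m _
        refine (Polynomial.natDegree_C_mul_X_pow_le _ _).trans ?_
        omega
      omega
    filter_upwards [floor_mixX hj hjk hq hgd] with t ht
    have h5 : (fun x : ℕ => (x : ℝ) ^ k + g.eval (x : ℝ) +
        ∑ i : Fin (n + 1), (Fin.cons (α := fun _ => ℝ) t c : Fin (n + 1) → ℝ) i *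
          (x : ℝ) ^ (j - (i : ℕ))) =
        fun x : ℕ => (x : ℝ) ^ k + g'.eval (x : ℝ) + t * (x : ℝ) ^ j := by
      funext x
      rw [Fin.sum_univ_succ]
      simp only [Fin.cons_zero, Fin.cons_succ, Fin.val_zero, Fin.val_succ, Nat.sub_zero, hg',
        Polynomial.eval_add, Polynomial.eval_finsetSum, Polynomial.eval_mul, Polynomial.eval_C,
        Polynomial.eval_pow, Polynomial.eval_X]
      ring
    rw [h5]
    exact ht A hA
  filter_upwards [key] with t ht _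
  exact ht

/-- The numbers of letters for real `c`. -/
theorem numX {k j r m : ℕ} (hj : 2 ≤ j) (hjk : j < k) {c : ℝ} (hc : 0 < c) (hc1 : c < 1)
    (hr : 2 * k * Real.log (k / (j * (1 - c))) + 2 ≤ (r : ℝ))
    (hm : 2 * j * Real.log (1 / c) + 3 ≤ (m : ℝ)) :
    ∃ q1 q2 : ℕ, xb k q1 + yg j q2 ≤ (j : ℝ) ∧ 2 * (q1 + 1) ≤ r ∧ 2 * q2 + 1 ≤ m := by
  have hj0 : (2 : ℝ) ≤ j := by exact_mod_cast hj
  have hjkR : (j : ℝ) < k := by exact_mod_cast hjk
  have hk0 : (0 : ℝ) < k := by linarith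
  have hc' : 0 < 1 - c := by linarith
  obtain ⟨δ, hδ⟩ : ∃ δ : ℝ, δ = (1 - c) * ((j : ℝ) / k) := ⟨_, rfl⟩
  have hfr : 0 < (j : ℝ) / k := div_pos (by linarith) hk0
  have hδ0 : 0 < δ := by rw [hδ]; exact mul_pos hc' hfr
  have hfr1 : (j : ℝ) / k < 1 := by
    rw [div_lt_one hk0]
    exact hjkR
  have hδ1 : δ < 1 := by
    rw [hδ]
    nlinarith
  have e0 : (k : ℝ) / (j * (1 - c)) = 1 / δ := by
    rw [hδ]
    have h1 : (1 : ℝ) - c ≠ 0 := hc'.ne'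
    have h2 : (j : ℝ) ≠ 0 := by linarith
    field_simp
  rw [e0] at hr
  have hlogδ0 : 0 < Real.log (1 / δ) := by
    apply Real.log_pos
    rw [lt_div_iff₀ hδ0]
    linarith
  have hlogc0 : 0 < Real.log (1 / c) := by
    apply Real.log_pos
    rw [lt_div_iff₀ hc]
    linarith
  obtain ⟨n1, hn1⟩ : ∃ n1, n1 = ⌈(k : ℝ) * Real.log (1 / δ)⌉₊ := ⟨_, rfl⟩
  obtain ⟨n2, hn2⟩ : ∃ n2, n2 = ⌈(j : ℝ) * Real.log (1 / c)⌉₊ := ⟨_, rfl⟩
  have a1 : (k : ℝ) * Real.log (1 / δ) ≤ n1 := by rw [hn1]; exact Nat.le_ceil _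
  have a2 : (n1 : ℝ) < (k : ℝ) * Real.log (1 / δ) + 1 := by
    rw [hn1]; exact Nat.ceil_lt_add_one (by positivity)
  have b1 : (j : ℝ) * Real.log (1 / c) ≤ n2 := by rw [hn2]; exact Nat.le_ceil _
  have b2 : (n2 : ℝ) < (j : ℝ) * Real.log (1 / c) + 1 := by
    rw [hn2]; exact Nat.ceil_lt_add_one (by positivity)
  have hn1pos : 1 ≤ n1 := by
    have : (0 : ℝ) < n1 := lt_of_lt_of_le (by positivity) a1
    exact_mod_cast this
  have c1 : (1 - 1 / (k : ℝ)) ^ n1 ≤ δ := parExU_exp k n1 δ hδ0 (by omega) a1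
  have c2 : (1 - 1 / (j : ℝ)) ^ n2 ≤ c := parExU_exp j n2 c hc (by omega) b1
  refine ⟨n1 - 1, n2, ?_, ?_, ?_⟩
  · unfold xb yg
    have e1 : n1 - 1 + 1 = n1 := by omega
    rw [e1]
    have d1 : (k : ℝ) * (1 - 1 / (k : ℝ)) ^ n1 ≤ k * δ := mul_le_mul_of_nonneg_left c1 hk0.le
    have d2 : (j : ℝ) * (1 - 1 / (j : ℝ)) ^ n2 ≤ (j : ℝ) * c :=
      mul_le_mul_of_nonneg_left c2 (Nat.cast_nonneg _)
    have e2 : (k : ℝ) * δ = (1 - c) * j := by
      rw [hδ]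
      field_simp
    rw [e2] at d1
    linarith
  · have h1 : ((2 * (n1 - 1 + 1) : ℕ) : ℝ) < (r : ℝ) + 1 := by
      have e1 : n1 - 1 + 1 = n1 := by omega
      rw [e1]
      push_cast
      linarith
    have h2 : 2 * (n1 - 1 + 1) < r + 1 := by exact_mod_cast h1
    omega
  · have h1 : ((2 * n2 + 1 : ℕ) : ℝ) < (m : ℝ) + 1 := by
      push_cast
      linarith
    have h2 : 2 * n2 + 1 < m + 1 := by exact_mod_cast h1
    omega

theorem res_mixX {k j d : ℕ} (hj : 2 ≤ j) (hjk : j < k) (hd : 1 ≤ d) {g : Polynomial ℝ}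
    (hg : g.natDegree < k) :
    ∀ᵐ t : Fin d → ℝ, ∀ (r m : ℕ) (c : ℝ), 0 < c → c < 1 →
      2 * k * Real.log (k / (j * (1 - c))) + 2 ≤ (r : ℝ) →
      2 * j * Real.log (1 / c) + 3 ≤ (m : ℝ) →
      ExactU k r m (fun x => (x : ℝ) ^ k + g.eval (x : ℝ) +
        ∑ i : Fin d, t i * (x : ℝ) ^ (j - (i : ℕ))) ∧
      ApproxU k r m (fun x => (x : ℝ) ^ k + g.eval (x : ℝ) +
        ∑ i : Fin d, t i * (x : ℝ) ^ (j - (i : ℕ))) := by
  have h1 : ∀ q1 q2 : ℕ, ∀ᵐ t : Fin d → ℝ, xb k q1 + yg j q2 ≤ (j : ℝ) →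
      ∀ A : ℕ, 1 ≤ A → MixL k A (fun x => (x : ℝ) ^ k + g.eval (x : ℝ) +
        ∑ i : Fin d, t i * (x : ℝ) ^ (j - (i : ℕ))) (2 * (q1 + 1)) (2 * q2 + 1) := by
    intro q1 q2
    by_cases hq : xb k q1 + yg j q2 ≤ (j : ℝ)
    · filter_upwards [mix_dX hj hjk hd hq hg] with t ht _
      exact ht
    · exact Filter.Eventually.of_forall fun t h => absurd h hq
  have h2 : ∀ᵐ t : Fin d → ℝ, ∀ q1 q2 : ℕ, xb k q1 + yg j q2 ≤ (j : ℝ) →
      ∀ A : ℕ, 1 ≤ A → MixL k A (fun x => (x : ℝ) ^ k + g.eval (x : ℝ) +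
        ∑ i : Fin d, t i * (x : ℝ) ^ (j - (i : ℕ))) (2 * (q1 + 1)) (2 * q2 + 1) := by
    rw [ae_all_iff]
    intro q1
    rw [ae_all_iff]
    exact h1 q1
  filter_upwards [h2] with t ht r m c hc hc1 hr hm
  obtain ⟨q1, q2, hq, hr', hm'⟩ := numX hj hjk hc hc1 hr hm
  have h3 := ht q1 q2 hq
  exact ⟨exactU_mono hr' hm' (exact_of_mix (h3 1 le_rfl)),
    approxU_mono hr' hm' (approx_of_mix h3)⟩

/-- The lower bound. -/
theorem lowerX {k j d : ℕ} (hjk : j < k) {g : Polynomial ℝ} (hg : g.natDegree < k)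
    (t : Fin d → ℝ) {r m : ℕ} (h : ApproxU k r m (fun x => (x : ℝ) ^ k + g.eval (x : ℝ) +
        ∑ i : Fin d, t i * (x : ℝ) ^ (j - (i : ℕ)))) : k < r + m := by
  set g' : Polynomial ℝ := g + ∑ i : Fin d, Polynomial.C (t i) *
    Polynomial.X ^ (j - (i : ℕ)) with hg'
  have hgd : g'.natDegree < k := by
    refine lt_of_le_of_lt (Polynomial.natDegree_add_le _ _) (max_lt hg ?_)
    have : (∑ i : Fin d, Polynomial.C (t i) * Polynomial.X ^ (j - (i : ℕ))).natDegree ≤ j := by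
      apply Polynomial.natDegree_sum_le_of_forall_le
      intro i _
      refine (Polynomial.natDegree_C_mul_X_pow_le _ _).trans ?_
      omega
    omega
  refine lowerU (d := 0) (by omega) hgd Fin.elim0 (r := r) (m := m) ?_
  have h5 : (fun x : ℕ => (x : ℝ) ^ k + g.eval (x : ℝ) +
      ∑ i : Fin d, t i * (x : ℝ) ^ (j - (i : ℕ))) =
      HWar.ff k 0 (fun x : ℕ => g'.eval (x : ℝ)) Fin.elim0 := by
    funext x
    unfold HWar.ff
    rw [Fin.sum_univ_zero, add_zero, hg']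
    simp only [Polynomial.eval_add, Polynomial.eval_finsetSum, Polynomial.eval_mul,
      Polynomial.eval_C, Polynomial.eval_pow, Polynomial.eval_X]
    ring
  rw [← h5]
  exact h

end XWar
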