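import Pool.Agent.XWar.FinC
import Pool.Agent.XWar.ResX

/-!
# XWar.ResC: final form, plain powers and values of a polynomial on a curve of polynomials

`C¹` coefficient functions `c 0, ..., c j`, a fixed polynomial `g` of degree less than `k`: the numbers of
summands of `res_mixX` suffice for almost every `s` with `(c j)' s ≠ 0`.
-/

namespace XWar

open TWar MWg FWar UWar MeasureTheory Filter Topology

private theorem bdd_fam {k : ℕ} {f : ℕ → ℝ → ℝ} (hf : ∀ i < k, Continuous (f i)) (a b : ℝ) :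
    ∃ T : ℝ, 0 ≤ T ∧ ∀ i < k, ∀ t ∈ Set.Icc a b, |f i t| ≤ T := by
  have hc : Continuous fun t => ∑ i ∈ Finset.range k, |f i t| :=
    continuous_finsetSum _ fun i hi => (hf i (Finset.mem_range.1 hi)).abs
  obtain ⟨T, hT⟩ := (isCompact_Icc (a := a) (b := b)).exists_bound_of_continuousOn hc.continuousOn
  refine ⟨max T 0, le_max_right _ _, fun i hi t ht => ?_⟩
  have h1 := hT t ht
  rw [Real.norm_eq_abs] at h1
  have h2 : |f i t| ≤ ∑ i ∈ Finset.range k, |f i t| :=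
    Finset.single_le_sum (f := fun i => |f i t|) (fun j _ => abs_nonneg _)
      (Finset.mem_range.2 hi)
  exact (h2.trans (le_abs_self _)).trans (h1.trans (le_max_left _ _))

theorem mix_curve {k j q1 q2 : ℕ} (hj : 2 ≤ j) (hjk : j < k) (hq : xb k q1 + yg j q2 ≤ (j : ℝ))
    {g : Polynomial ℝ} (hg : g.natDegree < k) {c : ℕ → ℝ → ℝ}
    (hc : ∀ i < j + 1, ContDiff ℝ 1 (c i)) :
    ∀ᵐ s : ℝ, deriv (c j) s ≠ 0 → ∀ A : ℕ, 1 ≤ A →
      MixL k A (fc k j g c s) (2 * (q1 + 1)) (2 * q2 + 1) := by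
  have h1 : ∀ i < j + 1, ∀ t, HasDerivAt (c i) (deriv (c i) t) t := fun i hi t =>
    (((hc i hi).differentiable (by norm_num)) t).hasDerivAt
  have k1 : ∀ i < j + 1, Continuous (deriv (c i)) := fun i hi => (hc i hi).continuous_deriv le_rfl
  have hjj : j < j + 1 := by omega
  have hall : ∀ᵐ s : ℝ, ∀ p : (ℚ × ℚ) × ℕ, (p.1.1 : ℝ) ≤ p.1.2 →
      (∀ s ∈ Set.Icc (p.1.1 : ℝ) p.1.2, 1 / ((p.2 : ℝ) + 1) ≤ |deriv (c j) s|) →
      s ∈ Set.Icc (p.1.1 : ℝ) p.1.2 → ∀ A : ℕ, 1 ≤ A →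
      MixL k A (fc k j g c s) (2 * (q1 + 1)) (2 * q2 + 1) := by
    rw [ae_all_iff]
    intro p
    by_cases hp : (p.1.1 : ℝ) ≤ p.1.2 ∧
        ∀ s ∈ Set.Icc (p.1.1 : ℝ) p.1.2, 1 / ((p.2 : ℝ) + 1) ≤ |deriv (c j) s|
    · obtain ⟨hab, hlow⟩ := hp
      obtain ⟨T, hT, hb⟩ := bdd_fam k1 (p.1.1 : ℝ) p.1.2
      filter_upwards [floor_mixC hj hjk hq hg h1 hab hT (δ0 := 1 / ((p.2 : ℝ) + 1)) (by positivity)
        hb hlow] with s hs _ _
      exact hs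
    · exact Filter.Eventually.of_forall fun s h2 h3 => absurd ⟨h2, h3⟩ hp
  filter_upwards [hall] with t hall ht
  have habs : 0 < |deriv (c j) t| := abs_pos.2 ht
  obtain ⟨n, hn⟩ := exists_nat_one_div_lt habs
  have hev : ∀ᶠ s in 𝓝 t, 1 / ((n : ℝ) + 1) < |deriv (c j) s| :=
    (k1 j hjj).abs.continuousAt.eventually (lt_mem_nhds hn)
  obtain ⟨η, hη, hball⟩ := Metric.eventually_nhds_iff.1 hev
  obtain ⟨p, hp1, hp2⟩ := exists_rat_btwn (show t - η < t by linarith)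
  obtain ⟨p', hp1', hp2'⟩ := exists_rat_btwn (show t < t + η by linarith)
  refine hall ((p, p'), n) (by show (p : ℝ) ≤ p'; linarith) (fun s hs => ?_) ⟨hp2.le, hp1'.le⟩
  refine (hball ?_).le
  have hs1 : (p : ℝ) ≤ s := hs.1
  have hs2 : s ≤ (p' : ℝ) := hs.2
  rw [Real.dist_eq, abs_lt]
  constructor <;> linarith

theorem res_curveX {k j : ℕ} (hj : 2 ≤ j) (hjk : j < k) {g : Polynomial ℝ} (hg : g.natDegree < k)
    {c : ℕ → ℝ → ℝ} (hc : ∀ i ≤ j, ContDiff ℝ 1 (c i)) :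
    ∀ᵐ s : ℝ, deriv (c j) s ≠ 0 → ∀ (r m : ℕ) (b : ℝ), 0 < b → b < 1 →
      2 * k * Real.log (k / (j * (1 - b))) + 2 ≤ (r : ℝ) →
      2 * j * Real.log (1 / b) + 3 ≤ (m : ℝ) →
      ExactU k r m (fun x => (x : ℝ) ^ k + g.eval (x : ℝ) +
        ∑ i ∈ Finset.range (j + 1), c i s * (x : ℝ) ^ i) ∧
      ApproxU k r m (fun x => (x : ℝ) ^ k + g.eval (x : ℝ) +
        ∑ i ∈ Finset.range (j + 1), c i s * (x : ℝ) ^ i) := by
  have h1 : ∀ q1 q2 : ℕ, ∀ᵐ s : ℝ, xb k q1 + yg j q2 ≤ (j : ℝ) → deriv (c j) s ≠ 0 →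
      ∀ A : ℕ, 1 ≤ A → MixL k A (fun x => (x : ℝ) ^ k + g.eval (x : ℝ) +
        ∑ i ∈ Finset.range (j + 1), c i s * (x : ℝ) ^ i) (2 * (q1 + 1)) (2 * q2 + 1) := by
    intro q1 q2
    by_cases hq : xb k q1 + yg j q2 ≤ (j : ℝ)
    · filter_upwards [mix_curve hj hjk hq hg (fun i hi => hc i (by omega))] with t ht _ h
      exact ht h
    · exact Filter.Eventually.of_forall fun t h => absurd h hq
  have h2 : ∀ᵐ s : ℝ, ∀ q1 q2 : ℕ, xb k q1 + yg j q2 ≤ (j : ℝ) → deriv (c j) s ≠ 0 →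
      ∀ A : ℕ, 1 ≤ A → MixL k A (fun x => (x : ℝ) ^ k + g.eval (x : ℝ) +
        ∑ i ∈ Finset.range (j + 1), c i s * (x : ℝ) ^ i) (2 * (q1 + 1)) (2 * q2 + 1) := by
    rw [ae_all_iff]
    intro q1
    rw [ae_all_iff]
    exact h1 q1
  filter_upwards [h2] with s hs hds r m b hb hb1 hr hm
  obtain ⟨q1, q2, hq, hr', hm'⟩ := numX hj hjk hb hb1 hr hm
  have h3 := hs q1 q2 hq hds
  exact ⟨exactU_mono hr' hm' (exact_of_mix (h3 1 le_rfl)),
    approxU_mono hr' hm' (approx_of_mix h3)⟩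

/-- The lower bound. -/
theorem lowerC {k : ℕ} (hk : 2 ≤ k) {g : Polynomial ℝ} (hg : g.natDegree < k) {r m : ℕ}
    (h : ApproxU k r m (fun x => (x : ℝ) ^ k + g.eval (x : ℝ))) : k < r + m := by
  refine lowerX (j := 1) (d := 0) (by omega) hg Fin.elim0 (r := r) (m := m) ?_
  simp only [Finset.univ_eq_empty, Finset.sum_empty, add_zero]
  exact h

end XWar
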