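import Pool.Agent.XWar.FinS
import Pool.Agent.TWar.ResT

/-!
# XWar.ResS: final form, all the coefficients of `x, x^2, ..., x^e` random
-/

namespace XWar

open TWar MWg FWar UWar MeasureTheory Filter Topology

theorem numS {k e : ℕ} (he : 1 ≤ e) (hek : e < k) : ∃ q1 : ℕ, xb k q1 ≤ (e : ℝ) ∧
    ∀ r : ℕ, 2 * k * Real.log (k / e) + 2 ≤ (r : ℝ) → 2 * (q1 + 1) ≤ r := by
  have he0 : (1 : ℝ) ≤ e := by exact_mod_cast he
  have hekR : (e : ℝ) < k := by exact_mod_cast hek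
  have hk0 : (0 : ℝ) < k := by linarith
  obtain ⟨δ, hδ⟩ : ∃ δ : ℝ, δ = (e : ℝ) / k := ⟨_, rfl⟩
  have hδ0 : 0 < δ := by rw [hδ]; exact div_pos (by linarith) hk0
  have hδ1 : δ < 1 := by
    rw [hδ, div_lt_one hk0]
    exact hekR
  have e0 : (k : ℝ) / e = 1 / δ := by
    rw [hδ, one_div_div]
  have hlog0 : 0 < Real.log (1 / δ) := by
    apply Real.log_pos
    rw [lt_div_iff₀ hδ0]
    linarith
  obtain ⟨n1, hn1⟩ : ∃ n1, n1 = ⌈(k : ℝ) * Real.log (1 / δ)⌉₊ := ⟨_, rfl⟩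
  have a1 : (k : ℝ) * Real.log (1 / δ) ≤ n1 := by rw [hn1]; exact Nat.le_ceil _
  have a2 : (n1 : ℝ) < (k : ℝ) * Real.log (1 / δ) + 1 := by
    rw [hn1]; exact Nat.ceil_lt_add_one (by positivity)
  have hn1pos : 1 ≤ n1 := by
    have : (0 : ℝ) < n1 := lt_of_lt_of_le (by positivity) a1
    exact_mod_cast this
  have c1 : (1 - 1 / (k : ℝ)) ^ n1 ≤ δ := parExU_exp k n1 δ hδ0 (by omega) a1
  refine ⟨n1 - 1, ?_, fun r hr => ?_⟩
  · unfold xb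
    have e1 : n1 - 1 + 1 = n1 := by omega
    rw [e1]
    have d1 : (k : ℝ) * (1 - 1 / (k : ℝ)) ^ n1 ≤ k * δ := mul_le_mul_of_nonneg_left c1 hk0.le
    have e2 : (k : ℝ) * δ = e := by
      rw [hδ]
      field_simp
    linarith
  · rw [e0] at hr
    have h1 : ((2 * (n1 - 1 + 1) : ℕ) : ℝ) < (r : ℝ) + 1 := by
      have e1 : n1 - 1 + 1 = n1 := by omega
      rw [e1]
      push_cast
      linarith
    have h2 : 2 * (n1 - 1 + 1) < r + 1 := by exact_mod_cast h1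
    omega

theorem res_mixS {k e : ℕ} (hk : 3 ≤ k) (he : 1 ≤ e) (hek : e < k) {g : Polynomial ℝ}
    (hg : g.natDegree < k) :
    ∀ᵐ t : Fin e → ℝ, ∀ r m : ℕ,
      2 * k * Real.log (k / e) + 2 ≤ (r : ℝ) → 2 * e + 1 ≤ m →
      ExactU k r m (fun x => (x : ℝ) ^ k + g.eval (x : ℝ) +
        ∑ i : Fin e, t i * (x : ℝ) ^ (e - (i : ℕ))) ∧
      ApproxU k r m (fun x => (x : ℝ) ^ k + g.eval (x : ℝ) +
        ∑ i : Fin e, t i * (x : ℝ) ^ (e - (i : ℕ))) := by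
  obtain ⟨q1, hq, hq2⟩ := numS he hek
  obtain ⟨n, rfl⟩ : ∃ n, e = n + 1 := ⟨e - 1, by omega⟩
  filter_upwards [floor_mixS hk hek hq hg] with t ht r m hr hm
  have hr' := hq2 r hr
  exact ⟨exactU_mono hr' hm (exact_of_mix (ht 1 le_rfl)),
    approxU_mono hr' hm (approx_of_mix ht)⟩

end XWar
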