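import Pool.Agent.UWar.LowerU
import Pool.Agent.UWar.ChooseA
import Pool.Agent.XWar.ResS

/-!
# XWar.SeveralD: plain powers and a few values, several generic coefficients

Not handed in; formerly part (2) of `FewGenericValues`.
-/

namespace XWar

open MeasureTheory

/-- Every sufficiently large integer is a sum of `r` positive `k`-th powers and `m` terms `⌊f n⌋`, and
the sums of `r` positive `k`-th powers and `m` values `f n` come arbitrarily close to every large real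
number (`n ≥ 1` throughout). -/
def RepU (k : ℕ) (f : ℕ → ℝ) (r m : ℕ) : Prop :=
  (∃ N0 : ℤ, ∀ N : ℤ, N0 ≤ N → ∃ (x : Fin r → ℕ) (y : Fin m → ℕ), (∀ i, 1 ≤ x i) ∧
    (∀ j, 1 ≤ y j) ∧ ∑ i, (x i : ℤ) ^ k + ∑ j, ⌊f (y j)⌋ = N) ∧
  (∀ ε : ℝ, 0 < ε → ∃ Y : ℝ, ∀ z : ℝ, Y ≤ z → ∃ (x : Fin r → ℕ) (y : Fin m → ℕ),
    (∀ i, 1 ≤ x i) ∧ (∀ j, 1 ≤ y j) ∧ |∑ i, (x i : ℝ) ^ k + ∑ j, f (y j) - z| < ε)

theorem severalD {k e : ℕ} (he : 2 ≤ e) : (e < k → ∀ (g : Polynomial ℝ) (d : ℕ), g.natDegree < k → 1 ≤ d → d ≤ e + 1 →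
      ∀ᵐ t : Fin d → ℝ, ∀ r m : ℕ,
        ((d = e ∧ 2 * k * Real.log (k / e) + 2 ≤ r ∧ 2 * e + 1 ≤ m) ∨
          (e = k - 1 ∧ 2700 ≤ k ∧ 270 ≤ d ∧ ∃ b : ℝ, 0 < b ∧ b ≤ 1 ∧
            (k : ℝ) * Real.log (1 / b) + 38 * (k / √(d : ℝ) + (k : ℝ) ^ ((2 : ℝ) / 3)) ≤ r ∧
            b * k + 23 * (k / √(d : ℝ) + (k : ℝ) ^ ((2 : ℝ) / 3)) ≤ m)) →
        RepU k (fun x => (x : ℝ) ^ k + g.eval (x : ℝ) +
          ∑ i : Fin d, t i * (x : ℝ) ^ (e - (i : ℕ))) r m) := by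
  intro hek g d hg hd hde
  have h1 : ∀ r m : ℕ, ∀ᵐ t : Fin d → ℝ,
      (e = k - 1 ∧ 2700 ≤ k ∧ 270 ≤ d ∧ ∃ b : ℝ, 0 < b ∧ b ≤ 1 ∧
        (k : ℝ) * Real.log (1 / b) + 38 * (k / √(d : ℝ) + (k : ℝ) ^ ((2 : ℝ) / 3)) ≤ r ∧
        b * k + 23 * (k / √(d : ℝ) + (k : ℝ) ^ ((2 : ℝ) / 3)) ≤ m) →
      RepU k (fun x => (x : ℝ) ^ k + g.eval (x : ℝ) +
          ∑ i : Fin d, t i * (x : ℝ) ^ (e - (i : ℕ))) r m := by
    intro r m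
    by_cases hc : e = k - 1 ∧ 2700 ≤ k ∧ 270 ≤ d ∧ ∃ b : ℝ, 0 < b ∧ b ≤ 1 ∧
        (k : ℝ) * Real.log (1 / b) + 38 * (k / √(d : ℝ) + (k : ℝ) ^ ((2 : ℝ) / 3)) ≤ r ∧
        b * k + 23 * (k / √(d : ℝ) + (k : ℝ) ^ ((2 : ℝ) / 3)) ≤ m
    · obtain ⟨hek2, hk2, hd2, b, hb, hb1, hr, hm⟩ := hc
      have hdk : d ≤ k := by omega
      obtain ⟨p, pr, pm⟩ := UWar.par_exU2 hb hb1 hk2 hdk hd2 hr hm
      filter_upwards [UWar.exact_aeU p hg, UWar.apx_aeU p hg] with t h1 h2 _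
      rw [hek2]
      exact ⟨UWar.exactU_mono pr pm h1, UWar.approxU_mono pr pm h2⟩
    · exact Filter.Eventually.of_forall fun t h => absurd h hc
  have h2 : ∀ᵐ t : Fin d → ℝ, ∀ r m : ℕ,
      (e = k - 1 ∧ 2700 ≤ k ∧ 270 ≤ d ∧ ∃ b : ℝ, 0 < b ∧ b ≤ 1 ∧
        (k : ℝ) * Real.log (1 / b) + 38 * (k / √(d : ℝ) + (k : ℝ) ^ ((2 : ℝ) / 3)) ≤ r ∧
        b * k + 23 * (k / √(d : ℝ) + (k : ℝ) ^ ((2 : ℝ) / 3)) ≤ m) →
      RepU k (fun x => (x : ℝ) ^ k + g.eval (x : ℝ) +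
          ∑ i : Fin d, t i * (x : ℝ) ^ (e - (i : ℕ))) r m := by
    rw [ae_all_iff]
    intro r
    rw [ae_all_iff]
    exact h1 r
  have h4 : ∀ᵐ t : Fin d → ℝ, ∀ r m : ℕ,
      (d = e ∧ 2 * k * Real.log (k / e) + 2 ≤ (r : ℝ) ∧ 2 * e + 1 ≤ m) →
      RepU k (fun x => (x : ℝ) ^ k + g.eval (x : ℝ) +
          ∑ i : Fin d, t i * (x : ℝ) ^ (e - (i : ℕ))) r m := by
    by_cases hde2 : d = e
    · subst hde2
      filter_upwards [XWar.res_mixS (by omega : 3 ≤ k) hd hek hg] with t ht r m h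
      exact ht r m h.2.1 h.2.2
    · exact Filter.Eventually.of_forall fun t r m h => absurd h.1 hde2
  filter_upwards [h2, h4] with t ht ht3 r m
  rintro (h | h)
  · exact ht3 r m h
  · exact ht r m h

end XWar
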