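import Pool.Agent.XWar.DivC

/-!
# XWar.VolC: comparison of a curve with its tangent

If `c B ≤ |G'| ≤ C B` on `[a, b]`, then the measure of `{|G| ≤ M}` is at most `C/c` times the measure of
`{t ∈ [-T, T] : |G a + t G' a| ≤ M}`, for `T ≥ 2M/c + (b-a) C/c`.
-/

namespace XWar

open MeasureTheory

private theorem mvt_up {G G' : ℝ → ℝ} {a b L : ℝ} (hG : ∀ x ∈ Set.Icc a b, HasDerivAt G (G' x) x)
    (hb : ∀ x ∈ Set.Icc a b, |G' x| ≤ L) :
    ∀ x ∈ Set.Icc a b, ∀ y ∈ Set.Icc a b, |G x - G y| ≤ L * |x - y| := by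
  intro x hx y hy
  have h := Convex.norm_image_sub_le_of_norm_hasDerivWithin_le (f := G) (f' := G')
    (s := Set.Icc a b) (C := L) (x := y) (y := x)
    (fun z hz => (hG z hz).hasDerivWithinAt) (fun z hz => by
      rw [Real.norm_eq_abs]
      exact hb z hz) (convex_Icc a b) hy hx
  rwa [Real.norm_eq_abs, Real.norm_eq_abs] at h

private theorem mvt_low {G G' : ℝ → ℝ} {a b L : ℝ} (hG : ∀ x ∈ Set.Icc a b, HasDerivAt G (G' x) x)
    (hlow : ∀ t ∈ Set.Icc a b, L ≤ |G' t|) :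
    ∀ x ∈ Set.Icc a b, ∀ y ∈ Set.Icc a b, L * |x - y| ≤ |G x - G y| := by
  have hlt : ∀ x ∈ Set.Icc a b, ∀ y ∈ Set.Icc a b, x < y → L * |x - y| ≤ |G x - G y| := by
    intro x hx y hy hxy
    have hsub : Set.Icc x y ⊆ Set.Icc a b := Set.Icc_subset_Icc hx.1 hy.2
    obtain ⟨z, hz, hz2⟩ := exists_hasDerivAt_eq_slope G G' hxy
      (fun t ht => (hG t (hsub ht)).continuousAt.continuousWithinAt)
      (fun t ht => hG t (hsub (Set.Ioo_subset_Icc_self ht)))
    have h1 := hlow z (hsub (Set.Ioo_subset_Icc_self hz))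
    have h2 : G y - G x = G' z * (y - x) := by
      rw [hz2]
      field_simp [(by linarith : y - x ≠ 0)]
    rw [abs_sub_comm (G x), h2, abs_mul, abs_sub_comm x]
    exact mul_le_mul_of_nonneg_right h1 (abs_nonneg _)
  intro x hx y hy
  rcases lt_trichotomy x y with h | h | h
  · exact hlt x hx y hy h
  · rw [h]
    simp
  · rw [abs_sub_comm, abs_sub_comm (G x)]
    exact hlt y hy x hx h

theorem vol_cmp {G G' : ℝ → ℝ} {a b M c C B T β : ℝ} (hab : a ≤ b) (hM : 0 ≤ M) (hc : 0 < c)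
    (hC : 0 < C) (hB : 1 ≤ B) (hG : ∀ x ∈ Set.Icc a b, HasDerivAt G (G' x) x)
    (hlow : ∀ x ∈ Set.Icc a b, c * B ≤ |G' x| ∧ |G' x| ≤ C * B)
    (hβ1 : c * B ≤ |β|) (hβ2 : |β| ≤ C * B)
    (hT : 2 * M / c + (b - a) * C / c ≤ T) :
    (volume {x | x ∈ Set.Icc a b ∧ |G x| ≤ M}).toReal ≤
      (C / c) * (volume {t | t ∈ Set.Icc (-T) T ∧ |G a + t * β| ≤ M}).toReal := by
  obtain ⟨S, hS⟩ : ∃ S, S = {x | x ∈ Set.Icc a b ∧ |G x| ≤ M} := ⟨_, rfl⟩
  obtain ⟨S', hS'⟩ : ∃ S', S' = {t | t ∈ Set.Icc (-T) T ∧ |G a + t * β| ≤ M} := ⟨_, rfl⟩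
  rw [← hS, ← hS']
  rcases S.eq_empty_or_nonempty with he | ⟨x0, hx0⟩
  · rw [he, measure_empty, ENNReal.toReal_zero]
    positivity
  have hB0 : 0 < B := by linarith
  have hx0' := hx0
  rw [hS] at hx0'
  obtain ⟨hx0ab, hx0M⟩ := hx0'
  have haa : a ∈ Set.Icc a b := ⟨le_rfl, hab⟩
  have hup := mvt_up hG fun x hx => (hlow x hx).2
  have hlo := mvt_low hG fun x hx => (hlow x hx).1
  have hcB : 0 < c * B := by positivity
  have hβ0 : 0 < |β| := lt_of_lt_of_le hcB hβ1
  have hβne : β ≠ 0 := abs_pos.1 hβ0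
  have hGa : |G a| ≤ M + C * B * (b - a) := by
    have h1 := hup a haa x0 hx0ab
    have h2 := abs_sub_abs_le_abs_sub (G a) (G x0)
    have h3 : |a - x0| ≤ b - a := by
      rw [abs_le]
      constructor <;> linarith [hx0ab.1, hx0ab.2]
    have h4 := mul_le_mul_of_nonneg_left h3 (by positivity : 0 ≤ C * B)
    linarith
  obtain ⟨t0, ht0⟩ : ∃ t0, t0 = -(G a) / β := ⟨_, rfl⟩
  have ht0a : |t0| ≤ (M + C * B * (b - a)) / (c * B) := by
    rw [ht0, abs_div, abs_neg]
    exact div_le_div₀ (by have : 0 ≤ C * B * (b - a) := mul_nonneg (by positivity) (by linarith)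
                          linarith) hGa hcB hβ1
  obtain ⟨ρ, hρ⟩ : ∃ ρ, ρ = M / |β| := ⟨_, rfl⟩
  have hρ0 : 0 ≤ ρ := by rw [hρ]; positivity
  have hρ1 : ρ ≤ M / (c * B) := by
    rw [hρ]
    exact div_le_div_of_nonneg_left hM hcB hβ1
  have hfin : |t0| + ρ ≤ T := by
    have h1 : (M + C * B * (b - a)) / (c * B) + M / (c * B) ≤ 2 * M / c + (b - a) * C / c := by
      have e1 : (M + C * B * (b - a)) / (c * B) + M / (c * B) =
        2 * (M / c) / B + (b - a) * C / c := by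
        field_simp
        ring
      have h2 : 2 * (M / c) / B ≤ 2 * (M / c) := div_le_self (by positivity) hB
      have e2 : 2 * M / c = 2 * (M / c) := by ring
      rw [e1, e2]
      linarith
    linarith
  have hsub : Set.Icc (t0 - ρ) (t0 + ρ) ⊆ S' := by
    intro t ht
    rw [hS']
    have h1 := neg_abs_le t0
    have h2 := le_abs_self t0
    refine ⟨⟨by linarith [ht.1], by linarith [ht.2]⟩, ?_⟩
    have e1 : G a + t * β = β * (t - t0) := by
      rw [ht0]
      field_simp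
      ring
    rw [e1, abs_mul]
    have h3 : |t - t0| ≤ ρ := by
      rw [abs_le]
      constructor <;> linarith [ht.1, ht.2]
    calc |β| * |t - t0| ≤ |β| * ρ := mul_le_mul_of_nonneg_left h3 hβ0.le
      _ = M := by rw [hρ]; field_simp
  have hS'fin : volume S' ≠ ⊤ := by
    refine ne_top_of_le_ne_top (b := volume (Set.Icc (-T) T)) ?_ (measure_mono ?_)
    · rw [Real.volume_Icc]
      exact ENNReal.ofReal_ne_top
    · intro t ht
      rw [hS'] at ht
      exact ht.1
  have hv1 : 2 * ρ ≤ (volume S').toReal := by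
    have h1 := ENNReal.toReal_mono hS'fin (measure_mono (μ := volume) hsub)
    rw [Real.volume_Icc, ENNReal.toReal_ofReal (by linarith)] at h1
    linarith
  -- the set `S` is short
  have hdiam : ∀ x ∈ S, ∀ y ∈ S, y - x ≤ 2 * M / (c * B) := by
    intro x hx y hy
    rw [hS] at hx hy
    have h1 := hlo x hx.1 y hy.1
    have h2 := abs_sub (G x) (G y)
    have h3 : c * B * |x - y| ≤ 2 * M := by linarith [hx.2, hy.2]
    rw [le_div_iff₀ hcB]
    have h4 : y - x ≤ |x - y| := by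
      rw [abs_sub_comm]
      exact le_abs_self _
    have h5 := mul_le_mul_of_nonneg_left h4 hcB.le
    linarith
  have hbdd : BddBelow S := ⟨a, fun x hx => by rw [hS] at hx; exact hx.1.1⟩
  have hsub2 : S ⊆ Set.Icc (sInf S) (sInf S + 2 * M / (c * B)) := by
    intro y hy
    refine ⟨csInf_le hbdd hy, ?_⟩
    have h1 : y - 2 * M / (c * B) ≤ sInf S := by
      apply le_csInf ⟨x0, hx0⟩
      intro x hx
      have := hdiam x hx y hy
      linarith
    linarith
  have hv2 : (volume S).toReal ≤ 2 * M / (c * B) := by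
    have h1 := ENNReal.toReal_mono (by rw [Real.volume_Icc]; exact ENNReal.ofReal_ne_top)
      (measure_mono (μ := volume) hsub2)
    rw [Real.volume_Icc, ENNReal.toReal_ofReal (by rw [add_sub_cancel_left]; positivity)] at h1
    linarith
  have hρ2 : M / (C * B) ≤ ρ := by
    rw [hρ]
    exact div_le_div_of_nonneg_left hM hβ0 hβ2
  calc (volume S).toReal ≤ 2 * M / (c * B) := hv2
    _ = (C / c) * (2 * (M / (C * B))) := by field_simp
    _ ≤ (C / c) * (2 * ρ) := by
        apply mul_le_mul_of_nonneg_left _ (by positivity)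
        linarith
    _ ≤ _ := mul_le_mul_of_nonneg_left hv1 (by positivity)

theorem vol_const {α a b M T : ℝ} (hab : a ≤ b) (hT : b - a ≤ 2 * T) :
    (volume {x : ℝ | x ∈ Set.Icc a b ∧ |α| ≤ M}).toReal ≤
      (volume {t : ℝ | t ∈ Set.Icc (-T) T ∧ |α + t * 0| ≤ M}).toReal := by
  by_cases h : |α| ≤ M
  · have e1 : {x : ℝ | x ∈ Set.Icc a b ∧ |α| ≤ M} = Set.Icc a b := by
      ext x
      simp [h]
    have e2 : {t : ℝ | t ∈ Set.Icc (-T) T ∧ |α + t * 0| ≤ M} = Set.Icc (-T) T := by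
      ext x
      simp [h]
    rw [e1, e2, Real.volume_Icc, Real.volume_Icc, ENNReal.toReal_ofReal (by linarith),
      ENNReal.toReal_ofReal (by linarith)]
    linarith
  · have e1 : {x : ℝ | x ∈ Set.Icc a b ∧ |α| ≤ M} = ∅ := by
      ext x
      simp only [Set.mem_ofPred_eq, Set.mem_empty_iff_false, iff_false, not_and]
      exact fun _ => h
    rw [e1, measure_empty, ENNReal.toReal_zero]
    positivity

end XWar
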